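import Pool.Agent.LO.Lattice

set_option autoImplicit false

namespace Pool.Agent.LO

/-! Package LO-B1: the bump maps and the periodic maps `pw` -/

/-- admissible parameters -/
def Par (ρ a D : ℚ) : Prop := a < ρ ∧ 0 < D ∧ D ≤ 2 * a

/-- affine automorphism -/
noncomputable def bumpAff (s c : ℚ) (hs : 0 < s) : ℚ ≃o ℚ :=
  StrictMono.orderIsoOfSurjective (fun x => s * x + c)
    (fun x y h => by
      have := mul_lt_mul_of_pos_left h hs
      simpa using this)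
    (fun y => ⟨(y - c) / s, by
      have := hs.ne'
      field_simp
      ring⟩)

theorem bumpAff_apply (s c : ℚ) (hs : 0 < s) (x : ℚ) : bumpAff s c hs x = s * x + c := rfl

theorem bump_key {ρ a D : ℚ} (h : Par ρ a D) :
    StrictMono (bumpF ρ a D) ∧ Function.Surjective (bumpF ρ a D) := by
  obtain ⟨h1, h2, h3⟩ := h
  have p1 : 0 < ρ - a := by linarith
  have p2 : 0 < ρ - a + D := by linarith
  have s1 : 0 < (ρ - a + D) / (ρ - a) := div_pos p2 p1
  have s2 : 0 < (ρ - a) / (ρ - a + D) := div_pos p1 p2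
  let A := bumpAff 1 D one_pos
  let B := bumpAff ((ρ - a) / (ρ - a + D)) (ρ - ρ * ((ρ - a) / (ρ - a + D))) s2
  let C := bumpAff ((ρ - a + D) / (ρ - a)) (-ρ + ρ * ((ρ - a + D) / (ρ - a))) s1
  let F1 := StrictMono.orderIsoOfSurjective _ (min_iso A B).1 (min_iso A B).2
  let F2 := StrictMono.orderIsoOfSurjective _ (min_iso C F1).1 (min_iso C F1).2
  have hF := max_iso (OrderIso.refl ℚ) F2
  have e : bumpF ρ a D = fun x => max (OrderIso.refl ℚ x) (F2 x) := by
    funext x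
    change max x (min (-ρ + (x + ρ) * ((ρ - a + D) / (ρ - a)))
      (min (x + D) (ρ - (ρ - x) * ((ρ - a) / (ρ - a + D))))) = max x (min (C x) (min (A x) (B x)))
    have eA : A x = x + D := by
      change 1 * x + D = x + D
      ring
    have eB : B x = ρ - (ρ - x) * ((ρ - a) / (ρ - a + D)) := by
      change (ρ - a) / (ρ - a + D) * x + (ρ - ρ * ((ρ - a) / (ρ - a + D))) = _
      ring
    have eC : C x = -ρ + (x + ρ) * ((ρ - a + D) / (ρ - a)) := by
      change (ρ - a + D) / (ρ - a) * x + (-ρ + ρ * ((ρ - a + D) / (ρ - a))) = _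
      ring
    rw [eA, eB, eC]
  rw [e]
  exact hF

theorem bump_apply {ρ a D : ℚ} (h : Par ρ a D) (x : ℚ) : bump ρ a D x = bumpF ρ a D x :=
  mkIso_apply (bump_key h).1 (bump_key h).2 x

theorem bump_L1 {ρ a D : ℚ} (h : Par ρ a D) (x : ℚ) :
    -ρ + (x + ρ) * ((ρ - a + D) / (ρ - a)) = x + (x + ρ) * (D / (ρ - a)) := by
  have p1 : ρ - a ≠ 0 := by have := h.1; linarith
  field_simp
  ring

theorem bump_L3 {ρ a D : ℚ} (h : Par ρ a D) (x : ℚ) :
    ρ - (ρ - x) * ((ρ - a) / (ρ - a + D)) = x + (ρ - x) * (D / (ρ - a + D)) := by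
  have p1 : ρ - a + D ≠ 0 := by
    have := h.1
    have := h.2.1
    linarith
  field_simp
  ring

theorem bump_c1 {ρ a D : ℚ} (h : Par ρ a D) (x : ℚ) :
    x + (x + ρ) * (D / (ρ - a)) - (x + D) = (x + a) * (D / (ρ - a)) := by
  have p1 : ρ - a ≠ 0 := by have := h.1; linarith
  field_simp
  ring

theorem bump_c3 {ρ a D : ℚ} (h : Par ρ a D) (x : ℚ) :
    x + (ρ - x) * (D / (ρ - a + D)) - (x + D) = (a - D - x) * (D / (ρ - a + D)) := by
  have p1 : ρ - a + D ≠ 0 := by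
    have := h.1
    have := h.2.1
    linarith
  field_simp
  ring

theorem bump_pos1 {ρ a D : ℚ} (h : Par ρ a D) : 0 < D / (ρ - a) :=
  div_pos h.2.1 (by have := h.1; linarith)

theorem bump_pos3 {ρ a D : ℚ} (h : Par ρ a D) : 0 < D / (ρ - a + D) :=
  div_pos h.2.1 (by have := h.1; have := h.2.1; linarith)

theorem bump_eq {ρ a D : ℚ} (h : Par ρ a D) (x : ℚ) :
    bump ρ a D x = max x (min (x + (x + ρ) * (D / (ρ - a)))
      (min (x + D) (x + (ρ - x) * (D / (ρ - a + D))))) := by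
  rw [bump_apply h, bumpF, bump_L1 h, bump_L3 h]

theorem bump_of_abs_ge {ρ a D : ℚ} (h : Par ρ a D) {x : ℚ} (hx : ρ ≤ |x|) :
    bump ρ a D x = x := by
  rw [bump_eq h]
  apply max_eq_left
  rcases le_abs.1 hx with h1 | h1
  · apply (min_le_right _ _).trans
    apply (min_le_right _ _).trans
    have := mul_nonneg_of_nonpos_of_nonpos (show ρ - x ≤ 0 by linarith)
      (show -(D / (ρ - a + D)) ≤ 0 by have := bump_pos3 h; linarith)
    linarith
  · apply (min_le_left _ _).trans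
    have := mul_nonneg_of_nonpos_of_nonpos (show x + ρ ≤ 0 by linarith)
      (show -(D / (ρ - a)) ≤ 0 by have := bump_pos1 h; linarith)
    linarith

theorem bump_mid {ρ a D : ℚ} (h : Par ρ a D) {x : ℚ} (h1 : -a ≤ x) (h2 : x ≤ a - D) :
    bump ρ a D x = x + D := by
  have c1 := bump_c1 h x
  have c3 := bump_c3 h x
  have d1 := mul_nonneg (show 0 ≤ x + a by linarith) (bump_pos1 h).le
  have d3 := mul_nonneg (show 0 ≤ a - D - x by linarith) (bump_pos3 h).le
  have hD := h.2.1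
  rw [bump_eq h, min_eq_left (a := x + D) (by linarith), min_eq_right (by linarith),
    max_eq_right (by linarith)]

theorem bump_right' {ρ a D : ℚ} (h : Par ρ a D) {x : ℚ} (h1 : a - D ≤ x) (h2 : x ≤ ρ) :
    bump ρ a D x = x + (ρ - x) * (D / (ρ - a + D)) := by
  obtain ⟨q1, q2, q3⟩ := id h
  have c1 := bump_c1 h x
  have c3 := bump_c3 h x
  have d1 := mul_nonneg (show 0 ≤ x + a by linarith) (bump_pos1 h).le
  have d3 := mul_nonneg (show 0 ≤ -(a - D - x) by linarith) (bump_pos3 h).le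
  have d4 := mul_nonneg (show 0 ≤ ρ - x by linarith) (bump_pos3 h).le
  rw [bump_eq h, min_eq_right (a := x + D) (by linarith), min_eq_right (by linarith),
    max_eq_right (by linarith)]

theorem bump_right {ρ a D : ℚ} (h : Par ρ a D) {x : ℚ} (h1 : a - D ≤ x) (h2 : x ≤ ρ) :
    bump ρ a D x = ρ - (ρ - x) * ((ρ - a) / (ρ - a + D)) := by
  rw [bump_right' h h1 h2, bump_L3 h]

theorem bump_left' {ρ a D : ℚ} (h : Par ρ a D) {x : ℚ} (h1 : -ρ ≤ x) (h2 : x ≤ -a) :
    bump ρ a D x = x + (x + ρ) * (D / (ρ - a)) := by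
  obtain ⟨q1, q2, q3⟩ := id h
  have c1 := bump_c1 h x
  have c3 := bump_c3 h x
  have d1 := mul_nonneg (show 0 ≤ -(x + a) by linarith) (bump_pos1 h).le
  have d3 := mul_nonneg (show 0 ≤ a - D - x by linarith) (bump_pos3 h).le
  have d4 := mul_nonneg (show 0 ≤ x + ρ by linarith) (bump_pos1 h).le
  rw [bump_eq h, min_eq_left (a := x + D) (by linarith), min_eq_left (by linarith),
    max_eq_right (by linarith)]

theorem bump_left {ρ a D : ℚ} (h : Par ρ a D) {x : ℚ} (h1 : -ρ ≤ x) (h2 : x ≤ -a) :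
    bump ρ a D x = -ρ + (x + ρ) * ((ρ - a + D) / (ρ - a)) := by
  rw [bump_left' h h1 h2, bump_L1 h]

theorem bump_neg_bump {ρ a D : ℚ} (h : Par ρ a D) (u : ℚ) :
    bump ρ a D (-(bump ρ a D u)) = -u := by
  obtain ⟨q1, q2, q3⟩ := id h
  have p1 : 0 < ρ - a := by linarith
  have p2 : 0 < ρ - a + D := by linarith
  have r1 : (ρ - a + D) / (ρ - a) * ((ρ - a) / (ρ - a + D)) = 1 := by
    have := p1.ne'
    have := p2.ne'
    field_simp
  by_cases c1 : ρ ≤ |u|
  · rw [bump_of_abs_ge h c1, bump_of_abs_ge h (by rwa [abs_neg])]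
  · push Not at c1
    obtain ⟨b1, b2⟩ := abs_lt.1 c1
    by_cases c2 : u ≤ -a
    · have e := bump_left h b1.le c2
      have t1 : 0 ≤ (u + ρ) * ((ρ - a + D) / (ρ - a)) :=
        mul_nonneg (by linarith) (div_pos p2 p1).le
      have t2 : (u + ρ) * ((ρ - a + D) / (ρ - a)) ≤ ρ - a + D := by
        have e2 : ρ - a + D = (ρ - a) * ((ρ - a + D) / (ρ - a)) := by
          have := p1.ne'
          field_simp
        conv_rhs => rw [e2]
        exact mul_le_mul_of_nonneg_right (by linarith) (div_pos p2 p1).le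
      rw [e, bump_right h (by linarith) (by linarith)]
      have : ρ - -(-ρ + (u + ρ) * ((ρ - a + D) / (ρ - a))) =
        (u + ρ) * ((ρ - a + D) / (ρ - a)) := by ring
      rw [this, mul_assoc, r1]
      ring
    · push Not at c2
      by_cases c3 : u ≤ a - D
      · rw [bump_mid h c2.le c3, bump_mid h (by linarith) (by linarith)]
        ring
      · push Not at c3
        have e := bump_right h c3.le b2.le
        have t1 : 0 ≤ (ρ - u) * ((ρ - a) / (ρ - a + D)) :=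
          mul_nonneg (by linarith) (div_pos p1 p2).le
        have t2 : (ρ - u) * ((ρ - a) / (ρ - a + D)) ≤ ρ - a := by
          have e2 : ρ - a = (ρ - a + D) * ((ρ - a) / (ρ - a + D)) := by
            have := p2.ne'
            field_simp
          conv_rhs => rw [e2]
          exact mul_le_mul_of_nonneg_right (by linarith) (div_pos p1 p2).le
        rw [e, bump_left h (by linarith) (by linarith)]
        have : -(ρ - (ρ - u) * ((ρ - a) / (ρ - a + D))) + ρ =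
          (ρ - u) * ((ρ - a) / (ρ - a + D)) := by ring
        rw [this, mul_assoc, mul_comm ((ρ - a) / (ρ - a + D)), r1]
        ring

theorem bump_inv {ρ a D : ℚ} (h : Par ρ a D) (x : ℚ) :
    (bump ρ a D)⁻¹ x = - bump ρ a D (-x) := by
  have h1 := bump_neg_bump h (-x)
  rw [neg_neg] at h1
  have h2 : (bump ρ a D)⁻¹ (bump ρ a D (-(bump ρ a D (-x)))) = -(bump ρ a D (-x)) :=
    (bump ρ a D).symm_apply_apply _
  rw [h1] at h2
  exact h2

theorem le_bump {ρ a D : ℚ} (h : Par ρ a D) (x : ℚ) : x ≤ bump ρ a D x := by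
  rw [bump_eq h]
  exact le_max_left _ _

theorem bump_le {ρ a D : ℚ} (h : Par ρ a D) (x : ℚ) : bump ρ a D x ≤ x + D := by
  rw [bump_eq h]
  have := h.2.1
  exact max_le (by linarith) ((min_le_right _ _).trans (min_le_left _ _))

theorem bump_pow_fix {α : Type} [LinearOrder α] {g : α ≃o α} {x : α} (h : g x = x) (k : ℕ) :
    (g ^ k) x = x := by
  induction k with
  | zero => rfl
  | succ k ih =>
    rw [pow_succ]
    change (g ^ k) (g x) = x
    rw [h, ih]

theorem bump_inv_fix {α : Type} [LinearOrder α] {g : α ≃o α} {x : α} (h : g x = x) :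
    g⁻¹ x = x := by
  conv_lhs => rw [← h]
  exact g.symm_apply_apply x

theorem bump_zpow_fix {α : Type} [LinearOrder α] {g : α ≃o α} {x : α} (h : g x = x) (k : ℤ) :
    (g ^ k) x = x := by
  obtain ⟨n, rfl | rfl⟩ := k.eq_nat_or_neg
  · rw [zpow_natCast]
    exact bump_pow_fix h n
  · rw [zpow_neg, zpow_natCast]
    exact bump_inv_fix (bump_pow_fix h n)

theorem bump_zpow_of_abs_ge {ρ a D : ℚ} (h : Par ρ a D) (k : ℤ) {x : ℚ} (hx : ρ ≤ |x|) :
    (bump ρ a D ^ k) x = x :=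
  bump_zpow_fix (bump_of_abs_ge h hx) k

/-- the nearest centre -/
noncomputable def bumpCtr (m c : ℤ) (r : ℚ) : ℤ := c + m * ⌊(r - c) / m + 1 / 2⌋

theorem bumpCtr_dvd (m c : ℤ) (r : ℚ) : m ∣ bumpCtr m c r - c := by
  unfold bumpCtr
  exact ⟨⌊(r - c) / m + 1 / 2⌋, by ring⟩

theorem bumpCtr_le {m : ℤ} (hm : 0 < m) (c : ℤ) (r : ℚ) :
    -((m : ℚ) / 2) ≤ r - bumpCtr m c r ∧ r - bumpCtr m c r < (m : ℚ) / 2 := by
  have hm' : (0 : ℚ) < m := by exact_mod_cast hm
  have h1 := Int.floor_le ((r - c) / m + 1 / 2)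
  have h2 := Int.lt_floor_add_one ((r - c) / m + 1 / 2)
  have e : (r - c) / m * m = r - c := by field_simp
  have h3 := mul_le_mul_of_nonneg_right h1 hm'.le
  have h4 := mul_lt_mul_of_pos_right h2 hm'
  unfold bumpCtr
  push_cast
  rw [add_mul, e] at h3
  rw [add_mul, add_mul, e] at h4
  constructor <;> linarith

theorem bumpCtr_mono {m : ℤ} (hm : 0 < m) (c : ℤ) {r s : ℚ} (h : r ≤ s) :
    bumpCtr m c r ≤ bumpCtr m c s := by
  have hm' : (0 : ℚ) < m := by exact_mod_cast hm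
  unfold bumpCtr
  have : ⌊(r - c) / m + 1 / 2⌋ ≤ ⌊(s - c) / m + 1 / 2⌋ := by
    apply Int.floor_le_floor
    have : (r - c) / m ≤ (s - c) / m := div_le_div_of_nonneg_right (by linarith) hm'.le
    linarith
  have := mul_le_mul_of_nonneg_left this hm.le
  linarith

theorem bump_exists_eq {m c n n' : ℤ} (h : m ∣ n - c) (h' : m ∣ n' - c) : ∃ k : ℤ,
    n' = n + m * k := by
  obtain ⟨a, ha⟩ := h
  obtain ⟨b, hb⟩ := h'
  exact ⟨b - a, by linear_combination hb - ha⟩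

theorem exists_center {m : ℤ} (hm : 0 < m) (c : ℤ) (r : ℚ) :
    ∃ n : ℤ, m ∣ n - c ∧ |r - n| ≤ (m : ℚ) / 2 := by
  obtain ⟨h1, h2⟩ := bumpCtr_le hm c r
  exact ⟨bumpCtr m c r, bumpCtr_dvd m c r, abs_le.2 ⟨h1, h2.le⟩⟩

theorem bump_pwF_near {m c : ℤ} {Θ : ℤ → (ℚ ≃o ℚ)} (hm : 0 < m)
    (hΘ : ∀ n x, (m : ℚ) / 2 ≤ |x| → Θ n x = x) {n : ℤ} (hn : m ∣ n - c) {r : ℚ}
    (hr : |r - n| ≤ (m : ℚ) / 2) : pwF m c Θ r = n + Θ n (r - n) := by
  have hm' : (0 : ℚ) < m := by exact_mod_cast hm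
  change (bumpCtr m c r : ℚ) + Θ (bumpCtr m c r) (r - bumpCtr m c r) = n + Θ n (r - n)
  obtain ⟨h1, h2⟩ := bumpCtr_le hm c r
  obtain ⟨k, hk⟩ := bump_exists_eq hn (bumpCtr_dvd m c r)
  obtain ⟨h3, h4⟩ := abs_le.1 hr
  have e : (bumpCtr m c r : ℚ) = n + m * k := by rw [hk]; push_cast; ring
  have k1 : (m : ℚ) * k ≤ m * 1 := by linarith
  have k2 : (m : ℚ) * (-1) < m * k := by linarith
  have k3 : (k : ℚ) ≤ 1 := le_of_mul_le_mul_left k1 hm'
  have k4 : (-1 : ℚ) < k := lt_of_mul_lt_mul_left k2 hm'.le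
  have k5 : k ≤ 1 := by exact_mod_cast k3
  have k6 : -1 < k := by exact_mod_cast k4
  have k7 : k = 0 ∨ k = 1 := by omega
  rcases k7 with rfl | rfl
  · have : bumpCtr m c r = n := by rw [hk]; ring
    rw [this]
  · have e2 : (bumpCtr m c r : ℚ) = n + m := by rw [e]; push_cast; ring
    have e3 : r - n = (m : ℚ) / 2 := by linarith
    have e4 : r - bumpCtr m c r = -((m : ℚ) / 2) := by rw [e2]; linarith
    have f1 : Θ n (r - n) = r - n := hΘ n _ (by rw [e3]; exact le_abs_self _)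
    have f2 : Θ (bumpCtr m c r) (r - bumpCtr m c r) = r - bumpCtr m c r :=
      hΘ _ _ (by rw [e4, abs_neg]; exact le_abs_self _)
    rw [f1, f2]
    ring

theorem bump_pw_pres {m : ℤ} {Θ : ℤ → (ℚ ≃o ℚ)} (hm : 0 < m)
    (hΘ : ∀ n x, (m : ℚ) / 2 ≤ |x| → Θ n x = x) (n : ℤ) {x : ℚ} (hx : |x| ≤ (m : ℚ) / 2) :
    |(Θ n)⁻¹ x| ≤ (m : ℚ) / 2 := by
  have hm' : (0 : ℚ) < m := by exact_mod_cast hm
  have f1 : (Θ n) ((m : ℚ) / 2) = (m : ℚ) / 2 := hΘ n _ (le_abs_self _)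
  have f2 : (Θ n) (-((m : ℚ) / 2)) = -((m : ℚ) / 2) := hΘ n _ (by rw [abs_neg]; exact le_abs_self _)
  obtain ⟨h1, h2⟩ := abs_le.1 hx
  have g1 := ((Θ n)⁻¹).monotone h1
  have g2 := ((Θ n)⁻¹).monotone h2
  rw [bump_inv_fix f2] at g1
  rw [bump_inv_fix f1] at g2
  exact abs_le.2 ⟨g1, g2⟩

theorem bump_pw_key {m c : ℤ} {Θ : ℤ → (ℚ ≃o ℚ)} (hm : 0 < m)
    (hΘ : ∀ n x, (m : ℚ) / 2 ≤ |x| → Θ n x = x) :
    StrictMono (pwF m c Θ) ∧ Function.Surjective (pwF m c Θ) := by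
  have hm' : (0 : ℚ) < m := by exact_mod_cast hm
  constructor
  · intro r s hrs
    change (bumpCtr m c r : ℚ) + Θ (bumpCtr m c r) (r - bumpCtr m c r) <
      (bumpCtr m c s : ℚ) + Θ (bumpCtr m c s) (s - bumpCtr m c s)
    obtain ⟨h1, h2⟩ := bumpCtr_le hm c r
    obtain ⟨h3, h4⟩ := bumpCtr_le hm c s
    have h5 := bumpCtr_mono hm c hrs.le
    obtain ⟨k, hk⟩ := bump_exists_eq (bumpCtr_dvd m c r) (bumpCtr_dvd m c s)
    rcases h5.eq_or_lt with h6 | h6
    · rw [← h6]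
      have := (Θ (bumpCtr m c r)).strictMono (show r - bumpCtr m c r < s - bumpCtr m c r by
        linarith)
      linarith
    · have k1 : 0 < m * k := by linarith
      have k2 : 0 < k := by
        rcases lt_trichotomy 0 k with h | h | h
        · exact h
        · rw [← h] at k1; simp at k1
        · have := mul_neg_of_pos_of_neg hm h; linarith
      have k3 : m * 1 ≤ m * k := mul_le_mul_of_nonneg_left (by omega) hm.le
      have k4 : bumpCtr m c r + m ≤ bumpCtr m c s := by linarith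
      have k5 : (bumpCtr m c r : ℚ) + m ≤ bumpCtr m c s := by exact_mod_cast k4
      have f1 : (Θ (bumpCtr m c r)) ((m : ℚ) / 2) = (m : ℚ) / 2 := hΘ _ _ (le_abs_self _)
      have f2 : (Θ (bumpCtr m c s)) (-((m : ℚ) / 2)) = -((m : ℚ) / 2) :=
        hΘ _ _ (by rw [abs_neg]; exact le_abs_self _)
      have g1 := (Θ (bumpCtr m c r)).strictMono h2
      have g2 := (Θ (bumpCtr m c s)).monotone h3
      rw [f1] at g1
      rw [f2] at g2
      linarith
  · intro y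
    obtain ⟨n, hn, hr⟩ := exists_center hm c y
    refine ⟨n + (Θ n)⁻¹ (y - n), ?_⟩
    have h1 := bump_pw_pres hm hΘ n hr
    have h2 : (n : ℚ) + (Θ n)⁻¹ (y - n) - n = (Θ n)⁻¹ (y - n) := by ring
    rw [bump_pwF_near hm hΘ hn (by rw [h2]; exact h1), h2]
    have h3 : (Θ n) ((Θ n)⁻¹ (y - n)) = y - n := (Θ n).apply_symm_apply _
    rw [h3]
    ring

/-- `pw` acts by `Θ n` around each centre `n` (both adjacent centres give the same value at
half-way points) -/
theorem pw_near {m c : ℤ} {Θ : ℤ → (ℚ ≃o ℚ)} (hm : 0 < m)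
    (hΘ : ∀ n x, (m : ℚ) / 2 ≤ |x| → Θ n x = x) {n : ℤ} (hn : m ∣ n - c) {r : ℚ}
    (hr : |r - n| ≤ (m : ℚ) / 2) : pw m c Θ r = n + Θ n (r - n) := by
  rw [pw, mkIso_apply (bump_pw_key hm hΘ).1 (bump_pw_key hm hΘ).2]
  exact bump_pwF_near hm hΘ hn hr

theorem pw_inv_near {m c : ℤ} {Θ : ℤ → (ℚ ≃o ℚ)} (hm : 0 < m)
    (hΘ : ∀ n x, (m : ℚ) / 2 ≤ |x| → Θ n x = x) {n : ℤ} (hn : m ∣ n - c) {r : ℚ}
    (hr : |r - n| ≤ (m : ℚ) / 2) : (pw m c Θ)⁻¹ r = n + (Θ n)⁻¹ (r - n) := by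
  have h1 := bump_pw_pres hm hΘ n hr
  have h2 : (n : ℚ) + (Θ n)⁻¹ (r - n) - n = (Θ n)⁻¹ (r - n) := by ring
  have h3 := pw_near hm hΘ hn (r := n + (Θ n)⁻¹ (r - n)) (by rw [h2]; exact h1)
  rw [h2] at h3
  have h4 : (Θ n) ((Θ n)⁻¹ (r - n)) = r - n := (Θ n).apply_symm_apply _
  rw [h4] at h3
  have h5 : (pw m c Θ)⁻¹ (pw m c Θ (n + (Θ n)⁻¹ (r - n))) = n + (Θ n)⁻¹ (r - n) :=
    (pw m c Θ).symm_apply_apply _
  rw [h3] at h5
  have h6 : (n : ℚ) + (r - n) = r := by ring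
  rw [h6] at h5
  exact h5

end Pool.Agent.LO
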