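import Pool.Agent.LO.Flow

set_option autoImplicit false

namespace Pool.Agent.LO

/-! Package LO-B3: the compression maps `fq` and transport maps `gq` -/

theorem Compress_M_even (l : ℕ) : ((M l : ℕ) : ℤ) % 2 = 0 := by
  rw [M_eq]
  push_cast
  omega

theorem Compress_even {l : ℕ} {b : Bool} {n : ℤ} (hn : isC l b n) : n % 2 = 0 := by
  have h1 := isC_dvd hn
  have h2 := Compress_M_even l
  obtain ⟨k, hk⟩ := h1
  rw [hk, Int.mul_emod, h2]
  simp

theorem Compress_sign (k : ℤ) : - eps k = 1 ∨ - eps k = -1 := by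
  rcases eps_cases k with h | h <;> rw [h] <;> simp

/-- the letter of index `j + 1` at the right boundary point -/
theorem Compress_right (l : ℕ) (b : Bool) {n : ℤ} (hn : isC l b n) {j : ℕ} (hj : j + 1 < M l) :
    (sq (j + 1) ^ (- eps (ctr l b + ((j : ℤ) + 1)))) ((n : ℚ) + (j + 1 + 1 / 4)) =
      n + (j + 1 / 4) := by
  have hne : ((j : ℤ) + 1) ≠ 0 := by omega
  have hlt : |((j : ℤ) + 1)| < M l := by
    rw [abs_of_nonneg (by omega)]
    exact_mod_cast hj
  have hm : ((n + ((j : ℤ) + 1)) - ((j + 1 : ℕ) : ℤ)) % 2 = 0 := by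
    have := Compress_even hn
    push_cast
    omega
  have hr : |((n : ℚ) + (j + 1 + 1 / 4)) - ((n + ((j : ℤ) + 1) : ℤ) : ℚ)| ≤ 1 := by
    push_cast
    rw [abs_le]
    constructor <;> linarith
  rw [sq_near (j + 1) hm hr (Compress_sign _), eps_class hn hne hlt]
  have h1 : - eps (ctr l b + ((j : ℤ) + 1)) * eps (ctr l b + ((j : ℤ) + 1)) = -1 := by
    have := eps_mul_self (ctr l b + ((j : ℤ) + 1))
    linarith
  rw [h1, zpow_neg_one]
  have h2 : ((n : ℚ) + (j + 1 + 1 / 4)) - ((n + ((j : ℤ) + 1) : ℤ) : ℚ) = 1 / 4 := by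
    push_cast
    ring
  rw [h2, theta_inv_near (by norm_num)]
  push_cast
  ring

/-- the letter of index `j + 1` at the left boundary point -/
theorem Compress_left (l : ℕ) (b : Bool) {n : ℤ} (hn : isC l b n) {j : ℕ} (hj : j + 1 < M l) :
    (sq (j + 1) ^ (- eps (ctr l b + ((j : ℤ) + 1)))) ((n : ℚ) - (j + 1 + 1 / 4)) =
      n - (j + 1 / 4) := by
  have hne : ((j : ℤ) + 1) ≠ 0 := by omega
  have hlt : |((j : ℤ) + 1)| < M l := by
    rw [abs_of_nonneg (by omega)]
    exact_mod_cast hj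
  have hm : ((n - ((j : ℤ) + 1)) - ((j + 1 : ℕ) : ℤ)) % 2 = 0 := by
    have := Compress_even hn
    push_cast
    omega
  have hr : |((n : ℚ) - (j + 1 + 1 / 4)) - ((n - ((j : ℤ) + 1) : ℤ) : ℚ)| ≤ 1 := by
    push_cast
    rw [abs_le]
    constructor <;> linarith
  rw [sq_near (j + 1) hm hr (Compress_sign _), eps_class_neg (isC_dvd hn) hne hlt,
    eps_class hn hne hlt]
  have h1 : - eps (ctr l b + ((j : ℤ) + 1)) * - eps (ctr l b + ((j : ℤ) + 1)) = 1 := by
    have := eps_mul_self (ctr l b + ((j : ℤ) + 1))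
    linarith
  rw [h1, zpow_one]
  have h2 : ((n : ℚ) - (j + 1 + 1 / 4)) - ((n - ((j : ℤ) + 1) : ℤ) : ℚ) = -(1 / 4) := by
    push_cast
    ring
  rw [h2, theta_near (by norm_num)]
  push_cast
  ring

theorem Compress_step (l : ℕ) (b : Bool) {n : ℤ} (hn : isC l b n) {j : ℕ} (hj : j + 1 < M l)
    (r : ℚ) :
    |(sq (j + 1) ^ (- eps (ctr l b + ((j : ℤ) + 1)))) r - n| ≤ (j : ℚ) + 1 / 4 ↔
      |r - n| ≤ ((j + 1 : ℕ) : ℚ) + 1 / 4 := by
  have h1 := Compress_right l b hn hj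
  have h2 := Compress_left l b hn hj
  have h3 : (sq (j + 1) ^ (- eps (ctr l b + ((j : ℤ) + 1)))) r ≤ n + (j + 1 / 4) ↔
      r ≤ (n : ℚ) + (j + 1 + 1 / 4) := by
    rw [← h1, OrderIso.le_iff_le]
  have h4 : (n : ℚ) - (j + 1 / 4) ≤ (sq (j + 1) ^ (- eps (ctr l b + ((j : ℤ) + 1)))) r ↔
      (n : ℚ) - (j + 1 + 1 / 4) ≤ r := by
    rw [← h2, OrderIso.le_iff_le]
  rw [abs_le, abs_le]
  push_cast
  constructor
  · rintro ⟨h5, h6⟩
    have h7 := h3.1 (by linarith)
    have h8 := h4.1 (by linarith)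
    constructor <;> linarith
  · rintro ⟨h5, h6⟩
    have h7 := h3.2 (by linarith)
    have h8 := h4.2 (by linarith)
    constructor <;> linarith

/-- `fq l b j` maps `[n-j-1/4, n+j+1/4]` exactly onto `[n-1/4, n+1/4]` for the centres `n` -/
theorem fq_iff (l : ℕ) (b : Bool) {n : ℤ} (hn : isC l b n) {j : ℕ} (hj : j < M l) (r : ℚ) :
    |fq l b j r - n| ≤ 1 / 4 ↔ |r - n| ≤ j + 1 / 4 := by
  induction j generalizing r with
  | zero =>
    show |r - n| ≤ 1 / 4 ↔ _
    simp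
  | succ j ih =>
    show |(fq l b j * (sq (j + 1)) ^ (- eps (ctr l b + ((j : ℤ) + 1)))) r - n| ≤ 1 / 4 ↔ _
    rw [RelIso.mul_apply, ih (by omega), Compress_step l b hn hj]

theorem Compress_tau (l : ℕ) (b : Bool) {n n' a : ℤ} (hn : isC l b n) (hn' : isC l b n')
    (ha : a = 1 ∨ a = -1) (he : eps n' = a * eps n) {j : ℕ} (hj : j + 1 < M l) {r : ℚ}
    (hr : |r - n| ≤ ((j + 1 : ℕ) : ℚ) + 1 / 4) :
    (sq (j + 1) ^ (- eps (ctr l b + ((j : ℤ) + 1)))) ((n' : ℚ) + a * (r - n)) =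
      n' + a * ((sq (j + 1) ^ (- eps (ctr l b + ((j : ℤ) + 1)))) r - n) := by
  obtain ⟨m, hm, hrm⟩ := exists_center (m := 2) (by norm_num) ((j : ℤ) + 1) r
  have hrm' : |r - m| ≤ 1 := by
    have h : (((2 : ℤ) : ℚ)) / 2 = 1 := by norm_num
    rwa [h] at hrm
  have hev := Compress_even hn
  have hev' := Compress_even hn'
  have hn0 : (n' - a * n) % 2 = 0 := by
    rcases ha with rfl | rfl <;> omega
  have hpar : (m - ((j + 1 : ℕ) : ℤ)) % 2 = 0 := by
    push_cast
    omega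
  have hi : |m - n| < (j : ℤ) + 3 := by
    have h1 : |((m - n : ℤ) : ℚ)| < ((j : ℤ) + 3 : ℤ) := by
      have h2 : ((m - n : ℤ) : ℚ) = (r - n) - (r - m) := by
        push_cast
        ring
      rw [h2]
      calc |(r - n) - (r - m)| ≤ |r - n| + |r - m| := abs_sub _ _
        _ ≤ (((j + 1 : ℕ) : ℚ) + 1 / 4) + 1 := add_le_add hr hrm'
        _ < ((j : ℤ) + 3 : ℤ) := by
          push_cast
          linarith
    rw [← Int.cast_abs] at h1
    exact_mod_cast h1
  have hi2 : |m - n| ≤ (j : ℤ) + 1 := by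
    rw [abs_lt] at hi
    rw [abs_le]
    omega
  have hlt : |m - n| < M l := by
    have : ((j : ℤ) + 1) < M l := by exact_mod_cast hj
    omega
  have heps : eps ((n' - a * n) + a * m) = a * eps m := by
    by_cases h0 : m - n = 0
    · have h1 : m = n := by omega
      have h2 : (n' - a * n) + a * m = n' := by
        rw [h1]
        ring
      rw [h2, h1, he]
    · have h1 : m = n + (m - n) := by ring
      have h2 : eps m = eps (ctr l b + (m - n)) := by
        conv_lhs => rw [h1]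
        exact eps_class hn h0 hlt
      rcases ha with rfl | rfl
      · have h3 : (n' - 1 * n) + 1 * m = n' + (m - n) := by ring
        rw [h3, one_mul, eps_class hn' h0 hlt, h2]
      · have h3 : (n' - -1 * n) + -1 * m = n' - (m - n) := by ring
        rw [h3, eps_class_neg (isC_dvd hn') h0 hlt, eps_class hn' h0 hlt, h2]
        ring
  have key := sq_tau (j + 1) ha hn0 hpar hrm' heps (Compress_sign (ctr l b + ((j : ℤ) + 1)))
  have h5 : (n' : ℚ) + a * (r - n) = ((n' - a * n : ℤ) : ℚ) + a * r := by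
    push_cast
    ring
  rw [h5, key]
  push_cast
  ring

theorem fq_tau (l : ℕ) (b : Bool) {n n' a : ℤ} (hn : isC l b n) (hn' : isC l b n')
    (ha : a = 1 ∨ a = -1) (he : eps n' = a * eps n) {j : ℕ} (hj : j < M l) {r : ℚ}
    (hr : |r - n| ≤ j + 1 / 4) :
    fq l b j ((n' : ℚ) + a * (r - n)) = n' + a * (fq l b j r - n) := by
  induction j generalizing r with
  | zero => rfl
  | succ j ih =>
    show (fq l b j * (sq (j + 1)) ^ (- eps (ctr l b + ((j : ℤ) + 1)))) ((n' : ℚ) + a * (r - n)) =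
      n' + a * ((fq l b j * (sq (j + 1)) ^ (- eps (ctr l b + ((j : ℤ) + 1)))) r - n)
    rw [RelIso.mul_apply, RelIso.mul_apply, Compress_tau l b hn hn' ha he hj hr]
    exact ih (by omega) ((Compress_step l b hn hj r).2 hr)

theorem fq_inv_tau (l : ℕ) (b : Bool) {n n' a : ℤ} (hn : isC l b n) (hn' : isC l b n')
    (ha : a = 1 ∨ a = -1) (he : eps n' = a * eps n) {j : ℕ} (hj : j < M l) {r : ℚ}
    (hr : |r - n| ≤ 1 / 4) :
    (fq l b j)⁻¹ ((n' : ℚ) + a * (r - n)) = n' + a * ((fq l b j)⁻¹ r - n) := by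
  have h1 : fq l b j ((fq l b j)⁻¹ r) = r := RelIso.apply_inv_self _ _
  have h2 : |(fq l b j)⁻¹ r - n| ≤ j + 1 / 4 := by
    rw [← fq_iff l b hn hj, h1]
    exact hr
  have h3 := fq_tau l b hn hn' ha he hj h2
  rw [h1] at h3
  rw [← h3]
  exact RelIso.inv_apply_self _ _

end Pool.Agent.LO
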