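import Pool.Agent.LO.PsiT

set_option autoImplicit false

namespace Pool.Agent.LO

/-! inverse words and powers of words -/

/-- inverse word -/
def iw (v : List (Fin 5 × Bool)) : List (Fin 5 × Bool) := (v.map (fun p => (p.1, !p.2))).reverse

theorem lett_not (t : X ≃o X) (p : Fin 5 × Bool) : lett t (p.1, !p.2) = (lett t p)⁻¹ := by
  unfold lett
  cases p.2 <;> simp

theorem ev_iw (t : X ≃o X) (v : List (Fin 5 × Bool)) : ev t (iw v) = (ev t v)⁻¹ := by
  induction v with
  | nil => simp [iw, ev_nil]
  | cons p v ih =>
    have h : iw (p :: v) = iw v ++ [(p.1, !p.2)] := by simp [iw]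
    rw [h, ev_append, ih, ev_cons, ev_cons, ev_nil, mul_inv_rev, mul_one, lett_not]

theorem iw_length (v : List (Fin 5 × Bool)) : (iw v).length = v.length := by simp [iw]

/-- repetition of a word -/
def rep (v : List (Fin 5 × Bool)) : ℕ → List (Fin 5 × Bool)
  | 0 => []
  | k + 1 => v ++ rep v k

theorem rep_length (v : List (Fin 5 × Bool)) (k : ℕ) : (rep v k).length = k * v.length := by
  induction k with
  | zero => simp [rep]
  | succ k ih => simp [rep, ih]; ring

theorem ev_rep (t : X ≃o X) (v : List (Fin 5 × Bool)) (k : ℕ) : ev t (rep v k) = ev t v ^ k := by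
  induction k with
  | zero => simp [rep, ev_nil]
  | succ k ih => rw [rep, ev_append, ih, pow_succ']

end Pool.Agent.LO
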