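/-
Definitions for the solution of MP_4f3965_al (frozen S01417): a finitely generated left-orderable
group in which every element is distorted.   (helper90)
-/
import Mathlib

set_option autoImplicit false

namespace Pool.Agent.LO

open Filter

/-! ## Labels and scales -/

/-- `eps n = 1` if the odd part of `n` is `1 mod 4` (and `eps 0 = 1`), otherwise `eps n = -1`. -/
def eps (n : ℤ) : ℤ :=
  if n = 0 then 1 else if (n / 2 ^ (padicValInt 2 n)) % 4 = 1 then 1 else -1

/-- the basic scale of level `l` -/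
def w (l : ℕ) : ℕ := 2 ^ (10 * l + 1)

/-- spacing of the centres (hosts) of level `l`; `M l = 512 * w l`, `w (l+1) = 2 * M l` -/
def M (l : ℕ) : ℕ := 2 ^ (10 * l + 10)

/-- base centre of the class `b` of level `l` -/
def ctr (l : ℕ) (b : Bool) : ℤ := if b then 0 else M l

/-- `n` is a centre of level `l` and class `b` -/
def isC (l : ℕ) (b : Bool) (n : ℤ) : Prop := (2 * (M l : ℤ)) ∣ n - ctr l b

/-! ## Order automorphisms from functions -/

open Classical in
/-- the automorphism given by a strictly monotone surjection (identity otherwise) -/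
noncomputable def mkIso {α : Type} [LinearOrder α] (f : α → α) : α ≃o α :=
  if h : StrictMono f ∧ Function.Surjective f then
    StrictMono.orderIsoOfSurjective f h.1 h.2 else OrderIso.refl α

/-- `g` clamped between `ψ⁻¹` and `ψ` -/
noncomputable def cl {α : Type} [LinearOrder α] (ψ g : α ≃o α) : α ≃o α :=
  mkIso (fun x => max (min (g x) (ψ x)) (ψ⁻¹ x))

open Classical in
/-- the pointwise (eventually constant) limit of a sequence of automorphisms -/
noncomputable def limAut {α : Type} [LinearOrder α] (a : ℕ → (α ≃o α)) : α ≃o α :=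
  mkIso (fun x => if h : ∃ c, ∀ᶠ m in atTop, a m x = c then h.choose else x)

/-! ## Piecewise linear maps of `ℚ` -/

/-- piecewise linear map through `(-ρ,-ρ), (-a,-a+D), (a-D,a), (ρ,ρ)`, identity outside -/
def bumpF (ρ a D x : ℚ) : ℚ :=
  max x (min (-ρ + (x + ρ) * ((ρ - a + D) / (ρ - a)))
    (min (x + D) (ρ - (ρ - x) * ((ρ - a) / (ρ - a + D)))))

noncomputable def bump (ρ a D : ℚ) : ℚ ≃o ℚ := mkIso (bumpF ρ a D)

/-- acts by `Θ n` around the nearest centre `n ∈ c + mℤ` -/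
noncomputable def pwF (m c : ℤ) (Θ : ℤ → (ℚ ≃o ℚ)) (r : ℚ) : ℚ :=
  ((c + m * ⌊(r - c) / m + 1 / 2⌋ : ℤ) : ℚ) +
    Θ (c + m * ⌊(r - c) / m + 1 / 2⌋) (r - ((c + m * ⌊(r - c) / m + 1 / 2⌋ : ℤ) : ℚ))

noncomputable def pw (m c : ℤ) (Θ : ℤ → (ℚ ≃o ℚ)) : ℚ ≃o ℚ := mkIso (pwF m c Θ)

noncomputable def theta : ℚ ≃o ℚ := bump 1 (3 / 4) 1
noncomputable def delta : ℚ ≃o ℚ := bump (3 / 8) (5 / 16) (9 / 16)

noncomputable def oq : ℚ ≃o ℚ := pw 2 1 (fun m => theta ^ (eps m))
noncomputable def uq : ℚ ≃o ℚ := pw 2 0 (fun m => theta ^ (eps m))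
noncomputable def dq : ℚ ≃o ℚ := pw 1 0 (fun m => delta ^ (eps m))

/-- the auxiliary map of level `l`, supported within `336 w` of the centres of class `b`,
with displacement `24 w` there -/
noncomputable def psi (l : ℕ) (b : Bool) : ℚ ≃o ℚ :=
  pw (2 * (M l : ℤ)) (ctr l b) (fun _ => bump (336 * w l) (320 * w l) (24 * w l))

/-- `s_j` is `o` for odd `j` and `u` for even `j` -/
noncomputable def sq (j : ℕ) : ℚ ≃o ℚ := if j % 2 = 1 then oq else uq

/-- compression maps `s_1^{-ε(c+1)} ∘ ⋯ ∘ s_J^{-ε(c+J)}` -/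
noncomputable def fq (l : ℕ) (b : Bool) : ℕ → (ℚ ≃o ℚ)
  | 0 => 1
  | j + 1 => fq l b j * (sq (j + 1)) ^ (- eps (ctr l b + ((j : ℤ) + 1)))

/-- transport maps `s_{d-1}^{ε(c+d-1)} ∘ ⋯ ∘ s_1^{ε(c+1)} ∘ u` -/
noncomputable def gq (l : ℕ) (b : Bool) : ℕ → (ℚ ≃o ℚ)
  | 0 => 1
  | j + 1 => (sq j) ^ (if j = 0 then 1 else eps (ctr l b + (j : ℤ))) * gq l b j

/-- number of compression letters -/
def JJ (l : ℕ) : ℕ := 336 * w l
/-- transport distance -/
def dd (l : ℕ) : ℕ := 448 * w l

/-- the call place of level `l` for the home `n` -/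
def call (l : ℕ) (n : ℤ) : ℚ := n + eps n * ((dd l : ℚ) - (1 - (1 / 5) ^ (dd l)) / 4)

/-! ## Stacks -/

abbrev Key := ℚ ×ₗ (ℤ ×ₗ ℤ)

def kT (r : ℚ) : Key := toLex (r, toLex (0, 0))
def kF (r : ℚ) (n : ℤ) : Key := toLex (r, toLex (eps n, n))

/-- raw stacks -/
inductive Stk : Type
  | T (r : ℚ) : Stk
  | F (r : ℚ) (n : ℤ) (y : Stk) : Stk

def Stk.key : Stk → Key
  | .T r => kT r
  | .F r n _ => kF r n

def Stk.hd : Stk → ℚ
  | .T r => r
  | .F r _ _ => r

def Stk.toList : Stk → List Key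
  | .T r => [kT r]
  | .F r n y => kF r n :: y.toList

/-- the core of the tile of `n` -/
def core (n : ℤ) : Set Key := Set.Icc (kF ((n : ℚ) - 3 / 8) n) (kF ((n : ℚ) + 3 / 8) n)

/-- well-formedness: the content of a frame with tag `n` lies in the core of `n` -/
def Stk.wf : Stk → Prop
  | .T _ => True
  | .F _ n y => y.key ∈ core n ∧ y.wf

def X : Type := {x : Stk // x.wf}

theorem eps_cases (n : ℤ) : eps n = 1 ∨ eps n = -1 := by
  unfold eps
  split_ifs <;> simp

theorem kF_inj {r s : ℚ} {n m : ℤ} (h : kF r n = kF s m) : r = s ∧ n = m := by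
  unfold kF at h
  have h1 := congrArg (fun k => (ofLex k).1) h
  have h2 := congrArg (fun k => (ofLex (ofLex k).2).2) h
  exact ⟨h1, h2⟩

theorem kT_ne_kF (r s : ℚ) (n : ℤ) : kT r ≠ kF s n := by
  intro h
  unfold kT kF at h
  have h2 : (0 : ℤ) = eps n := congrArg (fun k => (ofLex (ofLex k).2).1) h
  rcases eps_cases n with h3 | h3 <;> omega

theorem kT_inj {r s : ℚ} (h : kT r = kT s) : r = s :=
  congrArg (fun k => (ofLex k).1) h

theorem Stk.toList_inj : Function.Injective Stk.toList := by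
  intro x
  induction x with
  | T r =>
    intro y h
    cases y with
    | T s =>
      simp only [Stk.toList, List.cons.injEq, and_true] at h
      rw [kT_inj h]
    | F s m y =>
      simp only [Stk.toList, List.cons.injEq] at h
      exact absurd h.1 (kT_ne_kF _ _ _)
  | F r n x ih =>
    intro y h
    cases y with
    | T s =>
      simp only [Stk.toList, List.cons.injEq] at h
      exact absurd h.1.symm (kT_ne_kF _ _ _)
    | F s m y =>
      simp only [Stk.toList, List.cons.injEq] at h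
      obtain ⟨h1, h2⟩ := kF_inj h.1
      rw [h1, h2, ih h.2]

noncomputable instance : LinearOrder X :=
  LinearOrder.lift' (fun x : X => x.1.toList)
    (fun _ _ h => Subtype.ext (Stk.toList_inj h))

namespace X

/-- terminal -/
def T (r : ℚ) : X := ⟨Stk.T r, trivial⟩

def key (x : X) : Key := x.1.key
def hd (x : X) : ℚ := x.1.hd

/-- the stack with first frame `(r, n)` and content `y` -/
def F (r : ℚ) (n : ℤ) (y : X) (h : y.key ∈ core n) : X := ⟨Stk.F r n y.1, h, y.2⟩

/-- change the head rational -/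
def setHd : X → ℚ → X
  | ⟨.T _, _⟩, r' => ⟨.T r', trivial⟩
  | ⟨.F _ n y, h⟩, r' => ⟨.F r' n y, h⟩

@[elab_as_elim]
theorem ind {motive : X → Prop} (hT : ∀ r, motive (T r))
    (hF : ∀ r n y h, motive y → motive (F r n y h)) (x : X) : motive x := by
  obtain ⟨x, hx⟩ := x
  induction x with
  | T r => exact hT r
  | F r n y ih => exact hF r n ⟨y, hx.2⟩ hx.1 (ih hx.2)

@[simp] theorem key_T (r : ℚ) : (T r).key = kT r := rfl
@[simp] theorem key_F (r : ℚ) (n : ℤ) (y : X) (h) : (F r n y h).key = kF r n := rfl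
@[simp] theorem hd_T (r : ℚ) : (T r).hd = r := rfl
@[simp] theorem hd_F (r : ℚ) (n : ℤ) (y : X) (h) : (F r n y h).hd = r := rfl
@[simp] theorem setHd_T (r r' : ℚ) : (T r).setHd r' = T r' := rfl
@[simp] theorem setHd_F (r r' : ℚ) (n : ℤ) (y : X) (h) : (F r n y h).setHd r' = F r' n y h := rfl

theorem T_inj {r s : ℚ} (h : T r = T s) : r = s := congrArg hd h

theorem F_inj {r s : ℚ} {n m : ℤ} {y z : X} {hy hz} (h : F r n y hy = F s m z hz) :
    r = s ∧ n = m ∧ y = z := by
  have h1 : Stk.F r n y.1 = Stk.F s m z.1 := congrArg Subtype.val h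
  injection h1 with h1 h2 h3
  exact ⟨h1, h2, Subtype.ext h3⟩

theorem T_ne_F (r s : ℚ) (n : ℤ) (y : X) (h) : T r ≠ F s n y h := by
  intro h1
  have h2 : Stk.T r = Stk.F s n y.1 := congrArg Subtype.val h1
  cases h2

end X

/-! ## The generators -/

/-- move the head by an automorphism of `ℚ` -/
noncomputable def mv (φ : ℚ ≃o ℚ) : X ≃o X := mkIso (fun x => x.setHd (φ x.hd))

open Classical in
/-- the push map, as a function -/
noncomputable def gamF (x : X) : X :=
  if h : x.key ∈ core ⌊x.hd + 1 / 2⌋ then X.F ⌊x.hd + 1 / 2⌋ ⌊x.hd + 1 / 2⌋ x h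
  else if x.key < kF ((⌊x.hd + 1 / 2⌋ : ℤ) - 3 / 8) ⌊x.hd + 1 / 2⌋ then
    x.setHd (4 * x.hd - 3 * (⌊x.hd + 1 / 2⌋ : ℤ) + 3 / 2)
  else x.setHd (4 * x.hd - 3 * (⌊x.hd + 1 / 2⌋ : ℤ) - 3 / 2)

noncomputable def gam : X ≃o X := mkIso gamF

open Classical in
/-- act fibrewise on the contents of the first frame -/
noncomputable def fibF (Q : ℚ → ℤ → (X ≃o X)) : X → X
  | ⟨.T r, _⟩ => X.T r
  | ⟨.F r n y, h⟩ =>
    if h' : (Q r n ⟨y, h.2⟩).key ∈ core n then X.F r n (Q r n ⟨y, h.2⟩) h'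
    else ⟨.F r n y, h⟩

noncomputable def fib (Q : ℚ → ℤ → (X ≃o X)) : X ≃o X := mkIso (fibF Q)

/-- generators: `o, u, γ, d, t` -/
noncomputable def gens (t : X ≃o X) : Fin 5 → (X ≃o X) := ![mv oq, mv uq, gam, mv dq, t]

noncomputable def lett (t : X ≃o X) (p : Fin 5 × Bool) : X ≃o X :=
  if p.2 then gens t p.1 else (gens t p.1)⁻¹

/-- evaluation of a word (the last letter acts first) -/
noncomputable def ev (t : X ≃o X) (v : List (Fin 5 × Bool)) : X ≃o X := (v.map (lett t)).prod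

/-- enumeration of all words, each one infinitely often, with `(wd l).length ≤ l` -/
def wd (l : ℕ) : List (Fin 5 × Bool) :=
  match (Encodable.decode (Nat.unpair l).1 : Option (List (Fin 5 × Bool))) with
  | some v => if v.length ≤ l then v else []
  | none => []

def cost (l : ℕ) : ℕ := 4928 * w l + 20
def kk (l : ℕ) : ℕ := (l + 1) * cost l

/-- the power `W^k` of level `l` -/
noncomputable def V (t : X ≃o X) (l : ℕ) : X ≃o X := (ev t (wd l)) ^ (kk l)

noncomputable def hA (t : X ≃o X) (l : ℕ) : X ≃o X := cl (mv (psi l true)) (V t l)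
noncomputable def hB (t : X ≃o X) (l : ℕ) : X ≃o X :=
  cl (mv (psi l false)) ((hA t l)⁻¹ * V t l)
noncomputable def hh (t : X ≃o X) (l : ℕ) (b : Bool) : X ≃o X := if b then hA t l else hB t l

noncomputable def E (t : X ≃o X) (l : ℕ) (b : Bool) : X ≃o X :=
  mv (fq l b (JJ l)) * hh t l b * (mv (fq l b (JJ l)))⁻¹

noncomputable def PM (t : X ≃o X) (l : ℕ) (b : Bool) (m : ℕ) : X ≃o X :=
  (E t l b * mv dq) ^ m * ((mv dq) ^ m)⁻¹

noncomputable def P (t : X ≃o X) (l : ℕ) (b : Bool) : X ≃o X := limAut (PM t l b)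

open Classical in
/-- the automorphism acting on the content of a frame `(r, n)` -/
noncomputable def Q (t : X ≃o X) (r : ℚ) (n : ℤ) : X ≃o X :=
  if h : ∃ l : ℕ, (M l : ℤ) ∣ n ∧ r = call l n then
    P t h.choose (decide ((2 * (M h.choose : ℤ)) ∣ n)) else 1

noncomputable def Psi (t : X ≃o X) : X ≃o X := fib (Q t)

noncomputable def tt : ℕ → (X ≃o X)
  | 0 => 1
  | m + 1 => Psi (tt m)

/-- the wild generator -/
noncomputable def tinf : X ≃o X := limAut tt

end Pool.Agent.LO
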