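import Pool.Agent.LO.Defs

set_option autoImplicit false

namespace Pool.Agent.LO

/-! Package LO-A: labels and scales -/

theorem eps_zero : eps 0 = 1 := by
  unfold eps
  simp

theorem eps_two_mul (n : ℤ) : eps (2 * n) = eps n := by
  rcases eq_or_ne n 0 with rfl | hn
  · simp
  · have h2 : (2 : ℤ) ≠ 0 := by norm_num
    have hv : padicValInt 2 (2 * n) = padicValInt 2 n + 1 := by
      have : Fact (Nat.Prime 2) := ⟨Nat.prime_two⟩
      rw [padicValInt.mul h2 hn]
      have : padicValInt 2 2 = 1 := by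
        have := padicValInt.self (p := 2) (by norm_num)
        exact_mod_cast this
      rw [this]
      ring
    unfold eps
    rw [if_neg (mul_ne_zero h2 hn), if_neg hn, hv, pow_succ', Int.mul_ediv_mul_of_pos _ _
      (by norm_num : (0 : ℤ) < 2)]

theorem epsA_odd {n : ℤ} (h : n % 2 = 1) : eps n = if n % 4 = 1 then 1 else -1 := by
  have hn : n ≠ 0 := by omega
  have hv : padicValInt 2 n = 0 := by
    apply padicValInt.eq_zero_of_not_dvd
    intro h2
    have : (2 : ℤ) ∣ n := by exact_mod_cast h2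
    omega
  unfold eps
  rw [if_neg hn, hv, pow_zero, Int.ediv_one]

theorem eps_of_mod_one {n : ℤ} (h : n % 4 = 1) : eps n = 1 := by
  rw [epsA_odd (by omega), if_pos h]

theorem eps_of_mod_three {n : ℤ} (h : n % 4 = 3) : eps n = -1 := by
  rw [epsA_odd (by omega), if_neg (by omega)]

theorem eps_mul_self (n : ℤ) : eps n * eps n = 1 := by
  rcases eps_cases n with h | h <;> rw [h] <;> norm_num

theorem eps_pow_mul (e : ℕ) (k : ℤ) : eps (2 ^ e * k) = eps k := by
  induction e with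
  | zero => simp
  | succ e ih => rw [pow_succ', mul_assoc, eps_two_mul, ih]

theorem epsA_exists_odd {n : ℤ} (hn : n ≠ 0) : ∃ (k : ℕ) (m : ℤ), m % 2 = 1 ∧ n = 2 ^ k * m := by
  obtain ⟨N, hN⟩ : ∃ N : ℕ, n.natAbs ≤ N := ⟨_, le_rfl⟩
  induction N generalizing n with
  | zero => omega
  | succ N ih =>
    rcases Int.emod_two_eq_zero_or_one n with h | h
    · obtain ⟨m, rfl⟩ : ∃ m, n = 2 * m := ⟨n / 2, by omega⟩
      obtain ⟨k, m', h1, h2⟩ := ih (n := m) (by omega) (by omega)
      refine ⟨k + 1, m', h1, ?_⟩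
      rw [h2, pow_succ']
      ring
    · exact ⟨0, n, h, by simp⟩

theorem eps_neg {n : ℤ} (h : n ≠ 0) : eps (-n) = - eps n := by
  obtain ⟨k, m, h1, rfl⟩ := epsA_exists_odd h
  rw [← mul_neg, eps_pow_mul, eps_pow_mul]
  rcases (by omega : m % 4 = 1 ∨ m % 4 = 3) with h2 | h2
  · rw [eps_of_mod_one h2, eps_of_mod_three (by omega)]
  · rw [eps_of_mod_three h2, eps_of_mod_one (by omega)]
    norm_num

theorem eps_congr (e : ℕ) {x y : ℤ} (h : (2 ^ (e + 1) : ℤ) ∣ x - y) (hx : ¬ (2 ^ e : ℤ) ∣ x) :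
    eps x = eps y := by
  induction e generalizing x y with
  | zero => exact absurd (one_dvd x) (by rwa [pow_zero] at hx)
  | succ e ih =>
    have h4 : (4 : ℤ) ∣ x - y := by
      refine Dvd.dvd.trans ?_ h
      exact ⟨2 ^ e, by rw [pow_succ, pow_succ]; ring⟩
    rcases Int.emod_two_eq_zero_or_one x with hx2 | hx2
    · obtain ⟨x', rfl⟩ : ∃ m, x = 2 * m := ⟨x / 2, by omega⟩
      obtain ⟨y', rfl⟩ : ∃ m, y = 2 * m := ⟨y / 2, by omega⟩
      rw [eps_two_mul, eps_two_mul]
      apply ih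
      · rw [← mul_sub, pow_succ' _ (e + 1)] at h
        exact (mul_dvd_mul_iff_left (by norm_num : (2 : ℤ) ≠ 0)).mp h
      · intro h5
        apply hx
        rw [pow_succ']
        exact mul_dvd_mul_left 2 h5
    · rw [epsA_odd hx2, epsA_odd (by omega)]
      have : x % 4 = 1 ↔ y % 4 = 1 := by omega
      simp only [this]

theorem eps_reflect (e : ℕ) {n j : ℤ} (hn : (2 ^ e : ℤ) ∣ n) (hj : ¬ (2 ^ e : ℤ) ∣ j) :
    eps (n - j) = - eps (n + j) := by
  have hnd : ¬ (2 ^ e : ℤ) ∣ n + j := by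
    intro h
    exact hj ((Int.dvd_add_right hn).mp h)
  have h0 : n + j ≠ 0 := by
    intro h
    rw [h] at hnd
    exact hnd (dvd_zero _)
  rw [← eps_neg h0]
  symm
  refine eps_congr e ?_ ?_
  · have : -(n + j) - (n - j) = 2 * (- n) := by ring
    rw [this, pow_succ']
    exact mul_dvd_mul_left 2 ((dvd_neg).mpr hn)
  · rwa [dvd_neg]

/-- among four consecutive multiples of `2^e` both labels occur -/
theorem eps_exists (e : ℕ) (k : ℤ) {s : ℤ} (hs : s = 1 ∨ s = -1) :
    ∃ i : ℤ, 0 ≤ i ∧ i < 4 ∧ eps (2 ^ e * (k + i)) = s := by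
  rcases hs with rfl | rfl
  · refine ⟨(1 - k) % 4, by omega, by omega, ?_⟩
    rw [eps_pow_mul]
    exact eps_of_mod_one (by omega)
  · refine ⟨(3 - k) % 4, by omega, by omega, ?_⟩
    rw [eps_pow_mul]
    exact eps_of_mod_three (by omega)

theorem w_pos (l : ℕ) : 0 < w l := by
  unfold w
  positivity

/-- `l + 2 ≤ w l` -/
theorem add_two_le_w (l : ℕ) : l + 2 ≤ w l := by
  unfold w
  have h1 : l + 1 < 2 ^ (l + 1) := Nat.lt_two_pow_self
  have h2 : 2 ^ (l + 1) ≤ 2 ^ (10 * l + 1) := Nat.pow_le_pow_right (by norm_num) (by omega)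
  omega

theorem M_eq (l : ℕ) : M l = 512 * w l := by
  unfold M w
  rw [show 10 * l + 10 = 9 + (10 * l + 1) by ring, pow_add]
  norm_num

theorem w_succ (l : ℕ) : w (l + 1) = 2 * M l := by
  unfold M w
  rw [show 10 * (l + 1) + 1 = 1 + (10 * l + 10) by ring, pow_add]
  norm_num

theorem w_le {l i : ℕ} (h : l ≤ i) : w l ≤ w i := by
  unfold w
  exact Nat.pow_le_pow_right (by norm_num) (by omega)

theorem w_dvd {l i : ℕ} (h : l ≤ i) : w l ∣ w i := by
  unfold w
  exact pow_dvd_pow 2 (by omega)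

theorem M_dvd {l i : ℕ} (h : l ≤ i) : M l ∣ M i := by
  unfold M
  exact pow_dvd_pow 2 (by omega)

theorem two_M_dvd_w {l i : ℕ} (h : l < i) : 2 * M l ∣ w i := by
  rw [← w_succ]
  exact w_dvd h

theorem isC_dvd {l : ℕ} {b : Bool} {n : ℤ} (h : isC l b n) : (M l : ℤ) ∣ n := by
  obtain ⟨k, hk⟩ := h
  cases b with
  | true =>
    simp only [ctr, if_true] at hk
    exact ⟨2 * k, by linarith⟩
  | false =>
    simp only [ctr, Bool.false_eq_true, if_false] at hk
    exact ⟨2 * k + 1, by linarith⟩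

theorem isC_decide {l : ℕ} {n : ℤ} (h : (M l : ℤ) ∣ n) :
    isC l (decide ((2 * (M l : ℤ)) ∣ n)) n := by
  by_cases h2 : (2 * (M l : ℤ)) ∣ n
  · simp only [h2, decide_true]
    simpa [isC, ctr] using h2
  · simp only [h2, decide_false]
    obtain ⟨k, rfl⟩ := h
    rcases Int.emod_two_eq_zero_or_one k with hk | hk
    · obtain ⟨m, rfl⟩ : ∃ m, k = 2 * m := ⟨k / 2, by omega⟩
      exact absurd ⟨m, by ring⟩ h2
    · obtain ⟨m, rfl⟩ : ∃ m, k = 2 * m + 1 := ⟨k / 2, by omega⟩
      refine ⟨m, ?_⟩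
      simp only [ctr, Bool.false_eq_true, if_false]
      ring

theorem epsA_M_pos (l : ℕ) : (0 : ℤ) < M l := by
  have := w_pos l
  rw [M_eq]
  push_cast
  omega

theorem isC_iff_decide {l : ℕ} {b : Bool} {n : ℤ} (h : (M l : ℤ) ∣ n) :
    isC l b n ↔ decide ((2 * (M l : ℤ)) ∣ n) = b := by
  constructor
  · intro h1
    have hM := epsA_M_pos l
    cases b with
    | true =>
      simpa [isC, ctr] using h1
    | false =>
      rw [decide_eq_false_iff_not]
      intro h2
      simp only [isC, ctr, Bool.false_eq_true, if_false] at h1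
      have h3 : (2 * (M l : ℤ)) ∣ M l := by
        have := dvd_sub h2 h1
        rwa [sub_sub_cancel] at this
      have := Int.le_of_dvd hM h3
      omega
  · rintro rfl
    exact isC_decide h

/-- two centres of the same class at distance `< 2 * M l` are equal -/
theorem isC_unique {l : ℕ} {b : Bool} {n n' : ℤ} (h : isC l b n) (h' : isC l b n')
    (hd : |n - n'| < 2 * M l) : n = n' := by
  have h1 : (2 * (M l : ℤ)) ∣ n - n' := by
    have := dvd_sub h h'
    rwa [sub_sub_sub_cancel_right] at this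
  have := Int.eq_zero_of_abs_lt_dvd h1 hd
  omega

/-- centres of opposite classes are at distance at least `M l` -/
theorem isC_far {l : ℕ} {n n' : ℤ} (h : isC l true n) (h' : isC l false n') :
    (M l : ℤ) ≤ |n - n'| := by
  have hM := epsA_M_pos l
  have h1 : (M l : ℤ) ∣ n - n' := dvd_sub (isC_dvd h) (isC_dvd h')
  have h2 : n - n' ≠ 0 := by
    intro h3
    have h4 : n = n' := by omega
    subst h4
    have h5 := (isC_iff_decide (isC_dvd h)).mp h
    have h6 := (isC_iff_decide (isC_dvd h)).mp h'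
    rw [h5] at h6
    exact absurd h6 (by decide)
  by_contra h3
  push Not at h3
  exact h2 (Int.eq_zero_of_abs_lt_dvd h1 h3)

theorem epsA_M_cast (l : ℕ) : (M l : ℤ) = 2 ^ (10 * l + 10) := by
  rw [M]
  push_cast
  rfl

theorem epsA_not_dvd {k j : ℤ} (h0 : j ≠ 0) (hj : |j| < k) : ¬ k ∣ j := fun h =>
  h0 (Int.eq_zero_of_abs_lt_dvd h hj)

theorem eps_class {l : ℕ} {b : Bool} {n j : ℤ} (hn : isC l b n) (h0 : j ≠ 0) (hj : |j| < M l) :
    eps (n + j) = eps (ctr l b + j) := by
  refine eps_congr (10 * l + 10) ?_ ?_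
  · rw [add_sub_add_right_eq_sub, pow_succ', ← epsA_M_cast]
    exact hn
  · rw [← epsA_M_cast]
    intro h
    exact epsA_not_dvd h0 hj ((Int.dvd_add_right (isC_dvd hn)).mp h)

theorem eps_class_neg {l : ℕ} {n j : ℤ} (hn : (M l : ℤ) ∣ n) (h0 : j ≠ 0) (hj : |j| < M l) :
    eps (n - j) = - eps (n + j) := by
  refine eps_reflect (10 * l + 10) ?_ ?_
  · rwa [← epsA_M_cast]
  · rw [← epsA_M_cast]
    exact epsA_not_dvd h0 hj

theorem epsA_w_cast (i : ℕ) : (w i : ℤ) = 2 ^ (10 * i + 1) := by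
  rw [w]
  push_cast
  rfl

theorem eps_tau (i : ℕ) {n0 n : ℤ} (h0 : (2 * (w i : ℤ)) ∣ n0) (hn : |n| < w i) :
    eps (n0 + eps n0 * n) = eps n0 * eps n := by
  rcases eq_or_ne n 0 with rfl | hn0
  · rw [mul_zero, add_zero, eps_zero, mul_one]
  · have hnd := epsA_not_dvd hn0 hn
    have hw : (w i : ℤ) ∣ n0 := (Dvd.intro_left 2 rfl).trans h0
    have h1 : eps (n0 + n) = eps n := by
      refine eps_congr (10 * i + 1) ?_ ?_
      · rw [add_sub_cancel_right, pow_succ', ← epsA_w_cast]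
        exact h0
      · rw [← epsA_w_cast]
        intro h
        exact hnd ((Int.dvd_add_right hw).mp h)
    rcases eps_cases n0 with h | h
    · rw [h, one_mul, one_mul, h1]
    · rw [h, neg_one_mul, neg_one_mul, ← sub_eq_add_neg, ← h1]
      refine eps_reflect (10 * i + 1) ?_ ?_
      · rwa [← epsA_w_cast]
      · rwa [← epsA_w_cast]

end Pool.Agent.LO
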