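import Pool.Agent.LO.Trap

set_option autoImplicit false

namespace Pool.Agent.LO

/-! Package LO-F4: `Eqv` is preserved by `Psi` -/

theorem Eqv_one : Eqv 1 := by
  intro i n0 hn0 x x' hx hb
  rw [inv_one]
  exact ⟨hx, hx⟩

theorem EqvPsi_V_disp {t : X ≃o X} (hT : Trp t) (l : ℕ) (x : X) :
    |(V t l x).hd - x.hd| ≤ 8 * w l := by
  have h := hT l x (kk l)
  rw [zpow_natCast] at h
  exact h

theorem EqvPsi_abs_home {l i : ℕ} (hl : l < i) {n : ℤ} (hn : (M l : ℤ) ∣ n) (hb : |n| < w i) :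
    |n| ≤ (w i : ℤ) - M l := by
  have h1 : (M l : ℤ) ∣ (w i : ℤ) := by
    have h := (Dvd.intro_left 2 rfl : M l ∣ 2 * M l).trans (two_M_dvd_w hl)
    exact_mod_cast h
  have h2 : (M l : ℤ) ∣ |n| := (dvd_abs _ _).mpr hn
  obtain ⟨c, hc⟩ := h1
  obtain ⟨e, he⟩ := h2
  have hM : (0:ℤ) < M l := by
    have : 0 < M l := by unfold M; positivity
    exact_mod_cast this
  rw [hc, he] at hb ⊢
  have h3 : e < c := lt_of_mul_lt_mul_left hb hM.le
  nlinarith

/-- the clamp by `psi` stays within `24 w` -/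
theorem EqvPsi_hA_disp (t : X ≃o X) (l : ℕ) (x : X) :
    |(hA t l x).hd - x.hd| ≤ 24 * w l := by
  rw [hA_apply]
  have h1 : ((mv (psi l true)) x).hd ≤ x.hd + 24 * w l := by
    rw [mv_apply, X.hd_setHd]; exact psi_le l true _
  have h2 : x.hd - 24 * w l ≤ ((mv (psi l true))⁻¹ x).hd := by
    rw [mv_inv_apply, X.hd_setHd]; exact le_psi_inv l true _
  have h3 : ((mv (psi l true))⁻¹ x).hd ≤ x.hd := by
    rw [mv_inv_apply, X.hd_setHd]; exact psi_inv_le l true _
  have hw : (0:ℚ) ≤ 24 * w l := by positivity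
  rw [abs_le]
  constructor
  · have := X.hd_le_of_le (le_max_right (min (V t l x) ((mv (psi l true)) x))
      ((mv (psi l true))⁻¹ x))
    linarith
  · rcases le_total (min (V t l x) ((mv (psi l true)) x)) ((mv (psi l true))⁻¹ x) with h | h
    · rw [max_eq_right h]; linarith
    · rw [max_eq_left h]
      have := X.hd_le_of_le (min_le_right (V t l x) ((mv (psi l true)) x))
      linarith

theorem EqvPsi_hA {t : X ≃o X} (hP : HP t) (hE : Eqv t) {i : ℕ} {n0 : ℤ}
    (hn0 : (2 * (w i : ℤ)) ∣ n0) {x x' : X} (hx : Rho i n0 x x') {l : ℕ} (hl : l < i)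
    (hb : |x.hd| + 8 * w l + l < w i) :
    Rho i n0 (hA t l x) (hA t l x') ∧ Rho i n0 ((hA t l)⁻¹ x) ((hA t l)⁻¹ x') := by
  have hV := Rho_V hP hE hn0 hx hb
  rw [hA_apply, hA_apply, hA_inv_apply, hA_inv_apply]
  exact ⟨Rho_clamp hn0 hx hV.1 hl true, Rho_clamp hn0 hx hV.2 hl true⟩

theorem EqvPsi_hB {t : X ≃o X} (hP : HP t) (hE : Eqv t) {i : ℕ} {n0 : ℤ}
    (hn0 : (2 * (w i : ℤ)) ∣ n0) {x x' : X} (hx : Rho i n0 x x') {l : ℕ} (hl : l < i)
    (hb : |x.hd| + 32 * w l + l < w i) :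
    Rho i n0 (hB t l x) (hB t l x') ∧ Rho i n0 ((hB t l)⁻¹ x) ((hB t l)⁻¹ x') := by
  have hT := Trp_of_Eqv hP hE
  have hw : (0:ℚ) ≤ w l := by positivity
  have hV := Rho_V hP hE hn0 hx (l := l) (by linarith)
  have hd := EqvPsi_V_disp hT l x
  have hd2 : |(V t l x).hd| ≤ |x.hd| + 8 * w l := by
    have := abs_sub_abs_le_abs_sub (V t l x).hd x.hd
    linarith
  have h1 := EqvPsi_hA hP hE hn0 hV.1 hl (by linarith)
  have h2 := EqvPsi_hA hP hE hn0 hx hl (by linarith)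
  have hd3 : |(hA t l x).hd| ≤ |x.hd| + 24 * w l := by
    have := abs_sub_abs_le_abs_sub (hA t l x).hd x.hd
    have := EqvPsi_hA_disp t l x
    linarith
  have h3 := Rho_V hP hE hn0 h2.1 (l := l) (by linarith)
  rw [hB_apply, hB_apply, hB_inv_apply, hB_inv_apply]
  exact ⟨Rho_clamp hn0 hx h1.2 hl false, Rho_clamp hn0 hx h3.2 hl false⟩

theorem EqvPsi_hh {t : X ≃o X} (hP : HP t) (hE : Eqv t) {i : ℕ} {n0 : ℤ}
    (hn0 : (2 * (w i : ℤ)) ∣ n0) {x x' : X} (hx : Rho i n0 x x') {l : ℕ} (hl : l < i) (b : Bool)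
    (hb : |x.hd| + 32 * w l + l < w i) :
    Rho i n0 (hh t l b x) (hh t l b x') ∧ Rho i n0 ((hh t l b)⁻¹ x) ((hh t l b)⁻¹ x') := by
  have hw : (0:ℚ) ≤ w l := by positivity
  cases b with
  | false => exact EqvPsi_hB hP hE hn0 hx hl hb
  | true => exact EqvPsi_hA hP hE hn0 hx hl (by linarith)

theorem EqvPsi_E_inv_def (t : X ≃o X) (l : ℕ) (b : Bool) (x : X) :
    (E t l b)⁻¹ x = mv (fq l b (JJ l)) ((hh t l b)⁻¹ ((mv (fq l b (JJ l)))⁻¹ x)) := by
  have h : (E t l b)⁻¹ = mv (fq l b (JJ l)) * (hh t l b)⁻¹ * (mv (fq l b (JJ l)))⁻¹ := by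
    unfold E; group
  rw [h]; rfl

theorem EqvPsi_E {t : X ≃o X} (hP : HP t) (hE : Eqv t) {i : ℕ} {n0 : ℤ}
    (hn0 : (2 * (w i : ℤ)) ∣ n0) {l : ℕ} (hl : l < i) {b : Bool} {n : ℤ} (hn : |n| < w i)
    (hc : isC l b n) (hc' : isC l b (n0 + eps n0 * n)) {x x' : X}
    (hx : Rho i n0 x x') (hk : x.key ∈ core n) :
    Rho i n0 (E t l b x) (E t l b x') ∧ Rho i n0 ((E t l b)⁻¹ x) ((E t l b)⁻¹ x') := by
  have ha := eps_cases n0
  have he := eps_tau i hn0 hn
  have hhd := Rho_hd hx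
  have hab : |x'.hd - ((n0 + eps n0 * n : ℤ) : ℚ)| = |x.hd - n| := by
    rw [hhd]; push_cast
    rcases ha with h | h <;> rw [h] <;> push_cast
    · congr 1; ring
    · rw [← abs_neg]; congr 1; ring
  have h38 := X.hd_near_of_core hk
  by_cases hq : |x.hd - n| ≤ 1 / 4
  · have hJM : JJ l < M l := by
      rw [M_eq]; unfold JJ
      have := w_pos l
      omega
    have hMl : (M l : ℚ) = 512 * w l := by rw [M_eq]; push_cast; ring
    have hJJ : (JJ l : ℚ) = 336 * w l := by unfold JJ; push_cast; ring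
    have hlw : (l : ℚ) + 2 ≤ w l := by exact_mod_cast add_two_le_w l
    have hnb : |(n : ℚ)| ≤ (w i : ℚ) - M l := by
      have := EqvPsi_abs_home hl (isC_dvd hc) hn
      exact_mod_cast this
    -- the inverse compression
    have e1 : (fq l b (JJ l))⁻¹ x'.hd = n0 + eps n0 * (fq l b (JJ l))⁻¹ x.hd := by
      have h := fq_inv_tau l b hc hc' ha he hJM hq
      have e : x'.hd = ((n0 + eps n0 * n : ℤ) : ℚ) + (eps n0 : ℚ) * (x.hd - n) := by
        rw [hhd]; push_cast; ring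
      rw [e, h]; push_cast; ring
    have hz : Rho i n0 ((mv (fq l b (JJ l)))⁻¹ x) ((mv (fq l b (JJ l)))⁻¹ x') := by
      rw [mv_inv_apply, mv_inv_apply, e1]
      exact Rho_setHd hx _
    have hzb : |((mv (fq l b (JJ l)))⁻¹ x).hd - n| ≤ JJ l + 1 / 4 := by
      rw [mv_inv_apply, X.hd_setHd]
      rw [← fq_iff l b hc hJM]
      have : (fq l b (JJ l)) ((fq l b (JJ l))⁻¹ x.hd) = x.hd :=
        (fq l b (JJ l)).apply_symm_apply x.hd
      rw [this]; exact hq
    -- the final compression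
    have key : ∀ y y' : X, Rho i n0 y y' → |y.hd - n| ≤ JJ l + 1 / 4 →
        Rho i n0 (mv (fq l b (JJ l)) y) (mv (fq l b (JJ l)) y') := by
      intro y y' hy hyb
      have e2 : (fq l b (JJ l)) y'.hd = n0 + eps n0 * (fq l b (JJ l)) y.hd := by
        have h := fq_tau l b hc hc' ha he hJM hyb
        have e : y'.hd = ((n0 + eps n0 * n : ℤ) : ℚ) + (eps n0 : ℚ) * (y.hd - n) := by
          rw [Rho_hd hy]; push_cast; ring
        rw [e, h]; push_cast; ring
      rw [mv_apply, mv_apply, e2]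
      exact Rho_setHd hy _
    rw [EqvPsi_E_inv_def, EqvPsi_E_inv_def]
    have hEd : ∀ y : X, E t l b y = mv (fq l b (JJ l)) (hh t l b ((mv (fq l b (JJ l)))⁻¹ y)) :=
      fun y => rfl
    rw [hEd, hEd]
    have hzd : |((mv (fq l b (JJ l)))⁻¹ x).hd| + 32 * w l + l < w i := by
      have h1 : |((mv (fq l b (JJ l)))⁻¹ x).hd| ≤ |(n : ℚ)| + (JJ l + 1 / 4) := by
        have := abs_sub_abs_le_abs_sub ((mv (fq l b (JJ l)))⁻¹ x).hd (n : ℚ)
        linarith
      linarith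
    have hz2 := EqvPsi_hh hP hE hn0 hz hl b hzd
    have hz3 := hh_near t l b hc hzb
    exact ⟨key _ _ hz2.1 hz3.1, key _ _ hz2.2 hz3.2⟩
  · have far : ∀ (m : ℤ) (y : ℚ), |y - m| ≤ 3 / 8 → 1 / 4 < |y - m| → ∀ m' : ℤ,
        1 / 4 < |y - m'| := by
      intro m y h1 h2 m'
      by_cases hm : m' = m
      · rw [hm]; exact h2
      · have h3 : (1 : ℚ) ≤ |(m' : ℚ) - m| := by
          have : 1 ≤ |m' - m| := Int.one_le_abs (sub_ne_zero.mpr hm)
          exact_mod_cast this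
        have h4 : |(m' : ℚ) - m| ≤ |y - m| + |y - m'| := by
          have : (m' : ℚ) - m = (y - m) - (y - m') := by ring
          rw [this]; exact abs_sub _ _
        linarith
    have hq' : 1 / 4 < |x.hd - n| := not_le.mp hq
    have h1 := E_fix t l b (x := x) (fun m _ => far n x.hd h38 hq' m)
    have h2 := E_fix t l b (x := x')
      (fun m _ => far (n0 + eps n0 * n) x'.hd (by rw [hab]; exact h38) (by rw [hab]; exact hq') m)
    rw [h1.1, h1.2, h2.1, h2.2]
    exact ⟨hx, hx⟩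

/-- the programs commute with the local symmetries -/
theorem EqvPsi_P {t : X ≃o X} (hP : HP t) (hE : Eqv t) {i : ℕ} {n0 : ℤ}
    (hn0 : (2 * (w i : ℤ)) ∣ n0) {l : ℕ} (hl : l < i) {b : Bool} {n : ℤ} (hn : |n| < w i)
    (hc : isC l b n) (hc' : isC l b (n0 + eps n0 * n)) {x x' : X}
    (hx : Rho i n0 x x') (hk : x.key ∈ core n) :
    Rho i n0 (P t l b x) (P t l b x') ∧ Rho i n0 ((P t l b)⁻¹ x) ((P t l b)⁻¹ x') := by
  have hMl : (M l : ℚ) = 512 * w l := by rw [M_eq]; push_cast; ring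
  have hlw : (l : ℚ) + 2 ≤ w l := by exact_mod_cast add_two_le_w l
  have hl0 : (0 : ℚ) ≤ l := by positivity
  have hnb : |(n : ℚ)| ≤ (w i : ℚ) - M l := by
    have := EqvPsi_abs_home hl (isC_dvd hc) hn
    exact_mod_cast this
  -- good maps
  let G : (X ≃o X) → Prop := fun g => ∀ y y' : X, Rho i n0 y y' → y.key ∈ core n →
    Rho i n0 (g y) (g y') ∧ (g y).key ∈ core n
  have Gmul : ∀ g g' : X ≃o X, G g → G g' → G (g * g') := by
    intro g g' h h' y y' hy hyk
    have h1 := h' y y' hy hyk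
    exact h _ _ h1.1 h1.2
  have Gone : G 1 := fun y y' hy hyk => ⟨hy, hyk⟩
  have Gpow : ∀ (g : X ≃o X), G g → ∀ m : ℕ, G (g ^ m) := by
    intro g h m
    induction m with
    | zero => rw [pow_zero]; exact Gone
    | succ m ih => rw [pow_succ]; exact Gmul _ _ ih h
  have GE : G (E t l b) := fun y y' hy hyk =>
    ⟨(EqvPsi_E hP hE hn0 hl hn hc hc' hy hyk).1, (E_core t l b hyk).1⟩
  have GE' : G (E t l b)⁻¹ := fun y y' hy hyk =>
    ⟨(EqvPsi_E hP hE hn0 hl hn hc hc' hy hyk).2, (E_core t l b hyk).2⟩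
  have hbd : ∀ y : X, y.key ∈ core n → |y.hd| < w i - 1 := by
    intro y hy
    have h1 := X.hd_near_of_core hy
    have h2 := abs_sub_abs_le_abs_sub y.hd (n : ℚ)
    linarith
  have Gd : G (mv dq) := fun y y' hy hyk => by
    have h := Rho_dq hn0 hy (hbd y hyk) (s := 1) (Or.inl rfl)
    rw [zpow_one] at h
    exact ⟨h, (dq_core hyk).1⟩
  have Gd' : G (mv dq)⁻¹ := fun y y' hy hyk => by
    have h := Rho_dq hn0 hy (hbd y hyk) (s := -1) (Or.inr rfl)
    rw [zpow_neg_one] at h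
    exact ⟨h, (dq_core hyk).2⟩
  have GPM : ∀ m, G (PM t l b m) := by
    intro m
    have h1 : PM t l b m = (E t l b * mv dq) ^ m * ((mv dq)⁻¹) ^ m := by
      unfold PM; rw [inv_pow]
    rw [h1]
    exact Gmul _ _ (Gpow _ (Gmul _ _ GE Gd) m) (Gpow _ Gd' m)
  have GPM' : ∀ m, G (PM t l b m)⁻¹ := by
    intro m
    have h1 : (PM t l b m)⁻¹ = (mv dq) ^ m * ((mv dq)⁻¹ * (E t l b)⁻¹) ^ m := by
      unfold PM
      rw [mul_inv_rev, inv_inv, ← inv_pow, mul_inv_rev]
    rw [h1]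
    exact Gmul _ _ (Gpow _ Gd m) (Gpow _ (Gmul _ _ Gd' GE') m)
  obtain ⟨m1, hm1⟩ := PM_spec l b x.hd
  obtain ⟨m2, hm2⟩ := PM_spec l b x'.hd
  have h1 := hm1 (max m1 m2) (le_max_left _ _) t x rfl
  have h2 := hm2 (max m1 m2) (le_max_right _ _) t x' rfl
  rw [h1.1, h1.2, h2.1, h2.2]
  exact ⟨(GPM _ x x' hx hk).1, (GPM' _ x x' hx hk).1⟩

/-- the place is not close to its home at high level -/
theorem EqvPsi_level {i l : ℕ} {n m : ℤ} {r : ℚ} (hm : |(n : ℚ)| < w i) (hr : |r| < w i)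
    (h : |call l m - m| = |r - n|) : l < i := by
  by_contra hl
  have hl' : i ≤ l := not_lt.mp hl
  have h1 : (w i : ℚ) ≤ w l := by exact_mod_cast w_le hl'
  have h2 := (call_dist l m).1
  have h3 : (dd l : ℚ) = 448 * w l := by unfold dd; push_cast; ring
  have h4 : |r - n| ≤ |r| + |(n : ℚ)| := abs_sub _ _
  have h5 : (1 : ℚ) ≤ w i := by exact_mod_cast w_pos i
  linarith

theorem Eqv_Psi {t : X ≃o X} (hP : HP t) (hE : Eqv t) : Eqv (Psi t) := by
  intro i n0 hn0 x x' hx hb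
  cases hx with
  | T r =>
    rw [Psi_T, Psi_T, Psi_inv_T, Psi_inv_T]
    exact ⟨Rho.T r, Rho.T r⟩
  | F r n y y' h h' hn hy =>
    rw [X.hd_F] at hb
    have ha := eps_cases n0
    have he := eps_tau i hn0 hn
    have hnQ : |(n : ℚ)| < w i := by exact_mod_cast hn
    have hrQ : |r| < w i := by linarith
    rw [Psi_F, Psi_F, Psi_inv_F, Psi_inv_F]
    have main : Rho i n0 (Q t r n y) (Q t (n0 + eps n0 * r) (n0 + eps n0 * n) y') ∧
        Rho i n0 ((Q t r n)⁻¹ y) ((Q t (n0 + eps n0 * r) (n0 + eps n0 * n))⁻¹ y') := by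
      by_cases hcall : ∃ l : ℕ, (M l : ℤ) ∣ n ∧ r = call l n
      · obtain ⟨l, hMn, hrl⟩ := hcall
        have hl : l < i := EqvPsi_level (m := n) hnQ hrQ (by rw [hrl])
        have h2M : (2 * (M l : ℤ)) ∣ n0 := by
          have h1 : ((2 * M l : ℕ) : ℤ) ∣ ((w i : ℕ) : ℤ) := by
            exact_mod_cast two_M_dvd_w hl
          have h2 : ((w i : ℕ) : ℤ) ∣ 2 * (w i : ℤ) := Dvd.intro_left 2 rfl
          have h3 := (h1.trans h2).trans hn0
          push_cast at h3
          exact h3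
        have hM2 : (M l : ℤ) ∣ 2 * (M l : ℤ) := Dvd.intro_left 2 rfl
        have hMn' : (M l : ℤ) ∣ n0 + eps n0 * n :=
          dvd_add (hM2.trans h2M) (Dvd.dvd.mul_left hMn _)
        have hcl : (n0 : ℚ) + eps n0 * r = call l (n0 + eps n0 * n) := by
          rw [call_tau l he ha, hrl]
        have hcl' : ((2 * (M l : ℤ)) ∣ n0 + eps n0 * n) ↔ ((2 * (M l : ℤ)) ∣ n) := by
          rw [Int.dvd_add_right h2M] 
          rcases ha with h | h <;> rw [h]
          · rw [one_mul]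
          · rw [neg_one_mul, dvd_neg]
        have hdec : decide ((2 * (M l : ℤ)) ∣ n0 + eps n0 * n) = decide ((2 * (M l : ℤ)) ∣ n) := by
          simp only [hcl']
        have hQ : Q t r n = P t l (decide ((2 * (M l : ℤ)) ∣ n)) := by
          rw [hrl]; exact Q_call t l hMn
        have hQ' : Q t (n0 + eps n0 * r) (n0 + eps n0 * n) =
            P t l (decide ((2 * (M l : ℤ)) ∣ n)) := by
          rw [hcl, Q_call t l hMn', hdec]
        rw [hQ, hQ']
        have hc := isC_decide hMn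
        have hc' := isC_decide hMn'
        rw [hdec] at hc'
        exact EqvPsi_P hP hE hn0 hl hn hc hc' hy h
      · have hcall' : ¬ ∃ l : ℕ, (M l : ℤ) ∣ (n0 + eps n0 * n) ∧
            (n0 + eps n0 * r : ℚ) = call l (n0 + eps n0 * n) := by
          rintro ⟨l, hMn', hrl'⟩
          have hab : |(n0 + eps n0 * r : ℚ) - ((n0 + eps n0 * n : ℤ) : ℚ)| = |r - n| := by
            push_cast
            rcases ha with h | h <;> rw [h] <;> push_cast
            · congr 1; ring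
            · rw [← abs_neg]; congr 1; ring
          have hl : l < i := EqvPsi_level (m := n0 + eps n0 * n) hnQ hrQ (by
            rw [← hab, hrl'])
          have h2M : (2 * (M l : ℤ)) ∣ n0 := by
            have h1 : ((2 * M l : ℕ) : ℤ) ∣ ((w i : ℕ) : ℤ) := by
              exact_mod_cast two_M_dvd_w hl
            have h2 : ((w i : ℕ) : ℤ) ∣ 2 * (w i : ℤ) := Dvd.intro_left 2 rfl
            have h3 := (h1.trans h2).trans hn0
            push_cast at h3
            exact h3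
          have hM2 : (M l : ℤ) ∣ 2 * (M l : ℤ) := Dvd.intro_left 2 rfl
          have hMn : (M l : ℤ) ∣ n := by
            rw [Int.dvd_add_right (hM2.trans h2M)] at hMn'
            rcases ha with h | h <;> rw [h] at hMn'
            · rwa [one_mul] at hMn'
            · rwa [neg_one_mul, dvd_neg] at hMn'
          refine hcall ⟨l, hMn, ?_⟩
          rw [call_tau l he ha] at hrl'
          have h3 : (eps n0 : ℚ) * r = eps n0 * call l n := by linarith
          rcases ha with h | h <;> rw [h] at h3 <;> push_cast at h3 <;> linarith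
        rw [Q_not t hcall, Q_not t hcall', inv_one]
        exact ⟨hy, hy⟩
    exact ⟨Rho.F r n _ _ _ _ hn main.1, Rho.F r n _ _ _ _ hn main.2⟩

theorem Eqv_tt (m : ℕ) : Eqv (tt m) := by
  induction m with
  | zero => exact Eqv_one
  | succ m ih => exact Eqv_Psi (HP_tt m) ih

theorem Trp_tt (m : ℕ) : Trp (tt m) := Trp_of_Eqv (HP_tt m) (Eqv_tt m)

end Pool.Agent.LO
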