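import Pool.Agent.LO.Flow

set_option autoImplicit false

namespace Pool.Agent.LO

/-! Package LO-B5: iterates of `dq` -/

theorem Escape_par : Par (3 / 8) (5 / 16) (9 / 16) := by
  unfold Par
  norm_num

theorem Escape_le_delta (x : ℚ) : x ≤ delta x := le_bump Escape_par x

theorem Escape_right {x : ℚ} (h1 : -(1 / 4) ≤ x) (h2 : x ≤ 3 / 8) :
    delta x = 3 / 8 - (3 / 8 - x) / 10 := by
  unfold delta
  rw [bump_right Escape_par (by linarith) h2]
  ring

theorem Escape_left {x : ℚ} (h1 : -(3 / 8) ≤ x) (h2 : x ≤ -(5 / 16)) :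
    delta x = -(3 / 8) + (x + 3 / 8) * 10 := by
  unfold delta
  rw [bump_left Escape_par h1 h2]
  ring

theorem Escape_fix_r : delta (3 / 8) = 3 / 8 := by
  rw [Escape_right (by norm_num) le_rfl]
  norm_num

theorem Escape_fix_l : delta (-(3 / 8)) = -(3 / 8) := by
  rw [Escape_left le_rfl (by norm_num)]
  norm_num

theorem Escape_fix_zpow {α : Type} [LinearOrder α] (f : α ≃o α) {x : α} (h : f x = x) (k : ℤ) :
    (f ^ k) x = x := by
  have hn : ∀ n : ℕ, (f ^ n) x = x := by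
    intro n
    induction n with
    | zero => rfl
    | succ n ih =>
      rw [pow_succ]
      change (f ^ n) (f x) = x
      rw [h, ih]
  have hinv : ∀ (g : α ≃o α), g x = x → g⁻¹ x = x := by
    intro g hg
    change g.symm x = x
    rw [OrderIso.symm_apply_eq, hg]
  rcases Int.eq_nat_or_neg k with ⟨n, rfl | rfl⟩
  · rw [zpow_natCast]
    exact hn n
  · rw [zpow_neg, zpow_natCast]
    exact hinv _ (hn n)

theorem Escape_zpow_range (k : ℤ) {x : ℚ} (hx : |x| < 3 / 8) : |(delta ^ k) x| < 3 / 8 := by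
  obtain ⟨h1, h2⟩ := abs_lt.mp hx
  have h3 := (delta ^ k).strictMono h1
  have h4 := (delta ^ k).strictMono h2
  rw [Escape_fix_zpow _ Escape_fix_l] at h3
  rw [Escape_fix_zpow _ Escape_fix_r] at h4
  exact abs_lt.mpr ⟨h3, h4⟩

theorem Escape_le_pow (x : ℚ) (m : ℕ) : x ≤ (delta ^ m) x := by
  induction m with
  | zero => exact le_rfl
  | succ m ih =>
    rw [pow_succ']
    exact ih.trans (Escape_le_delta _)

theorem Escape_mono {x : ℚ} {m n : ℕ} (h : m ≤ n) : (delta ^ m) x ≤ (delta ^ n) x := by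
  obtain ⟨k, rfl⟩ := Nat.exists_eq_add_of_le h
  rw [Nat.add_comm, pow_add]
  exact Escape_le_pow _ k

theorem Escape_out (k : ℕ) {z : ℚ} (h : -(3 / 8) + 1 / (16 * 10 ^ k) ≤ z) :
    1 / 4 < (delta ^ (k + 2)) z := by
  induction k generalizing z with
  | zero =>
    have h1 : -(5 / 16) ≤ z := by
      norm_num at h
      linarith
    have e1 : delta (-(5 / 16)) = 1 / 4 := by
      rw [Escape_left (by norm_num) le_rfl]
      norm_num
    have e2 : delta (1 / 4) = 29 / 80 := by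
      rw [Escape_right (by norm_num) (by norm_num)]
      norm_num
    have h2 : 1 / 4 ≤ delta z := by
      rw [← e1]
      exact delta.monotone h1
    have h3 : 29 / 80 ≤ delta (delta z) := by
      rw [← e2]
      exact delta.monotone h2
    change 1 / 4 < (delta ^ 2) z
    rw [pow_two]
    change 1 / 4 < delta (delta z)
    linarith
  | succ k ih =>
    have h10 : (1 : ℚ) ≤ 10 ^ k := one_le_pow₀ (by norm_num)
    have hle : (1 : ℚ) / (16 * 10 ^ k) ≤ 1 / 16 := by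
      apply one_div_le_one_div_of_le (by norm_num)
      linarith
    have h1 : -(3 / 8) + 1 / (16 * 10 ^ k) ≤ delta z := by
      rcases le_total z (-(5 / 16)) with h2 | h2
      · have h0 : (0 : ℚ) ≤ 1 / (16 * 10 ^ (k + 1)) := by positivity
        rw [Escape_left (by linarith) h2]
        have h3 : (1 : ℚ) / (16 * 10 ^ (k + 1)) * 10 = 1 / (16 * 10 ^ k) := by
          rw [pow_succ]
          field_simp
        have h4 : (1 : ℚ) / (16 * 10 ^ (k + 1)) * 10 ≤ (z + 3 / 8) * 10 := by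
          apply mul_le_mul_of_nonneg_right _ (by norm_num)
          linarith
        linarith
      · have := Escape_le_delta z
        linarith
    have := ih h1
    rw [show k + 1 + 2 = (k + 2) + 1 by ring, pow_succ]
    exact this

theorem Escape_exists {z : ℚ} (h : -(3 / 8) < z) :
    ∃ m0 : ℕ, ∀ m, m0 ≤ m → 1 / 4 < (delta ^ m) z := by
  obtain ⟨k, hk⟩ : ∃ k : ℕ, 1 / (16 * (z + 3 / 8)) < (10 : ℚ) ^ k :=
    pow_unbounded_of_one_lt _ (by norm_num)
  have hz : 0 < z + 3 / 8 := by linarith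
  refine ⟨k + 2, fun m hm => lt_of_lt_of_le (Escape_out k ?_) (Escape_mono hm)⟩
  have h1 : 1 / (16 * 10 ^ k) ≤ z + 3 / 8 := by
    rw [div_lt_iff₀ (by positivity)] at hk
    rw [div_le_iff₀ (by positivity)]
    nlinarith
  linarith

theorem Escape_neg_pow (m : ℕ) (x : ℚ) : ((delta⁻¹) ^ m) x = - (delta ^ m) (-x) := by
  induction m with
  | zero =>
    change x = - - x
    ring
  | succ m ih =>
    rw [pow_succ', pow_succ']
    change delta⁻¹ (((delta⁻¹) ^ m) x) = - delta ((delta ^ m) (-x))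
    rw [ih]
    have h := delta_neg (-(delta ^ m) (-x))
    rw [neg_neg] at h
    rw [h, neg_neg]

/-- iterates of `dq` inside a tile -/
theorem Escape_iter {n : ℤ} {r : ℚ} (hr : |r - n| < 3 / 8) {s : ℤ} (hs : s = 1 ∨ s = -1)
    (m : ℕ) : ((dq ^ s) ^ m) r = n + ((delta ^ (s * eps n)) ^ m) (r - n) := by
  induction m with
  | zero =>
    change r = n + (r - n)
    ring
  | succ m ih =>
    rw [pow_succ', pow_succ']
    change (dq ^ s) (((dq ^ s) ^ m) r) = n + (delta ^ (s * eps n)) (((delta ^ (s * eps n)) ^ m) (r - n))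
    rw [ih]
    have h1 : |((delta ^ (s * eps n)) ^ m) (r - n)| < 3 / 8 := by
      rw [← zpow_natCast, ← zpow_mul]
      exact Escape_zpow_range _ hr
    have e : (n : ℚ) + ((delta ^ (s * eps n)) ^ m) (r - n) - n =
      ((delta ^ (s * eps n)) ^ m) (r - n) := by ring
    rw [dq_near (n := n) (by rw [e]; linarith) hs, e]

theorem dq_fix {r : ℚ} {n : ℤ} (h1 : 3 / 8 ≤ |r - n|) (h2 : |r - n| ≤ 1 / 2) {s : ℤ}
    (hs : s = 1 ∨ s = -1) : (dq ^ s) r = r := by
  rw [dq_near h2 hs, delta_zpow_of_abs_ge _ h1]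
  ring

theorem dq_tile {r : ℚ} {n : ℤ} (hr : |r - n| < 3 / 8) {s : ℤ} (hs : s = 1 ∨ s = -1) :
    |(dq ^ s) r - n| < 3 / 8 := by
  rw [dq_near (n := n) (by linarith) hs]
  have e : (n : ℚ) + (delta ^ (s * eps n)) (r - n) - n = (delta ^ (s * eps n)) (r - n) := by ring
  rw [e]
  exact Escape_zpow_range _ hr

theorem Escape_far {x : ℚ} {n : ℤ} (h1 : 1 / 4 < |x - n|) (h2 : |x - n| ≤ 1 / 2) (n' : ℤ) :
    1 / 4 < |x - n'| := by
  by_cases hn : n' = n
  · rw [hn]
    exact h1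
  · have h3 : (1 : ℚ) ≤ |(n : ℚ) - n'| := by
      have h4 : 1 ≤ |n - n'| := Int.one_le_abs (by omega)
      have h5 : (1 : ℚ) ≤ ((|n - n'| : ℤ) : ℚ) := by exact_mod_cast h4
      rwa [Int.cast_abs, Int.cast_sub] at h5
    have h4 : |(n : ℚ) - n'| ≤ |x - n'| + |x - n| := by
      have : (n : ℚ) - n' = (x - n') - (x - n) := by ring
      rw [this]
      exact abs_sub _ _
    linarith

theorem Escape_abs_pow {n : ℤ} {r : ℚ} (hr : |r - n| < 3 / 8) {s : ℤ} (hs : s = 1 ∨ s = -1)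
    (m : ℕ) : |((dq ^ s) ^ m) r - n| = |(delta ^ m) (s * eps n * (r - n))| := by
  rw [Escape_iter hr hs]
  have e : (n : ℚ) + ((delta ^ (s * eps n)) ^ m) (r - n) - n =
    ((delta ^ (s * eps n)) ^ m) (r - n) := by ring
  rw [e]
  have h1 : s * eps n = 1 ∨ s * eps n = -1 := by
    rcases hs with rfl | rfl <;> rcases eps_cases n with h | h <;> simp [h]
  have h2 : ((s : ℚ) * (eps n : ℚ)) = ((s * eps n : ℤ) : ℚ) := by push_cast; rfl
  rw [h2]
  rcases h1 with h1 | h1
  · rw [h1, zpow_one]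
    simp
  · rw [h1, zpow_neg_one, Escape_neg_pow, abs_neg]
    congr 2
    push_cast
    ring

theorem Escape_abs_le {n : ℤ} {r : ℚ} (hr : |r - n| < 3 / 8) {s : ℤ} (hs : s = 1 ∨ s = -1)
    (m : ℕ) : |((dq ^ s) ^ m) r - n| < 3 / 8 := by
  rw [Escape_iter hr hs]
  have e : (n : ℚ) + ((delta ^ (s * eps n)) ^ m) (r - n) - n =
    ((delta ^ (s * eps n)) ^ m) (r - n) := by ring
  rw [e, ← zpow_natCast, ← zpow_mul]
  exact Escape_zpow_range _ hr

theorem Escape_sgn {n : ℤ} {s : ℤ} (hs : s = 1 ∨ s = -1) :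
    ((s : ℚ) * eps n = 1) ∨ ((s : ℚ) * eps n = -1) := by
  rcases hs with rfl | rfl <;> rcases eps_cases n with h | h <;> simp [h]

theorem dq_escape (r : ℚ) :
    ∃ m0 : ℕ, ∀ m, m0 ≤ m → ∀ n : ℤ, 1 / 4 < |((dq ^ m)⁻¹ : ℚ ≃o ℚ) r - n| := by
  obtain ⟨n0, -, hn0⟩ := exists_center (m := 1) one_pos 0 r
  norm_num at hn0
  have hinv : ∀ m : ℕ, (dq ^ m)⁻¹ = (dq ^ (-1 : ℤ)) ^ m := by
    intro m
    rw [zpow_neg_one, inv_pow]
  rcases le_or_gt (3 / 8) |r - n0| with h | h
  · refine ⟨0, fun m _ n => ?_⟩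
    have h1 : (dq ^ (-1 : ℤ)) r = r := dq_fix h hn0 (Or.inr rfl)
    have h2 : ((dq ^ (-1 : ℤ)) ^ m) r = r := by
      have := Escape_fix_zpow (dq ^ (-1 : ℤ)) h1 m
      rwa [zpow_natCast] at this
    rw [hinv, h2]
    exact Escape_far (n := n0) (by linarith) hn0 n
  · have hz : -(3 / 8) < (((-1 : ℤ) : ℚ) * eps n0) * (r - n0) := by
      obtain ⟨h1, h2⟩ := abs_lt.mp h
      rcases Escape_sgn (n := n0) (s := -1) (Or.inr rfl) with h3 | h3 <;> rw [h3] <;> linarith
    obtain ⟨m0, hm0⟩ := Escape_exists hz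
    refine ⟨m0, fun m hm n => ?_⟩
    rw [hinv]
    have h1 := Escape_abs_pow h (s := -1) (Or.inr rfl) m
    have h2 := hm0 m hm
    refine Escape_far (n := n0) ?_ ?_ n
    · rw [h1]
      exact lt_of_lt_of_le h2 (le_abs_self _)
    · have := Escape_abs_le h (s := -1) (Or.inr rfl) m
      linarith

theorem dq_disj {r : ℚ} {n : ℤ} (hr : |r - n| ≤ 1 / 4) {m : ℕ} (hm : 1 ≤ m) (n' : ℤ) :
    1 / 4 < |(dq ^ m) r - n'| := by
  have hr' : |r - n| < 3 / 8 := by linarith
  have e : dq ^ m = (dq ^ (1 : ℤ)) ^ m := by rw [zpow_one]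
  rw [e]
  have hz : -(1 / 4) ≤ (((1 : ℤ) : ℚ) * eps n) * (r - n) := by
    obtain ⟨h1, h2⟩ := abs_le.mp hr
    rcases Escape_sgn (n := n) (s := 1) (Or.inl rfl) with h3 | h3 <;> rw [h3] <;> linarith
  have h1 := Escape_abs_pow hr' (s := 1) (Or.inl rfl) m
  have h2 : 5 / 16 ≤ (delta ^ m) ((((1 : ℤ) : ℚ) * eps n) * (r - n)) := by
    have e1 : delta (-(1 / 4)) = 5 / 16 := by
      rw [Escape_right le_rfl (by norm_num)]
      norm_num
    have h3 : 5 / 16 ≤ delta ((((1 : ℤ) : ℚ) * eps n) * (r - n)) := by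
      rw [← e1]
      exact delta.monotone hz
    have h4 := Escape_mono (x := (((1 : ℤ) : ℚ) * eps n) * (r - n)) hm
    rw [pow_one] at h4
    exact h3.trans h4
  refine Escape_far (n := n) ?_ ?_ n'
  · rw [h1]
    exact lt_of_lt_of_le (by linarith) (le_abs_self _)
  · have := Escape_abs_le hr' (s := 1) (Or.inl rfl) m
    linarith

end Pool.Agent.LO
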