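import Pool.Agent.LO.Stacks

set_option autoImplicit false

namespace Pool.Agent.LO

/-! Package LO-C3: fibrewise automorphisms -/

/-- all `Q r n` and their inverses preserve the core of `n` -/
def Pres (Q : ℚ → ℤ → (X ≃o X)) : Prop :=
  ∀ r n, ∀ y : X, y.key ∈ core n → (Q r n y).key ∈ core n ∧ ((Q r n)⁻¹ y).key ∈ core n

theorem fib_aux_T (Q : ℚ → ℤ → (X ≃o X)) (r : ℚ) : fibF Q (X.T r) = X.T r := rfl

theorem fib_aux_F {Q : ℚ → ℤ → (X ≃o X)} (hQ : Pres Q) (r : ℚ) (n : ℤ) (y : X)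
    (h : y.key ∈ core n) : fibF Q (X.F r n y h) = X.F r n (Q r n y) (hQ r n y h).1 :=
  dif_pos (hQ r n y h).1

theorem fib_aux_key {Q : ℚ → ℤ → (X ≃o X)} (hQ : Pres Q) (x : X) :
    (fibF Q x).key = x.key := by
  induction x using X.ind with
  | hT r => rfl
  | hF r n y h _ => rw [fib_aux_F hQ]; rfl

theorem fib_aux_mono {Q : ℚ → ℤ → (X ≃o X)} (hQ : Pres Q) : StrictMono (fibF Q) := by
  intro x y hxy
  rcases X.lt_cases hxy with h | ⟨r, n, a, b, ha, hb, rfl, rfl, hab⟩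
  · apply X.lt_of_key_lt
    rw [fib_aux_key hQ, fib_aux_key hQ]
    exact h
  · rw [fib_aux_F hQ, fib_aux_F hQ]
    exact X.F_lt_F_iff.2 ((Q r n).strictMono hab)

theorem fib_aux_surj {Q : ℚ → ℤ → (X ≃o X)} (hQ : Pres Q) :
    Function.Surjective (fibF Q) := by
  intro x
  induction x using X.ind with
  | hT r => exact ⟨X.T r, rfl⟩
  | hF r n y h _ =>
    refine ⟨X.F r n ((Q r n)⁻¹ y) (hQ r n y h).2, ?_⟩
    rw [fib_aux_F hQ]
    congr 1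
    exact (Q r n).apply_symm_apply y

theorem fib_aux_apply {Q : ℚ → ℤ → (X ≃o X)} (hQ : Pres Q) (x : X) : fib Q x = fibF Q x :=
  mkIso_apply (fib_aux_mono hQ) (fib_aux_surj hQ) x

theorem fib_T {Q : ℚ → ℤ → (X ≃o X)} (hQ : Pres Q) (r : ℚ) : fib Q (X.T r) = X.T r := by
  rw [fib_aux_apply hQ, fib_aux_T]

theorem fib_F {Q : ℚ → ℤ → (X ≃o X)} (hQ : Pres Q) (r : ℚ) (n : ℤ) (y : X)
    (h : y.key ∈ core n) : fib Q (X.F r n y h) = X.F r n (Q r n y) (hQ r n y h).1 := by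
  rw [fib_aux_apply hQ, fib_aux_F hQ]

theorem fib_inv_F {Q : ℚ → ℤ → (X ≃o X)} (hQ : Pres Q) (r : ℚ) (n : ℤ) (y : X)
    (h : y.key ∈ core n) : (fib Q)⁻¹ (X.F r n y h) = X.F r n ((Q r n)⁻¹ y) (hQ r n y h).2 := by
  have h1 : fib Q (X.F r n ((Q r n)⁻¹ y) (hQ r n y h).2) = X.F r n y h := by
    rw [fib_F hQ]
    congr 1
    exact (Q r n).apply_symm_apply y
  rw [← h1]
  exact (fib Q).symm_apply_apply _

theorem fib_inv_T {Q : ℚ → ℤ → (X ≃o X)} (hQ : Pres Q) (r : ℚ) :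
    (fib Q)⁻¹ (X.T r) = X.T r := by
  have h1 := fib_T hQ r
  conv_lhs => rw [← h1]
  exact (fib Q).symm_apply_apply _

end Pool.Agent.LO
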