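import Pool.Agent.LO.Conv

set_option autoImplicit false

namespace Pool.Agent.LO

open Filter

/-! Package LO-H2: the limit automorphism -/

/-- pointwise (eventually constant) convergence of automorphisms together with the inverses -/
def LimitCv (a : ℕ → (X ≃o X)) (b : X ≃o X) : Prop :=
  ∀ x, (∀ᶠ m in atTop, a m x = b x) ∧ (∀ᶠ m in atTop, (a m)⁻¹ x = b⁻¹ x)

theorem LimitCv.const (b : X ≃o X) : LimitCv (fun _ => b) b := fun _ =>
  ⟨Eventually.of_forall fun _ => rfl, Eventually.of_forall fun _ => rfl⟩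

theorem LimitCv.inv {a : ℕ → (X ≃o X)} {b : X ≃o X} (h : LimitCv a b) :
    LimitCv (fun m => (a m)⁻¹) b⁻¹ := by
  intro x
  refine ⟨(h x).2, ?_⟩
  simp only [inv_inv]
  exact (h x).1

theorem LimitCv.mul {a a' : ℕ → (X ≃o X)} {b b' : X ≃o X} (h : LimitCv a b)
    (h' : LimitCv a' b') : LimitCv (fun m => a m * a' m) (b * b') := by
  intro x
  constructor
  · filter_upwards [(h' x).1, (h (b' x)).1] with m h1 h2
    show a m (a' m x) = b (b' x)
    rw [h1, h2]
  · filter_upwards [(h x).2, (h' (b⁻¹ x)).2] with m h1 h2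
    rw [mul_inv_rev, mul_inv_rev]
    show (a' m)⁻¹ ((a m)⁻¹ x) = b'⁻¹ (b⁻¹ x)
    rw [h1, h2]

theorem LimitCv.pow {a : ℕ → (X ≃o X)} {b : X ≃o X} (h : LimitCv a b) (k : ℕ) :
    LimitCv (fun m => a m ^ k) (b ^ k) := by
  induction k with
  | zero =>
    simp only [pow_zero]
    exact LimitCv.const 1
  | succ k ih =>
    simp only [pow_succ]
    exact ih.mul h

theorem LimitCv.zpow {a : ℕ → (X ≃o X)} {b : X ≃o X} (h : LimitCv a b) (j : ℤ) :
    LimitCv (fun m => a m ^ j) (b ^ j) := by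
  obtain ⟨k, rfl | rfl⟩ := j.eq_nat_or_neg
  · simp only [zpow_natCast]
    exact h.pow k
  · simp only [zpow_neg, zpow_natCast]
    exact (h.pow k).inv

theorem tinf_spec (x : X) :
    (∀ᶠ m in atTop, tt m x = tinf x) ∧ (∀ᶠ m in atTop, (tt m)⁻¹ x = tinf⁻¹ x) := by
  have h := limAut_spec tt (fun x => (tt_conv x).1) (fun x => (tt_conv x).2)
  exact ⟨h.1 x, h.2 x⟩

theorem limitCv_tt : LimitCv tt tinf := tinf_spec

theorem tinf_HP : HP tinf := by
  intro x
  obtain ⟨m, hm⟩ := (tinf_spec x).1.exists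
  rw [← hm]
  exact HP_tt m x

theorem limitCv_gens (i : Fin 5) : LimitCv (fun m => gens (tt m) i) (gens tinf i) := by
  fin_cases i
  · exact LimitCv.const _
  · exact LimitCv.const _
  · exact LimitCv.const _
  · exact LimitCv.const _
  · exact limitCv_tt

theorem limitCv_lett (p : Fin 5 × Bool) : LimitCv (fun m => lett (tt m) p) (lett tinf p) := by
  unfold lett
  cases hp : p.2
  · simp only [Bool.false_eq_true, if_false]
    exact (limitCv_gens p.1).inv
  · simp only [if_true]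
    exact limitCv_gens p.1

theorem limitCv_ev (v : List (Fin 5 × Bool)) : LimitCv (fun m => ev (tt m) v) (ev tinf v) := by
  induction v with
  | nil =>
    simp only [ev_nil]
    exact LimitCv.const 1
  | cons p v ih =>
    simp only [ev_cons]
    exact (limitCv_lett p).mul ih

theorem tinf_ev (v : List (Fin 5 × Bool)) (x : X) :
    (∀ᶠ m in atTop, ev (tt m) v x = ev tinf v x) ∧
    (∀ᶠ m in atTop, (ev (tt m) v)⁻¹ x = (ev tinf v)⁻¹ x) := limitCv_ev v x

theorem tinf_Trp : Trp tinf := by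
  intro l x j
  obtain ⟨m, hm⟩ := (((limitCv_ev (wd l)).zpow j) x).1.exists
  rw [← hm]
  exact Trp_tt m l x j

theorem limitCv_V (l : ℕ) : LimitCv (fun m => V (tt m) l) (V tinf l) :=
  (limitCv_ev (wd l)).pow (kk l)

theorem limitCv_hA (l : ℕ) : LimitCv (fun m => hA (tt m) l) (hA tinf l) := by
  intro x
  constructor
  · filter_upwards [(limitCv_V l x).1] with m h1
    rw [hA_apply, hA_apply, h1]
  · filter_upwards [(limitCv_V l x).2] with m h1
    rw [hA_inv_apply, hA_inv_apply, h1]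

theorem limitCv_hB (l : ℕ) : LimitCv (fun m => hB (tt m) l) (hB tinf l) := by
  intro x
  constructor
  · filter_upwards [(((limitCv_hA l).inv.mul (limitCv_V l)) x).1] with m h1
    have h2 : (hA (tt m) l)⁻¹ (V (tt m) l x) = (hA tinf l)⁻¹ (V tinf l x) := h1
    rw [hB_apply, hB_apply, h2]
  · filter_upwards [(((limitCv_V l).inv.mul (limitCv_hA l)) x).1] with m h1
    have h2 : (V (tt m) l)⁻¹ (hA (tt m) l x) = (V tinf l)⁻¹ (hA tinf l x) := h1
    rw [hB_inv_apply, hB_inv_apply, h2]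

theorem limitCv_hh (l : ℕ) (b : Bool) : LimitCv (fun m => hh (tt m) l b) (hh tinf l b) := by
  unfold hh
  cases b
  · simp only [Bool.false_eq_true, if_false]
    exact limitCv_hB l
  · simp only [if_true]
    exact limitCv_hA l

theorem limitCv_E (l : ℕ) (b : Bool) : LimitCv (fun m => E (tt m) l b) (E tinf l b) :=
  ((LimitCv.const _).mul (limitCv_hh l b)).mul (LimitCv.const _)

theorem limitCv_PM (l : ℕ) (b : Bool) (k : ℕ) :
    LimitCv (fun m => PM (tt m) l b k) (PM tinf l b k) :=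
  (((limitCv_E l b).mul (LimitCv.const _)).pow k).mul (LimitCv.const _)

theorem limitCv_P (l : ℕ) (b : Bool) : LimitCv (fun m => P (tt m) l b) (P tinf l b) := by
  intro x
  obtain ⟨m0, hm0⟩ := PM_spec l b x.hd
  constructor
  · filter_upwards [(limitCv_PM l b m0 x).1] with m h1
    rw [(hm0 m0 le_rfl (tt m) x rfl).1, (hm0 m0 le_rfl tinf x rfl).1, h1]
  · filter_upwards [(limitCv_PM l b m0 x).2] with m h1
    rw [(hm0 m0 le_rfl (tt m) x rfl).2, (hm0 m0 le_rfl tinf x rfl).2, h1]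

theorem tinf_P (l : ℕ) (b : Bool) (x : X) :
    (∀ᶠ m in atTop, P (tt m) l b x = P tinf l b x) := (limitCv_P l b x).1

theorem limitCv_Q (r : ℚ) (n : ℤ) (x : X) :
    (∀ᶠ m in atTop, Q (tt m) r n x = Q tinf r n x) := by
  by_cases h : ∃ l : ℕ, (M l : ℤ) ∣ n ∧ r = call l n
  · obtain ⟨l, hl, rfl⟩ := h
    simp only [Q_call _ l hl]
    exact tinf_P l _ x
  · simp only [Q_not _ h]
    exact Eventually.of_forall fun _ => trivial

theorem limit_F_congr {r : ℚ} {n : ℤ} {y z : X} (hy : y.key ∈ core n) (hz : z.key ∈ core n)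
    (h : y = z) : X.F r n y hy = X.F r n z hz := by
  subst h
  rfl

theorem Psi_tinf : Psi tinf = tinf := by
  apply RelIso.ext
  intro x
  have hsucc : ∀ᶠ m in atTop, tt (m + 1) x = tinf x :=
    (tendsto_add_atTop_nat 1).eventually (tinf_spec x).1
  induction x using X.ind with
  | hT r =>
    obtain ⟨m, hm⟩ := hsucc.exists
    rw [← hm]
    show Psi tinf (X.T r) = Psi (tt m) (X.T r)
    rw [Psi_T, Psi_T]
  | hF r n y h _ =>
    obtain ⟨m, hm, hQ⟩ := (hsucc.and (limitCv_Q r n y)).exists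
    rw [← hm]
    show Psi tinf (X.F r n y h) = Psi (tt m) (X.F r n y h)
    rw [Psi_F, Psi_F]
    exact limit_F_congr _ _ hQ.symm

end Pool.Agent.LO
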