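import Pool.Agent.LO.Rel
import Pool.Agent.LO.Limit
import Pool.Agent.LO.Words

set_option autoImplicit false

namespace Pool.Agent.LO

/-! Final assembly -/

/-- the group -/
noncomputable def GG : Subgroup (X ≃o X) := Subgroup.closure (Set.range (gens tinf))

theorem gens_mem (i : Fin 5) : gens tinf i ∈ GG := Subgroup.subset_closure ⟨i, rfl⟩

noncomputable def gG (i : Fin 5) : GG := ⟨gens tinf i, gens_mem i⟩

noncomputable def lG (p : Fin 5 × Bool) : GG := if p.2 then gG p.1 else (gG p.1)⁻¹

theorem lG_coe (p : Fin 5 × Bool) : ((lG p : GG) : X ≃o X) = lett tinf p := by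
  unfold lG lett
  split_ifs <;> rfl

theorem prod_coe (v : List (Fin 5 × Bool)) : (((v.map lG).prod : GG) : X ≃o X) = ev tinf v := by
  induction v with
  | nil => simp [ev_nil]
  | cons p v ih => rw [List.map_cons, List.prod_cons, ev_cons, ← ih, ← lG_coe]; rfl

theorem exists_word (g : GG) : ∃ v, ev tinf v = (g : X ≃o X) := by
  obtain ⟨g, hg⟩ := g
  show ∃ v, ev tinf v = g
  unfold GG at hg
  induction hg using Subgroup.closure_induction with
  | mem x hx =>
    obtain ⟨i, rfl⟩ := hx
    exact ⟨[(i, true)], by rw [ev_cons, ev_nil, mul_one]; rfl⟩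
  | one => exact ⟨[], ev_nil _⟩
  | mul x y _ _ hx hy =>
    obtain ⟨v, hv⟩ := hx
    obtain ⟨v', hv'⟩ := hy
    exact ⟨v ++ v', by rw [ev_append, hv, hv']⟩
  | inv x _ hx =>
    obtain ⟨v, hv⟩ := hx
    exact ⟨iw v, by rw [ev_iw, hv]⟩

theorem oq_ne_one : mv oq ≠ 1 := by
  intro h
  have h1 : mv oq (X.T 1) = X.T 1 := by rw [h]; rfl
  rw [mv_apply] at h1
  have h2 : oq 1 = 1 := X.T_inj h1
  have h3 : oq ^ (1 : ℤ) = oq := zpow_one _
  have h4 := sq_near 1 (m := 1) (by norm_num) (r := 1) (by norm_num) (s := 1) (Or.inl rfl)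
  have h5 : sq 1 = oq := by unfold sq; norm_num
  have h6 : eps 1 = 1 := eps_of_mod_one (by norm_num)
  rw [h5, h3, h2, h6] at h4
  have h7 := theta_near (x := 0) (by norm_num)
  norm_num at h4 h7
  rw [h7] at h4
  norm_num at h4

theorem main_result :
    ∃ (G : Type) (_ : Group G), Nontrivial G ∧
      (∃ lt : G → G → Prop,
        (∀ a : G, ¬ lt a a) ∧
        (∀ a b c : G, lt a b → lt b c → lt a c) ∧
        (∀ a b : G, a ≠ b → lt a b ∨ lt b a) ∧
        (∀ f g h : G, lt g h → lt (f * g) (f * h))) ∧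
      ∃ S : Finset G, Subgroup.closure (S : Set G) = ⊤ ∧
        ∀ g : G, g ≠ 1 → ∀ ε : ℝ, 0 < ε → ∃ N : ℕ, ∀ n : ℕ, N ≤ n →
          ∃ l : List G, (l.length : ℝ) ≤ ε * (n : ℝ) ∧
            (∀ x ∈ l, x ∈ S ∨ x⁻¹ ∈ S) ∧ l.prod = g ^ n := by
  classical
  refine ⟨GG, inferInstance, ?_, ?_, ?_⟩
  · refine ⟨⟨gG 0, 1, ?_⟩⟩
    intro h
    have h1 : ((gG 0 : GG) : X ≃o X) = 1 := by rw [h]; rfl
    exact oq_ne_one h1
  · refine ⟨fun a b => ∃ x : X, (∀ y, WellOrderingRel y x → (a : X ≃o X) y = (b : X ≃o X) y) ∧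
      (a : X ≃o X) x < (b : X ≃o X) x, ?_, ?_, ?_, ?_⟩
    · rintro a ⟨x, _, hx⟩
      exact lt_irrefl _ hx
    · rintro a b c ⟨x, hx, hx'⟩ ⟨y, hy, hy'⟩
      rcases trichotomous_of WellOrderingRel x y with h | h | h
      · exact ⟨x, fun z hz => (hx z hz).trans (hy z (trans_of _ hz h)), by rw [← hy x h]; exact hx'⟩
      · subst h
        exact ⟨x, fun z hz => (hx z hz).trans (hy z hz), hx'.trans hy'⟩
      · exact ⟨y, fun z hz => (hx z (trans_of _ hz h)).trans (hy z hz), by rw [hx y h]; exact hy'⟩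
    · intro a b hab
      have h1 : ∃ x, (a : X ≃o X) x ≠ (b : X ≃o X) x := by
        by_contra h
        push Not at h
        exact hab (Subtype.ext (RelIso.ext h))
      have hwf : WellFounded (WellOrderingRel : X → X → Prop) := IsWellFounded.wf
      obtain ⟨x, hx, hmin⟩ := hwf.has_min {x | (a : X ≃o X) x ≠ (b : X ≃o X) x} h1
      have h2 : ∀ y, WellOrderingRel y x → (a : X ≃o X) y = (b : X ≃o X) y := by
        intro y hy
        by_contra h
        exact hmin y h hy
      rcases lt_or_gt_of_ne hx with h | h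
      · exact Or.inl ⟨x, h2, h⟩
      · exact Or.inr ⟨x, fun y hy => (h2 y hy).symm, h⟩
    · rintro f g h ⟨x, hx, hx'⟩
      refine ⟨x, fun y hy => ?_, ?_⟩
      · show (f : X ≃o X) ((g : X ≃o X) y) = (f : X ≃o X) ((h : X ≃o X) y)
        rw [hx y hy]
      · show (f : X ≃o X) ((g : X ≃o X) x) < (f : X ≃o X) ((h : X ≃o X) x)
        exact (f : X ≃o X).strictMono hx'
  · refine ⟨Finset.univ.image gG, ?_, ?_⟩
    · have h := Subgroup.closure_closure_coe_preimage (k := Set.range (gens tinf))
      have h1 : ((Finset.univ.image gG : Finset GG) : Set GG) =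
          ((↑) : (Subgroup.closure (Set.range (gens tinf))) → (X ≃o X)) ⁻¹'
            (Set.range (gens tinf)) := by
        ext x
        simp only [Finset.coe_image, Finset.coe_univ, Set.image_univ, Set.mem_range,
          Set.mem_preimage]
        constructor
        · rintro ⟨i, rfl⟩
          exact ⟨i, rfl⟩
        · rintro ⟨i, hi⟩
          exact ⟨i, Subtype.ext hi⟩
      rw [h1]
      exact h
    · intro g _ ε hε
      obtain ⟨v, hv⟩ := exists_word g
      obtain ⟨B, hB⟩ := exists_nat_gt (2 / ε)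
      obtain ⟨l, hl, hwd⟩ := wd_surj v B
      obtain ⟨v', hv'len, hv'⟩ := exists_short tinf_HP tinf_Trp Psi_tinf l
      rw [hwd, hv] at hv'
      obtain ⟨N, hN⟩ := exists_nat_gt (2 * (kk l * v.length) / ε)
      have hcost : 0 < cost l := by unfold cost; omega
      have hkk : 0 < kk l := by unfold kk; positivity
      refine ⟨N, fun n hn => ?_⟩
      refine ⟨(rep v' (n / kk l) ++ rep v (n % kk l)).map lG, ?_, ?_, ?_⟩
      · rw [List.length_map, List.length_append, rep_length, rep_length]
        push_cast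
        have h1 : ((n / kk l : ℕ) : ℝ) * (v'.length : ℝ) ≤ ((n / kk l : ℕ) : ℝ) * cost l := by
          gcongr
        have h2 : ((n / kk l : ℕ) : ℝ) * kk l ≤ n := by
          exact_mod_cast Nat.div_mul_le_self n (kk l)
        have h3 : (kk l : ℝ) = (l + 1) * cost l := by unfold kk; push_cast; ring
        have h4 : ((n / kk l : ℕ) : ℝ) * cost l ≤ n / (l + 1) := by
          rw [le_div_iff₀ (by positivity)]
          calc ((n / kk l : ℕ) : ℝ) * cost l * (l + 1) = ((n / kk l : ℕ) : ℝ) * kk l := by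
                rw [h3]; ring
            _ ≤ n := h2
        have h5 : (n : ℝ) / (l + 1) ≤ ε / 2 * n := by
          have h6 : 2 / ε < l + 1 := by
            have : (B : ℝ) ≤ l := by exact_mod_cast hl
            linarith
          rw [div_le_iff₀ (by positivity)]
          have h7 : 2 < (l + 1) * ε := by
            rw [div_lt_iff₀ hε] at h6
            exact h6
          have hn0 : (0 : ℝ) ≤ n := Nat.cast_nonneg n
          nlinarith
        have h6 : ((n % kk l : ℕ) : ℝ) * v.length ≤ kk l * v.length := by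
          gcongr
          exact (Nat.mod_lt _ hkk).le
        have h7 : (kk l : ℝ) * v.length ≤ ε / 2 * n := by
          have h8 : (N : ℝ) ≤ n := by exact_mod_cast hn
          rw [div_lt_iff₀ hε] at hN
          nlinarith
        linarith
      · intro x hx
        rw [List.mem_map] at hx
        obtain ⟨p, _, rfl⟩ := hx
        unfold lG
        split_ifs with hp
        · left
          exact Finset.mem_image_of_mem _ (Finset.mem_univ _)
        · right
          rw [inv_inv]
          exact Finset.mem_image_of_mem _ (Finset.mem_univ _)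
      · apply Subtype.ext
        rw [prod_coe, ev_append, ev_rep, ev_rep, hv', hv, ← pow_mul, ← pow_add]
        rw [Nat.div_add_mod]
        rfl

end Pool.Agent.LO
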