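import Pool.Agent.LO.Eps
import Pool.Agent.LO.Bump

set_option autoImplicit false

namespace Pool.Agent.LO

/-! Package LO-B2: the concrete maps `oq, uq, dq, psi` of `ℚ`.
(`sq 1 = oq`, `sq 0 = uq` by definition.) -/

theorem flow_par_theta : Par 1 (3 / 4) 1 := by
  refine ⟨?_, ?_, ?_⟩ <;> norm_num

theorem flow_par_delta : Par (3 / 8) (5 / 16) (9 / 16) := by
  refine ⟨?_, ?_, ?_⟩ <;> norm_num

theorem theta_zpow_of_abs_ge (k : ℤ) {x : ℚ} (hx : 1 ≤ |x|) : (theta ^ k) x = x :=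
  bump_zpow_of_abs_ge flow_par_theta k hx

theorem delta_zpow_of_abs_ge (k : ℤ) {x : ℚ} (hx : 3 / 8 ≤ |x|) : (delta ^ k) x = x :=
  bump_zpow_of_abs_ge flow_par_delta k hx

theorem theta_near {x : ℚ} (hx : |x| ≤ 1 / 4) : theta x = (x + 4) / 5 := by
  obtain ⟨h1, h2⟩ := abs_le.1 hx
  have := bump_right flow_par_theta (x := x) (by linarith) (by linarith)
  rw [theta, this]
  norm_num
  ring

theorem theta_inv_near {x : ℚ} (hx : |x| ≤ 1 / 4) : theta⁻¹ x = (x - 4) / 5 := by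
  have h := bump_inv flow_par_theta x
  have h2 := theta_near (x := -x) (by rwa [abs_neg])
  rw [theta] at h2 ⊢
  rw [h, h2]
  ring

theorem theta_neg (x : ℚ) : theta (-x) = - theta⁻¹ x := by
  have h := bump_inv flow_par_theta x
  rw [theta, h, neg_neg]

theorem delta_neg (x : ℚ) : delta (-x) = - delta⁻¹ x := by
  have h := bump_inv flow_par_delta x
  rw [delta, h, neg_neg]

theorem flow_abs_le_of_eps {s : ℤ} (hs : s = 1 ∨ s = -1) (m : ℤ) :
    s * eps m = 1 ∨ s * eps m = -1 := by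
  rcases hs with rfl | rfl <;> rcases eps_cases m with h | h <;> rw [h] <;> simp

theorem sq_near (j : ℕ) {m : ℤ} (hm : (m - j) % 2 = 0) {r : ℚ} (hr : |r - m| ≤ 1) {s : ℤ}
    (hs : s = 1 ∨ s = -1) : (sq j ^ s) r = m + (theta ^ (s * eps m)) (r - m) := by
  have hΘ : ∀ (n : ℤ) (x : ℚ), ((2 : ℤ) : ℚ) / 2 ≤ |x| → (theta ^ (eps n)) x = x := by
    intro n x hx
    exact theta_zpow_of_abs_ge _ (by norm_num at hx; exact hx)
  have hr' : |r - m| ≤ ((2 : ℤ) : ℚ) / 2 := by norm_num; exact hr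
  unfold sq
  split_ifs with hj
  · have hd : (2 : ℤ) ∣ m - 1 := by omega
    rcases hs with rfl | rfl
    · rw [zpow_one, one_mul]
      exact pw_near (by norm_num) hΘ hd hr'
    · rw [zpow_neg_one, neg_one_mul, zpow_neg]
      exact pw_inv_near (by norm_num) hΘ hd hr'
  · have hd : (2 : ℤ) ∣ m - 0 := by omega
    rcases hs with rfl | rfl
    · rw [zpow_one, one_mul]
      exact pw_near (by norm_num) hΘ hd hr'
    · rw [zpow_neg_one, neg_one_mul, zpow_neg]
      exact pw_inv_near (by norm_num) hΘ hd hr'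

theorem dq_near {n : ℤ} {r : ℚ} (hr : |r - n| ≤ 1 / 2) {s : ℤ} (hs : s = 1 ∨ s = -1) :
    (dq ^ s) r = n + (delta ^ (s * eps n)) (r - n) := by
  have hΘ : ∀ (n : ℤ) (x : ℚ), ((1 : ℤ) : ℚ) / 2 ≤ |x| → (delta ^ (eps n)) x = x := by
    intro n x hx
    exact delta_zpow_of_abs_ge _ (by norm_num at hx; linarith)
  have hr' : |r - n| ≤ ((1 : ℤ) : ℚ) / 2 := by norm_num; linarith
  have hd : (1 : ℤ) ∣ n - 0 := one_dvd _
  rcases hs with rfl | rfl
  · rw [zpow_one, one_mul]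
    exact pw_near (by norm_num) hΘ hd hr'
  · rw [zpow_neg_one, neg_one_mul, zpow_neg]
    exact pw_inv_near (by norm_num) hΘ hd hr'

/-- displacement of `bump^{±1}` -/
theorem flow_bump_disp {ρ a D : ℚ} (h : Par ρ a D) {s : ℤ} (hs : s = 1 ∨ s = -1) (x : ℚ) :
    |(bump ρ a D ^ s) x - x| ≤ D := by
  have h1 := le_bump h x
  have h2 := bump_le h x
  have h3 := le_bump h (-x)
  have h4 := bump_le h (-x)
  have h5 := bump_inv h x
  have hD := h.2.1
  rcases hs with rfl | rfl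
  · rw [zpow_one, abs_le]; constructor <;> linarith
  · rw [zpow_neg_one, h5, abs_le]; constructor <;> linarith

theorem flow_bump_neg {ρ a D : ℚ} (h : Par ρ a D) {s : ℤ} (hs : s = 1 ∨ s = -1) (x : ℚ) :
    (bump ρ a D ^ s) (-x) = -(bump ρ a D ^ (-s)) x := by
  have h5 := bump_inv h x
  have h6 := bump_inv h (-x)
  rcases hs with rfl | rfl
  · rw [zpow_one, zpow_neg_one, h5, neg_neg]
  · rw [zpow_neg_one, neg_neg, zpow_one, h6, neg_neg]

theorem sq_disp (j : ℕ) {s : ℤ} (hs : s = 1 ∨ s = -1) (r : ℚ) : |(sq j ^ s) r - r| ≤ 1 := by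
  obtain ⟨m, hm, hr⟩ := exists_center (m := 2) (by norm_num) (j : ℤ) r
  have hr' : |r - m| ≤ 1 := by norm_num at hr; exact hr
  have hm' : (m - (j : ℤ)) % 2 = 0 := by omega
  rw [sq_near j hm' hr' hs]
  have h := flow_bump_disp flow_par_theta (flow_abs_le_of_eps hs m) (r - m)
  have e : (m : ℚ) + (theta ^ (s * eps m)) (r - m) - r =
    (theta ^ (s * eps m)) (r - m) - (r - m) := by ring
  rw [e]
  exact h

theorem dq_disp {s : ℤ} (hs : s = 1 ∨ s = -1) (r : ℚ) : |(dq ^ s) r - r| ≤ 1 := by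
  obtain ⟨m, hm, hr⟩ := exists_center (m := 1) (by norm_num) 0 r
  have hr' : |r - m| ≤ 1 / 2 := by norm_num at hr; linarith
  rw [dq_near hr' hs]
  have h := flow_bump_disp flow_par_delta (flow_abs_le_of_eps hs m) (r - m)
  have e : (m : ℚ) + (delta ^ (s * eps m)) (r - m) - r =
    (delta ^ (s * eps m)) (r - m) - (r - m) := by ring
  rw [e]
  exact h.trans (by norm_num)

/-- local equivariance of `o` and `u` under translations (`a = 1`) and reflections (`a = -1`) -/
theorem sq_tau (j : ℕ) {a n0 m : ℤ} (ha : a = 1 ∨ a = -1) (hn0 : n0 % 2 = 0)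
    (hm : (m - j) % 2 = 0) {r : ℚ} (hr : |r - m| ≤ 1) (he : eps (n0 + a * m) = a * eps m)
    {s : ℤ} (hs : s = 1 ∨ s = -1) :
    (sq j ^ s) ((n0 : ℚ) + a * r) = n0 + a * (sq j ^ s) r := by
  have h1 : (n0 + a * m - (j : ℤ)) % 2 = 0 := by
    rcases ha with rfl | rfl <;> omega
  have h2 : ((n0 : ℚ) + a * r) - ((n0 + a * m : ℤ) : ℚ) = a * (r - m) := by push_cast; ring
  have h3 : |((n0 : ℚ) + a * r) - ((n0 + a * m : ℤ) : ℚ)| ≤ 1 := by
    rw [h2, abs_mul]
    rcases ha with rfl | rfl <;> simpa using hr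
  rw [sq_near j h1 h3 hs, sq_near j hm hr hs, h2, he]
  rcases ha with rfl | rfl
  · push_cast; rw [one_mul, one_mul]; ring_nf
  · have h4 := flow_bump_neg flow_par_theta (s := s * (-1 * eps m))
      (by rcases flow_abs_le_of_eps hs m with h | h
          · right; linarith
          · left; linarith) (r - m)
    have h5 : -(s * (-1 * eps m)) = s * eps m := by ring
    rw [h5] at h4
    have h6 : ((-1 : ℤ) : ℚ) * (r - m) = -(r - m) := by push_cast; ring
    rw [h6]
    have h7 : (theta ^ (s * (-1 * eps m))) (-(r - m)) = -(theta ^ (s * eps m)) (r - m) := h4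
    rw [h7]
    push_cast
    ring

theorem dq_tau {a n0 n : ℤ} (ha : a = 1 ∨ a = -1) {r : ℚ} (hr : |r - n| ≤ 1 / 2)
    (he : eps (n0 + a * n) = a * eps n) {s : ℤ} (hs : s = 1 ∨ s = -1) :
    (dq ^ s) ((n0 : ℚ) + a * r) = n0 + a * (dq ^ s) r := by
  have h2 : ((n0 : ℚ) + a * r) - ((n0 + a * n : ℤ) : ℚ) = a * (r - n) := by push_cast; ring
  have h3 : |((n0 : ℚ) + a * r) - ((n0 + a * n : ℤ) : ℚ)| ≤ 1 / 2 := by
    rw [h2, abs_mul]
    rcases ha with rfl | rfl <;> simpa using hr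
  rw [dq_near h3 hs, dq_near hr hs, h2, he]
  rcases ha with rfl | rfl
  · push_cast; rw [one_mul, one_mul]; ring_nf
  · have h4 := flow_bump_neg flow_par_delta (s := s * (-1 * eps n))
      (by rcases flow_abs_le_of_eps hs n with h | h
          · right; linarith
          · left; linarith) (r - n)
    have h5 : -(s * (-1 * eps n)) = s * eps n := by ring
    rw [h5] at h4
    have h6 : ((-1 : ℤ) : ℚ) * (r - n) = -(r - n) := by push_cast; ring
    rw [h6]
    have h7 : (delta ^ (s * (-1 * eps n))) (-(r - n)) = -(delta ^ (s * eps n)) (r - n) := h4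
    rw [h7]
    push_cast
    ring

theorem flow_w_pos (l : ℕ) : (0 : ℚ) < w l := by exact_mod_cast w_pos l

theorem flow_M_eq (l : ℕ) : (M l : ℚ) = 512 * w l := by rw [M_eq]; push_cast; ring

theorem par_psi (l : ℕ) : Par (336 * w l) (320 * w l) (24 * w l) := by
  have := flow_w_pos l
  refine ⟨?_, ?_, ?_⟩ <;> linarith

theorem flow_psi_far (l : ℕ) (n : ℤ) (x : ℚ) (hx : ((2 * (M l : ℤ) : ℤ) : ℚ) / 2 ≤ |x|) :
    (fun _ : ℤ => bump (336 * w l) (320 * w l) (24 * w l)) n x = x := by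
  apply bump_of_abs_ge (par_psi l)
  have h1 := flow_w_pos l
  have h2 := flow_M_eq l
  push_cast at hx
  linarith

theorem flow_M_pos (l : ℕ) : (0 : ℤ) < 2 * (M l : ℤ) := by
  have := flow_w_pos l
  have h2 := flow_M_eq l
  have : (0 : ℚ) < M l := by linarith
  have : (0 : ℤ) < M l := by exact_mod_cast this
  omega

theorem psi_near (l : ℕ) (b : Bool) {n : ℤ} (hn : isC l b n) {r : ℚ} (hr : |r - n| ≤ M l) {s : ℤ}
    (hs : s = 1 ∨ s = -1) :
    (psi l b ^ s) r = n + (bump (336 * w l) (320 * w l) (24 * w l) ^ s) (r - n) := by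
  have hr' : |r - n| ≤ ((2 * (M l : ℤ) : ℤ) : ℚ) / 2 := by push_cast; linarith
  rcases hs with rfl | rfl
  · rw [zpow_one, zpow_one]
    exact pw_near (flow_M_pos l) (flow_psi_far l) hn hr'
  · rw [zpow_neg_one, zpow_neg_one]
    exact pw_inv_near (flow_M_pos l) (flow_psi_far l) hn hr'

theorem flow_center (l : ℕ) (b : Bool) (r : ℚ) : ∃ n : ℤ, isC l b n ∧ |r - n| ≤ M l := by
  obtain ⟨n, hn, hr⟩ := exists_center (flow_M_pos l) (ctr l b) r
  refine ⟨n, hn, ?_⟩
  push_cast at hr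
  linarith

theorem le_psi (l : ℕ) (b : Bool) (r : ℚ) : r ≤ psi l b r := by
  obtain ⟨n, hn, hr⟩ := flow_center l b r
  have h := psi_near l b hn hr (Or.inl rfl)
  rw [zpow_one, zpow_one] at h
  rw [h]
  have := le_bump (par_psi l) (r - n)
  linarith

theorem psi_inv_le (l : ℕ) (b : Bool) (r : ℚ) : (psi l b)⁻¹ r ≤ r := by
  obtain ⟨n, hn, hr⟩ := flow_center l b r
  have h := psi_near l b hn hr (Or.inr rfl)
  rw [zpow_neg_one, zpow_neg_one] at h
  rw [h, bump_inv (par_psi l)]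
  have := le_bump (par_psi l) (-(r - n))
  linarith

theorem psi_le (l : ℕ) (b : Bool) (r : ℚ) : psi l b r ≤ r + 24 * w l := by
  obtain ⟨n, hn, hr⟩ := flow_center l b r
  have h := psi_near l b hn hr (Or.inl rfl)
  rw [zpow_one, zpow_one] at h
  rw [h]
  have := bump_le (par_psi l) (r - n)
  linarith

theorem le_psi_inv (l : ℕ) (b : Bool) (r : ℚ) : r - 24 * w l ≤ (psi l b)⁻¹ r := by
  obtain ⟨n, hn, hr⟩ := flow_center l b r
  have h := psi_near l b hn hr (Or.inr rfl)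
  rw [zpow_neg_one, zpow_neg_one] at h
  rw [h, bump_inv (par_psi l)]
  have := bump_le (par_psi l) (-(r - n))
  linarith

theorem psi_eq (l : ℕ) (b : Bool) {n : ℤ} (hn : isC l b n) {r : ℚ} (hr : |r - n| ≤ 296 * w l) :
    psi l b r = r + 24 * w l ∧ (psi l b)⁻¹ r = r - 24 * w l := by
  have hw := flow_w_pos l
  have hM := flow_M_eq l
  have hr' : |r - n| ≤ M l := by linarith
  obtain ⟨h1, h2⟩ := abs_le.1 hr
  constructor
  · have h := psi_near l b hn hr' (Or.inl rfl)
    rw [zpow_one, zpow_one] at h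
    rw [h, bump_mid (par_psi l) (by linarith) (by linarith)]
    ring
  · have h := psi_near l b hn hr' (Or.inr rfl)
    rw [zpow_neg_one, zpow_neg_one] at h
    rw [h, bump_inv (par_psi l), bump_mid (par_psi l) (by linarith) (by linarith)]
    ring

theorem psi_fix (l : ℕ) (b : Bool) {r : ℚ} (h : ∀ n, isC l b n → 336 * (w l : ℚ) ≤ |r - n|) :
    psi l b r = r := by
  obtain ⟨n, hn, hr⟩ := flow_center l b r
  have h' := psi_near l b hn hr (Or.inl rfl)
  rw [zpow_one, zpow_one] at h'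
  rw [h', bump_of_abs_ge (par_psi l) (h n hn)]
  ring

theorem psi_tau (l : ℕ) (b : Bool) {a n0 : ℤ} (ha : a = 1 ∨ a = -1)
    (hn0 : (2 * (M l : ℤ)) ∣ n0) (r : ℚ) {s : ℤ} (hs : s = 1 ∨ s = -1) :
    (psi l b ^ s) ((n0 : ℚ) + a * r) = n0 + a * (psi l b ^ (a * s)) r := by
  obtain ⟨n, hn, hr⟩ := flow_center l b r
  have h1 : isC l b (n0 + a * n) := by
    unfold isC at hn ⊢
    rcases ha with rfl | rfl
    · have : n0 + 1 * n - ctr l b = n0 + (n - ctr l b) := by ring
      rw [this]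
      exact dvd_add hn0 hn
    · have h2 : (2 * (M l : ℤ)) ∣ 2 * ctr l b := by
        unfold ctr
        split_ifs
        · simp
        · exact dvd_rfl
      have : n0 + -1 * n - ctr l b = n0 - (n - ctr l b) - 2 * ctr l b := by ring
      rw [this]
      exact dvd_sub (dvd_sub hn0 hn) h2
  have h2 : ((n0 : ℚ) + a * r) - ((n0 + a * n : ℤ) : ℚ) = a * (r - n) := by push_cast; ring
  have h3 : |((n0 : ℚ) + a * r) - ((n0 + a * n : ℤ) : ℚ)| ≤ M l := by
    rw [h2, abs_mul]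
    rcases ha with rfl | rfl <;> simpa using hr
  have has : a * s = 1 ∨ a * s = -1 := by
    rcases ha with rfl | rfl <;> rcases hs with rfl | rfl <;> simp
  rw [psi_near l b h1 h3 hs, psi_near l b hn hr has, h2]
  rcases ha with rfl | rfl
  · push_cast; rw [one_mul, one_mul, one_mul]; ring_nf
  · have h6 : ((-1 : ℤ) : ℚ) * (r - n) = -(r - n) := by push_cast; ring
    rw [h6, flow_bump_neg (par_psi l) hs, neg_one_mul]
    push_cast
    ring_nf

theorem exists_isC (l : ℕ) (r : ℚ) : ∃ n b, isC l b n ∧ |r - n| ≤ 256 * w l := by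
  have hM : (0 : ℤ) < M l := by have := flow_M_pos l; omega
  obtain ⟨n, hn, hr⟩ := exists_center hM 0 r
  rw [sub_zero] at hn
  refine ⟨n, _, isC_decide hn, ?_⟩
  have := flow_M_eq l
  push_cast at hr
  linarith

end Pool.Agent.LO
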