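import Pool.Agent.LO.Defs

set_option autoImplicit false

namespace Pool.Agent.LO

open Filter

/-! Package LO-D: automorphisms of a linear order: `mkIso`, clamping, limits -/

theorem mkIso_apply {α : Type} [LinearOrder α] {f : α → α} (h1 : StrictMono f)
    (h2 : Function.Surjective f) (x : α) : mkIso f x = f x := by
  unfold mkIso
  rw [dif_pos ⟨h1, h2⟩]
  rfl

/-- pointwise maximum of two automorphisms is a strictly monotone surjection -/
theorem max_iso {α : Type} [LinearOrder α] (f g : α ≃o α) :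
    StrictMono (fun x => max (f x) (g x)) ∧ Function.Surjective (fun x => max (f x) (g x)) := by
  refine ⟨fun x y h => max_lt_max (f.strictMono h) (g.strictMono h), fun y => ?_⟩
  rcases le_total (f.symm y) (g.symm y) with h | h
  · refine ⟨f.symm y, ?_⟩
    have h1 : g (f.symm y) ≤ y := by
      have h2 := g.monotone h
      rwa [g.apply_symm_apply] at h2
    show max (f (f.symm y)) (g (f.symm y)) = y
    rw [f.apply_symm_apply]
    exact max_eq_left h1
  · refine ⟨g.symm y, ?_⟩
    have h1 : f (g.symm y) ≤ y := by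
      have h2 := f.monotone h
      rwa [f.apply_symm_apply] at h2
    show max (f (g.symm y)) (g (g.symm y)) = y
    rw [g.apply_symm_apply]
    exact max_eq_right h1

theorem min_iso {α : Type} [LinearOrder α] (f g : α ≃o α) :
    StrictMono (fun x => min (f x) (g x)) ∧ Function.Surjective (fun x => min (f x) (g x)) := by
  refine ⟨fun x y h => min_lt_min (f.strictMono h) (g.strictMono h), fun y => ?_⟩
  rcases le_total (f.symm y) (g.symm y) with h | h
  · refine ⟨g.symm y, ?_⟩
    have h1 : y ≤ f (g.symm y) := by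
      have h2 := f.monotone h
      rwa [f.apply_symm_apply] at h2
    show min (f (g.symm y)) (g (g.symm y)) = y
    rw [g.apply_symm_apply]
    exact min_eq_right h1
  · refine ⟨f.symm y, ?_⟩
    have h1 : y ≤ g (f.symm y) := by
      have h2 := g.monotone h
      rwa [g.apply_symm_apply] at h2
    show min (f (f.symm y)) (g (f.symm y)) = y
    rw [f.apply_symm_apply]
    exact min_eq_left h1

theorem Lattice_cl_aux {α : Type} [LinearOrder α] (ψ g : α ≃o α) :
    StrictMono (fun x => max (min (g x) (ψ x)) (ψ⁻¹ x)) ∧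
      Function.Surjective (fun x => max (min (g x) (ψ x)) (ψ⁻¹ x)) := by
  obtain ⟨h1, h2⟩ := min_iso g ψ
  have h3 := max_iso (StrictMono.orderIsoOfSurjective _ h1 h2) (ψ⁻¹)
  exact h3

theorem cl_apply {α : Type} [LinearOrder α] (ψ g : α ≃o α) (x : α) :
    cl ψ g x = max (min (g x) (ψ x)) (ψ⁻¹ x) := by
  unfold cl
  rw [mkIso_apply (Lattice_cl_aux ψ g).1 (Lattice_cl_aux ψ g).2]

theorem Lattice_inv_le {α : Type} [LinearOrder α] {ψ : α ≃o α} (hψ : ∀ x, x ≤ ψ x) (x : α) :
    ψ⁻¹ x ≤ x := by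
  have h := hψ (ψ⁻¹ x)
  rwa [RelIso.apply_inv_self] at h

theorem cl_inv {α : Type} [LinearOrder α] {ψ : α ≃o α} (hψ : ∀ x, x ≤ ψ x) (g : α ≃o α) :
    (cl ψ g)⁻¹ = cl ψ g⁻¹ := by
  have key : ∀ x, cl ψ g⁻¹ (cl ψ g x) = x := by
    intro x
    have hx := hψ x
    have hx' := Lattice_inv_le hψ x
    rw [cl_apply ψ g⁻¹, cl_apply ψ g]
    rcases le_total (ψ x) (g x) with h | h
    · rw [min_eq_right h, max_eq_left (hx'.trans hx)]
      have h1 : g⁻¹ (ψ x) ≤ x := by
        have h2 := (g⁻¹).monotone h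
        rwa [RelIso.inv_apply_self] at h2
      rw [RelIso.inv_apply_self]
      exact max_eq_right ((min_le_left _ _).trans h1)
    · rw [min_eq_left h]
      rcases le_total (ψ⁻¹ x) (g x) with h' | h'
      · rw [max_eq_left h', RelIso.inv_apply_self]
        have h1 : x ≤ ψ (g x) := by
          have h2 := ψ.monotone h'
          rwa [RelIso.apply_inv_self] at h2
        have h3 : ψ⁻¹ (g x) ≤ x := by
          have h2 := (ψ⁻¹).monotone h
          rwa [RelIso.inv_apply_self] at h2
        rw [min_eq_left h1, max_eq_left h3]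
      · rw [max_eq_right h']
        have h1 : x ≤ g⁻¹ (ψ⁻¹ x) := by
          have h2 := (g⁻¹).monotone h'
          rwa [RelIso.inv_apply_self] at h2
        rw [RelIso.apply_inv_self, min_eq_right h1]
        exact max_eq_left ((Lattice_inv_le hψ _).trans hx')
  ext y
  have h := key ((cl ψ g)⁻¹ y)
  rw [RelIso.apply_inv_self] at h
  exact h.symm

theorem cl_fix {α : Type} [LinearOrder α] {ψ : α ≃o α} (g : α ≃o α) {x : α} (h : ψ x = x) :
    cl ψ g x = x := by
  have h1 : ψ⁻¹ x = x := by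
    conv_lhs => rw [← h]
    exact RelIso.inv_apply_self ψ x
  rw [cl_apply, h, h1]
  exact max_eq_right (min_le_right _ _)

theorem cl_eq {α : Type} [LinearOrder α] {ψ g : α ≃o α} {x : α} (h1 : ψ⁻¹ x ≤ g x)
    (h2 : g x ≤ ψ x) : cl ψ g x = g x := by
  rw [cl_apply, min_eq_left h2, max_eq_left h1]

/-- the clamped value lies between `x` and `g x` -/
theorem cl_between {α : Type} [LinearOrder α] {ψ : α ≃o α} (hψ : ∀ x, x ≤ ψ x) (g : α ≃o α)
    (x : α) : (x ≤ cl ψ g x ∧ cl ψ g x ≤ g x) ∨ (g x ≤ cl ψ g x ∧ cl ψ g x ≤ x) := by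
  have hx := hψ x
  have hx' := Lattice_inv_le hψ x
  rw [cl_apply]
  rcases le_total x (g x) with h | h
  · left
    have h1 : x ≤ min (g x) (ψ x) := le_min h hx
    exact ⟨h1.trans (le_max_left _ _), max_le (min_le_left _ _) (hx'.trans h)⟩
  · right
    have h1 : min (g x) (ψ x) = g x := min_eq_left (h.trans hx)
    rw [h1]
    exact ⟨le_max_left _ _, max_le h hx'⟩

theorem limAut_spec {α : Type} [LinearOrder α] (a : ℕ → (α ≃o α))
    (h1 : ∀ x, ∃ c, ∀ᶠ m in atTop, a m x = c) (h2 : ∀ x, ∃ c, ∀ᶠ m in atTop, (a m)⁻¹ x = c) :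
    (∀ x, ∀ᶠ m in atTop, a m x = limAut a x) ∧
      (∀ x, ∀ᶠ m in atTop, (a m)⁻¹ x = (limAut a)⁻¹ x) := by
  classical
  have hc : ∀ x, ∀ᶠ m in atTop, a m x =
      (if h : ∃ c, ∀ᶠ m in atTop, a m x = c then h.choose else x) := by
    intro x
    rw [dif_pos (h1 x)]
    exact (h1 x).choose_spec
  have hmono : StrictMono (fun x => if h : ∃ c, ∀ᶠ m in atTop, a m x = c then h.choose else x) := by
    intro x y hxy
    obtain ⟨m, hm1, hm2⟩ := ((hc x).and (hc y)).exists
    show (if h : ∃ c, ∀ᶠ m in atTop, a m x = c then h.choose else x) <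
      (if h : ∃ c, ∀ᶠ m in atTop, a m y = c then h.choose else y)
    rw [← hm1, ← hm2]
    exact (a m).strictMono hxy
  have hsurj : Function.Surjective
      (fun x => if h : ∃ c, ∀ᶠ m in atTop, a m x = c then h.choose else x) := by
    intro y
    obtain ⟨c, hc'⟩ := h2 y
    refine ⟨c, ?_⟩
    obtain ⟨m, hm1, hm2⟩ := ((hc c).and hc').exists
    show (if h : ∃ c', ∀ᶠ m in atTop, a m c = c' then h.choose else c) = y
    rw [← hm1, ← hm2]
    exact RelIso.apply_inv_self (a m) y
  have hlim : ∀ x, limAut a x =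
      (if h : ∃ c, ∀ᶠ m in atTop, a m x = c then h.choose else x) := by
    intro x
    unfold limAut
    exact mkIso_apply hmono hsurj x
  have hfst : ∀ x, ∀ᶠ m in atTop, a m x = limAut a x := by
    intro x
    rw [hlim x]
    exact hc x
  refine ⟨hfst, fun x => ?_⟩
  filter_upwards [hfst ((limAut a)⁻¹ x)] with m hm
  rw [RelIso.apply_inv_self] at hm
  have h3 : (a m)⁻¹ (a m ((limAut a)⁻¹ x)) = (a m)⁻¹ x := by rw [hm]
  rw [RelIso.inv_apply_self] at h3
  exact h3.symm

end Pool.Agent.LO
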