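import Pool.Agent.LO.Stacks

set_option autoImplicit false

namespace Pool.Agent.LO

/-! Package LO-C2: the push map `gam` -/

theorem push_hd_le {x : X} {r0 : ℚ} {n : ℤ} (h : x.key < kF r0 n) : x.hd ≤ r0 := by
  revert h
  refine X.ind (motive := fun x => x.key < kF r0 n → x.hd ≤ r0) ?_ ?_ x
  · intro r h
    rw [X.key_T, kT_lt_kF] at h
    rw [X.hd_T]
    rcases h with h | h
    · exact h.le
    · exact h.1.le
  · intro r m y hy _ h
    rw [X.key_F, kF_lt_kF] at h
    rw [X.hd_F]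
    rcases h with h | h
    · exact h.le
    · exact h.1.le

theorem push_le_hd {x : X} {r0 : ℚ} {n : ℤ} (h : kF r0 n < x.key) : r0 ≤ x.hd := by
  revert h
  refine X.ind (motive := fun x => kF r0 n < x.key → r0 ≤ x.hd) ?_ ?_ x
  · intro r h
    rw [X.key_T, kF_lt_kT] at h
    rw [X.hd_T]
    rcases h with h | h
    · exact h.le
    · exact h.1.le
  · intro r m y hy _ h
    rw [X.key_F, kF_lt_kF] at h
    rw [X.hd_F]
    rcases h with h | h
    · exact h.le
    · exact h.1.le

theorem push_key_lt {x : X} {r0 r1 r : ℚ} {n : ℤ} (h : x.key < kF r0 n)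
    (hr : r < r1 ∨ (r = r1 ∧ x.hd = r0)) : (x.setHd r).key < kF r1 n := by
  revert h hr
  refine X.ind (motive := fun x => x.key < kF r0 n → (r < r1 ∨ (r = r1 ∧ x.hd = r0)) →
    (x.setHd r).key < kF r1 n) ?_ ?_ x
  · intro s h hr
    rw [X.key_T, kT_lt_kF] at h
    rw [X.hd_T] at hr
    rw [X.setHd_T, X.key_T, kT_lt_kF]
    rcases hr with hr | ⟨hr, hs⟩
    · exact Or.inl hr
    · rcases h with h | h
      · exact absurd hs h.ne
      · exact Or.inr ⟨hr, h.2⟩
  · intro s m y hy _ h hr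
    rw [X.key_F, kF_lt_kF] at h
    rw [X.hd_F] at hr
    rw [X.setHd_F, X.key_F, kF_lt_kF]
    rcases hr with hr | ⟨hr, hs⟩
    · exact Or.inl hr
    · rcases h with h | h
      · exact absurd hs h.ne
      · exact Or.inr ⟨hr, h.2⟩

theorem push_lt_key {x : X} {r0 r1 r : ℚ} {n : ℤ} (h : kF r0 n < x.key)
    (hr : r1 < r ∨ (r1 = r ∧ r0 = x.hd)) : kF r1 n < (x.setHd r).key := by
  revert h hr
  refine X.ind (motive := fun x => kF r0 n < x.key → (r1 < r ∨ (r1 = r ∧ r0 = x.hd)) →
    kF r1 n < (x.setHd r).key) ?_ ?_ x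
  · intro s h hr
    rw [X.key_T, kF_lt_kT] at h
    rw [X.hd_T] at hr
    rw [X.setHd_T, X.key_T, kF_lt_kT]
    rcases hr with hr | ⟨hr, hs⟩
    · exact Or.inl hr
    · rcases h with h | h
      · exact absurd hs h.ne
      · exact Or.inr ⟨hr, h.2⟩
  · intro s m y hy _ h hr
    rw [X.key_F, kF_lt_kF] at h
    rw [X.hd_F] at hr
    rw [X.setHd_F, X.key_F, kF_lt_kF]
    rcases hr with hr | ⟨hr, hs⟩
    · exact Or.inl hr
    · rcases h with h | h
      · exact absurd hs h.ne
      · exact Or.inr ⟨hr, h.2⟩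

theorem push_key_lt_of_hd {x : X} {r0 : ℚ} {n : ℤ} (h : x.hd < r0) : x.key < kF r0 n := by
  revert h
  refine X.ind (motive := fun x => x.hd < r0 → x.key < kF r0 n) ?_ ?_ x
  · intro s h
    rw [X.hd_T] at h
    rw [X.key_T, kT_lt_kF]
    exact Or.inl h
  · intro s m y hy _ h
    rw [X.hd_F] at h
    rw [X.key_F, kF_lt_kF]
    exact Or.inl h

theorem push_setHd_lt {x y : X} (h : x < y) (he : x.hd = y.hd) (r : ℚ) :
    x.setHd r < y.setHd r := by
  rcases X.lt_cases h with h1 | ⟨s, n, a, b, ha, hb, h1, h2, h3⟩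
  · apply X.lt_of_key_lt
    revert h1 he
    refine X.ind (motive := fun x => x.hd = y.hd → x.key < y.key →
      (x.setHd r).key < (y.setHd r).key) ?_ ?_ x
    · intro s
      refine X.ind (motive := fun y => (X.T s).hd = y.hd → (X.T s).key < y.key →
        ((X.T s).setHd r).key < (y.setHd r).key) ?_ ?_ y
      · intro s' he h1
        rw [X.hd_T, X.hd_T] at he
        rw [X.key_T, X.key_T, kT_lt_kT] at h1
        exact absurd he h1.ne
      · intro s' m' y' hy' _ he h1
        rw [X.hd_T, X.hd_F] at he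
        rw [X.key_T, X.key_F, kT_lt_kF] at h1
        rw [X.setHd_T, X.setHd_F, X.key_T, X.key_F, kT_lt_kF]
        rcases h1 with h1 | h1
        · exact absurd he h1.ne
        · exact Or.inr ⟨rfl, h1.2⟩
    · intro s m z hz _
      refine X.ind (motive := fun y => (X.F s m z hz).hd = y.hd → (X.F s m z hz).key < y.key →
        ((X.F s m z hz).setHd r).key < (y.setHd r).key) ?_ ?_ y
      · intro s' he h1
        rw [X.hd_F, X.hd_T] at he
        rw [X.key_T, X.key_F, kF_lt_kT] at h1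
        rw [X.setHd_T, X.setHd_F, X.key_T, X.key_F, kF_lt_kT]
        rcases h1 with h1 | h1
        · exact absurd he h1.ne
        · exact Or.inr ⟨rfl, h1.2⟩
      · intro s' m' y' hy' _ he h1
        rw [X.hd_F, X.hd_F] at he
        rw [X.key_F, X.key_F, kF_lt_kF] at h1
        rw [X.setHd_F, X.setHd_F, X.key_F, X.key_F, kF_lt_kF]
        rcases h1 with h1 | h1
        · exact absurd he h1.ne
        · exact Or.inr ⟨rfl, h1.2⟩
  · subst h1 h2
    rw [X.setHd_F, X.setHd_F]
    exact X.F_lt_F_iff.2 h3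

theorem push_tile {r : ℚ} {n : ℤ} (h1 : (n : ℚ) - 1 / 2 ≤ r) (h2 : r < n + 1 / 2) :
    ⌊r + 1 / 2⌋ = n := by
  rw [Int.floor_eq_iff]
  constructor <;> linarith

theorem gamF_push {x : X} {n : ℤ} (h : x.key ∈ core n) : gamF x = X.F n n x h := by
  have h1 := X.hd_near_of_core h
  rw [abs_le] at h1
  have h2 : ⌊x.hd + 1 / 2⌋ = n := push_tile (by linarith [h1.1]) (by linarith [h1.2])
  subst h2
  unfold gamF
  rw [dif_pos h]

theorem gamF_left {x : X} {n : ℤ} (hr : (n : ℚ) - 1 / 2 ≤ x.hd)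
    (h : x.key < kF (n - 3 / 8) n) :
    gamF x = x.setHd (4 * x.hd - 3 * n + 3 / 2) := by
  have h1 := push_hd_le h
  have h2 : ⌊x.hd + 1 / 2⌋ = n := push_tile hr (by linarith)
  subst h2
  have h3 : x.key ∉ core ⌊x.hd + 1 / 2⌋ := fun h4 => absurd h (not_lt.2 h4.1)
  unfold gamF
  rw [dif_neg h3, if_pos h]

theorem gamF_right {x : X} {n : ℤ} (hr : x.hd < (n : ℚ) + 1 / 2)
    (h : kF (n + 3 / 8) n < x.key) :
    gamF x = x.setHd (4 * x.hd - 3 * n - 3 / 2) := by
  have h1 := push_le_hd h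
  have h2 : ⌊x.hd + 1 / 2⌋ = n := push_tile (by linarith) hr
  subst h2
  have h3 : x.key ∉ core ⌊x.hd + 1 / 2⌋ := fun h4 => absurd h (not_lt.2 h4.2)
  have h5 : kF ((⌊x.hd + 1 / 2⌋ : ℤ) - 3 / 8) ⌊x.hd + 1 / 2⌋ <
      kF ((⌊x.hd + 1 / 2⌋ : ℤ) + 3 / 8) ⌊x.hd + 1 / 2⌋ := by
    rw [kF_lt_kF]
    left
    linarith
  have h4 : ¬ x.key < kF ((⌊x.hd + 1 / 2⌋ : ℤ) - 3 / 8) ⌊x.hd + 1 / 2⌋ :=
    fun h6 => absurd (h6.trans (h5.trans h)) (lt_irrefl _)
  unfold gamF
  rw [dif_neg h3, if_neg h4]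

theorem push_cases (x : X) : ∃ n : ℤ, (n : ℚ) - 1 / 2 ≤ x.hd ∧ x.hd < n + 1 / 2 ∧
    (x.key < kF (n - 3 / 8) n ∨ x.key ∈ core n ∨ kF (n + 3 / 8) n < x.key) := by
  refine ⟨⌊x.hd + 1 / 2⌋, ?_, ?_, ?_⟩
  · linarith [Int.floor_le (x.hd + 1 / 2)]
  · linarith [Int.lt_floor_add_one (x.hd + 1 / 2)]
  · rcases lt_or_ge x.key (kF ((⌊x.hd + 1 / 2⌋ : ℤ) - 3 / 8) ⌊x.hd + 1 / 2⌋) with h | h
    · exact Or.inl h
    · rcases lt_or_ge (kF ((⌊x.hd + 1 / 2⌋ : ℤ) + 3 / 8) ⌊x.hd + 1 / 2⌋) x.key with h' | h'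
      · exact Or.inr (Or.inr h')
      · exact Or.inr (Or.inl ⟨h, h'⟩)

theorem gamF_range {x : X} {n : ℤ} (h1 : (n : ℚ) - 1 / 2 ≤ x.hd) (h2 : x.hd < n + 1 / 2) :
    (n : ℚ) - 1 / 2 ≤ (gamF x).hd ∧ (gamF x).hd < n + 1 / 2 := by
  obtain ⟨m, h3, h4, h5⟩ := push_cases x
  have h6 : m = n := (push_tile h3 h4).symm.trans (push_tile h1 h2)
  subst h6
  rcases h5 with h5 | h5 | h5
  · rw [gamF_left h3 h5, X.hd_setHd]
    have := push_hd_le h5
    constructor <;> linarith
  · rw [gamF_push h5, X.hd_F]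
    constructor <;> linarith
  · rw [gamF_right h4 h5, X.hd_setHd]
    have := push_le_hd h5
    constructor <;> linarith

theorem gamF_strictMono : StrictMono gamF := by
  intro x y hxy
  obtain ⟨n, hn1, hn2, hn3⟩ := push_cases x
  obtain ⟨m, hm1, hm2, hm3⟩ := push_cases y
  have hh := X.hd_le_of_le hxy.le
  have hnm : n ≤ m := by
    rw [← push_tile hn1 hn2, ← push_tile hm1 hm2]
    exact Int.floor_le_floor (by linarith)
  rcases eq_or_lt_of_le hnm with he | hlt
  · subst he
    have hkey := X.key_le_of_le hxy.le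
    rcases hn3 with h1 | h1 | h1
    · rcases hm3 with h2 | h2 | h2
      · rw [gamF_left hn1 h1, gamF_left hm1 h2]
        rcases eq_or_lt_of_le hh with h3 | h3
        · rw [← h3]
          exact push_setHd_lt hxy h3 _
        · exact X.setHd_lt_setHd (by linarith)
      · rw [gamF_left hn1 h1, gamF_push h2]
        apply X.lt_of_key_lt
        rw [X.key_F]
        apply push_key_lt h1
        rcases eq_or_lt_of_le (push_hd_le h1) with h3 | h3
        · right
          refine ⟨?_, h3⟩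
          rw [h3]
          ring
        · left
          linarith
      · rw [gamF_left hn1 h1, gamF_right hm2 h2]
        apply X.lt_of_key_lt
        apply lt_trans (b := kF (n : ℚ) n)
        · apply push_key_lt h1
          rcases eq_or_lt_of_le (push_hd_le h1) with h3 | h3
          · right
            refine ⟨?_, h3⟩
            rw [h3]
            ring
          · left
            linarith
        · apply push_lt_key h2
          rcases eq_or_lt_of_le (push_le_hd h2) with h3 | h3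
          · right
            refine ⟨?_, h3⟩
            rw [← h3]
            ring
          · left
            linarith
    · rcases hm3 with h2 | h2 | h2
      · exact absurd (h1.1.trans hkey) (not_le.2 h2)
      · rw [gamF_push h1, gamF_push h2]
        exact X.F_lt_F_iff.2 hxy
      · rw [gamF_push h1, gamF_right hm2 h2]
        apply X.lt_of_key_lt
        rw [X.key_F]
        apply push_lt_key h2
        rcases eq_or_lt_of_le (push_le_hd h2) with h3 | h3
        · right
          refine ⟨?_, h3⟩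
          rw [← h3]
          ring
        · left
          linarith
    · have h2 := h1.trans_le hkey
      rw [gamF_right hn2 h1, gamF_right hm2 h2]
      rcases eq_or_lt_of_le hh with h3 | h3
      · rw [← h3]
        exact push_setHd_lt hxy h3 _
      · exact X.setHd_lt_setHd (by linarith)
  · have h1 := gamF_range hn1 hn2
    have h2 := gamF_range hm1 hm2
    have h3 : (n : ℚ) + 1 ≤ m := by exact_mod_cast hlt
    apply X.lt_of_hd_lt
    linarith [h1.2, h2.1]

theorem push_inv_left {x : X} {n : ℤ} (h1 : (n : ℚ) - 1 / 2 ≤ x.hd) (h : x.key < kF n n) :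
    gamF (x.setHd ((x.hd + 3 * n - 3 / 2) / 4)) = x := by
  have h2 := push_hd_le h
  have h3 : (x.setHd ((x.hd + 3 * n - 3 / 2) / 4)).key < kF (n - 3 / 8) n := by
    apply push_key_lt h
    rcases eq_or_lt_of_le h2 with h4 | h4
    · right
      refine ⟨?_, h4⟩
      rw [h4]
      ring
    · left
      linarith
  rw [gamF_left (n := n) _ h3, X.setHd_setHd, X.hd_setHd]
  · have h5 : 4 * ((x.hd + 3 * n - 3 / 2) / 4) - 3 * n + 3 / 2 = x.hd := by ring
    rw [h5, X.setHd_hd]
  · rw [X.hd_setHd]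
    linarith

theorem push_inv_right {x : X} {n : ℤ} (h1 : x.hd < (n : ℚ) + 1 / 2) (h : kF n n < x.key) :
    gamF (x.setHd ((x.hd + 3 * n + 3 / 2) / 4)) = x := by
  have h2 := push_le_hd h
  have h3 : kF (n + 3 / 8) n < (x.setHd ((x.hd + 3 * n + 3 / 2) / 4)).key := by
    apply push_lt_key h
    rcases eq_or_lt_of_le h2 with h4 | h4
    · right
      refine ⟨?_, h4⟩
      rw [← h4]
      ring
    · left
      linarith
  rw [gamF_right (n := n) _ h3, X.setHd_setHd, X.hd_setHd]
  · have h5 : 4 * ((x.hd + 3 * n + 3 / 2) / 4) - 3 * n - 3 / 2 = x.hd := by ring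
    rw [h5, X.setHd_hd]
  · rw [X.hd_setHd]
    linarith

theorem gamF_surjective : Function.Surjective gamF := by
  intro z
  obtain ⟨n, hn1, hn2, -⟩ := push_cases z
  rcases lt_trichotomy z.key (kF n n) with h | h | h
  · exact ⟨_, push_inv_left hn1 h⟩
  · obtain ⟨y, hy, rfl⟩ := X.eq_F_of_key h
    exact ⟨y, gamF_push hy⟩
  · exact ⟨_, push_inv_right hn2 h⟩

theorem push_gam_eq (x : X) : gam x = gamF x := by
  unfold gam mkIso
  rw [dif_pos ⟨gamF_strictMono, gamF_surjective⟩]
  rfl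

theorem push_gam_inv_of {x y : X} (h : gamF y = x) : gam⁻¹ x = y := by
  have h1 : gam y = x := (push_gam_eq y).trans h
  rw [← h1]
  exact gam.symm_apply_apply y

theorem gam_push {x : X} {n : ℤ} (h : x.key ∈ core n) : gam x = X.F n n x h := by
  rw [push_gam_eq, gamF_push h]

theorem gam_left {x : X} {n : ℤ} (hr : |x.hd - n| ≤ 1 / 2) (h : x.key < kF (n - 3 / 8) n) :
    gam x = x.setHd (4 * x.hd - 3 * n + 3 / 2) := by
  rw [abs_le] at hr
  rw [push_gam_eq, gamF_left (by linarith [hr.1]) h]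

theorem gam_right {x : X} {n : ℤ} (hr : |x.hd - n| ≤ 1 / 2) (h : kF (n + 3 / 8) n < x.key) :
    gam x = x.setHd (4 * x.hd - 3 * n - 3 / 2) := by
  rw [abs_le] at hr
  rcases lt_or_ge x.hd ((n : ℚ) + 1 / 2) with h1 | h1
  · rw [push_gam_eq, gamF_right h1 h]
  · have h2 : x.hd = n + 1 / 2 := le_antisymm (by linarith [hr.2]) h1
    have h3 : x.key < kF (((n + 1 : ℤ) : ℚ) - 3 / 8) (n + 1) := by
      apply push_key_lt_of_hd
      push_cast
      linarith
    rw [push_gam_eq, gamF_left (n := n + 1) (by push_cast; linarith) h3]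
    congr 1
    push_cast
    linarith

theorem gam_inv_pop {y : X} {n : ℤ} (h : y.key ∈ core n) : gam⁻¹ (X.F n n y h) = y :=
  push_gam_inv_of (gamF_push h)

theorem gam_inv_left {x : X} {n : ℤ} (hr : |x.hd - n| ≤ 1 / 2) (h : x.key < kF n n) :
    gam⁻¹ x = x.setHd ((x.hd + 3 * n - 3 / 2) / 4) := by
  rw [abs_le] at hr
  exact push_gam_inv_of (push_inv_left (by linarith [hr.1]) h)

theorem gam_inv_right {x : X} {n : ℤ} (hr : |x.hd - n| ≤ 1 / 2) (h : kF n n < x.key) :
    gam⁻¹ x = x.setHd ((x.hd + 3 * n + 3 / 2) / 4) := by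
  rw [abs_le] at hr
  rcases lt_or_ge x.hd ((n : ℚ) + 1 / 2) with h1 | h1
  · exact push_gam_inv_of (push_inv_right h1 h)
  · have h2 : x.hd = n + 1 / 2 := le_antisymm (by linarith [hr.2]) h1
    have h3 : x.key < kF ((n + 1 : ℤ) : ℚ) (n + 1) := by
      apply push_key_lt_of_hd
      push_cast
      linarith
    have h4 := push_gam_inv_of (push_inv_left (x := x) (n := n + 1) (by push_cast; linarith) h3)
    rw [h4]
    congr 1
    push_cast
    linarith

theorem gam_disp (x : X) : |(gam x).hd - x.hd| ≤ 1 := by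
  obtain ⟨n, hn1, hn2, -⟩ := push_cases x
  have h := gamF_range hn1 hn2
  rw [push_gam_eq, abs_le]
  constructor <;> linarith [h.1, h.2]

theorem gam_inv_disp (x : X) : |(gam⁻¹ x).hd - x.hd| ≤ 1 := by
  have h := gam_disp (gam⁻¹ x)
  have h1 : gam (gam⁻¹ x) = x := gam.apply_symm_apply x
  rw [h1] at h
  rw [abs_sub_comm]
  exact h

end Pool.Agent.LO
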