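import Pool.Agent.LO.Flow

set_option autoImplicit false

namespace Pool.Agent.LO

/-! Package LO-B4: transport -/

/-- exponent of the `j`-th transport letter -/
def trS (l : ℕ) (b : Bool) (j : ℕ) : ℤ := if j = 0 then 1 else eps (ctr l b + (j : ℤ))

theorem trS_cases (l : ℕ) (b : Bool) (j : ℕ) : trS l b j = 1 ∨ trS l b j = -1 := by
  unfold trS
  split_ifs
  · exact Or.inl rfl
  · exact eps_cases _

/-- integer part of the position after `j` letters -/
def trM (l : ℕ) (b : Bool) (n : ℤ) : ℕ → ℤ
  | 0 => n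
  | j + 1 => trM l b n j + trS l b j * eps (trM l b n j)

/-- the `j`-th step -/
def trStep (l : ℕ) (b : Bool) (n : ℤ) (j : ℕ) : ℤ := trS l b j * eps (trM l b n j)

/-- numerator of the fractional part -/
def trZ (l : ℕ) (b : Bool) (n : ℤ) : ℕ → ℤ
  | 0 => 0
  | j + 1 => trZ l b n j - 5 ^ j * (trS l b j * eps (trM l b n j))

theorem tr_mul_cases {a b : ℤ} (ha : a = 1 ∨ a = -1) (hb : b = 1 ∨ b = -1) :
    a * b = 1 ∨ a * b = -1 := by
  rcases ha with rfl | rfl <;> rcases hb with rfl | rfl <;> simp

theorem trStep_cases (l : ℕ) (b : Bool) (n : ℤ) (j : ℕ) :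
    trStep l b n j = 1 ∨ trStep l b n j = -1 :=
  tr_mul_cases (trS_cases l b j) (eps_cases _)

theorem tr_one_step (j : ℕ) {m : ℤ} {x : ℚ} (hm : (m - j) % 2 = 0) (hx : |x| ≤ 1 / 4) {s : ℤ}
    (hs : s = 1 ∨ s = -1) :
    (sq j ^ s) ((m : ℚ) + x) = ((m + s * eps m : ℤ) : ℚ) + (x - ((s * eps m : ℤ) : ℚ)) / 5 := by
  rw [sq_near j hm (by
    rw [add_sub_cancel_left]
    exact hx.trans (by norm_num)) hs, add_sub_cancel_left]
  rcases tr_mul_cases hs (eps_cases m) with h | h
  · rw [h, zpow_one, theta_near hx]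
    push_cast
    ring
  · rw [h, zpow_neg_one, theta_inv_near hx]
    push_cast
    ring

theorem tr_main (l : ℕ) (b : Bool) {n : ℤ} (hn : n % 2 = 0) (j : ℕ) :
    gq l b j n = (trM l b n j : ℚ) + (trZ l b n j : ℚ) / 5 ^ j ∧ (trM l b n j - j) % 2 = 0 ∧
      4 * |trZ l b n j| ≤ 5 ^ j := by
  induction j with
  | zero =>
    refine ⟨?_, ?_, ?_⟩
    · simp [gq, trM, trZ]
    · simpa [trM] using hn
    · simp [trZ]
  | succ j ih =>
    obtain ⟨h1, h2, h3⟩ := ih
    have h5 : (0 : ℚ) < 5 ^ j := by positivity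
    have hx : |(trZ l b n j : ℚ) / 5 ^ j| ≤ 1 / 4 := by
      rw [abs_div, abs_of_pos h5, div_le_iff₀ h5]
      have h3' : (4 : ℚ) * |(trZ l b n j : ℚ)| ≤ 5 ^ j := by exact_mod_cast h3
      linarith
    have hgq : gq l b (j + 1) n = (sq j ^ trS l b j) (gq l b j n) := rfl
    have hstep := trStep_cases l b n j
    refine ⟨?_, ?_, ?_⟩
    · rw [hgq, h1, tr_one_step j h2 hx (trS_cases l b j)]
      simp only [trM, trZ]
      push_cast
      rw [pow_succ]
      field_simp
    · simp only [trM]
      unfold trStep at hstep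
      push_cast
      rcases hstep with h | h <;> rw [h] <;> omega
    · simp only [trZ]
      unfold trStep at hstep
      have h6 : |5 ^ j * (trS l b j * eps (trM l b n j))| = 5 ^ j := by
        rcases hstep with h | h <;> rw [h] <;> simp
      calc 4 * |trZ l b n j - 5 ^ j * (trS l b j * eps (trM l b n j))|
          ≤ 4 * (|trZ l b n j| + |5 ^ j * (trS l b j * eps (trM l b n j))|) := by
            gcongr
            exact abs_sub _ _
        _ = 4 * |trZ l b n j| + 4 * 5 ^ j := by rw [h6]; ring
        _ ≤ 5 ^ j + 4 * 5 ^ j := by gcongr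
        _ = 5 ^ (j + 1) := by ring

theorem trZ_mod (l : ℕ) (b : Bool) (n : ℤ) (j : ℕ) : trZ l b n (j + 1) % 5 ≠ 0 := by
  induction j with
  | zero =>
    have hstep := trStep_cases l b n 0
    unfold trStep at hstep
    simp only [trZ, pow_zero, one_mul]
    rcases hstep with h | h <;> rw [h] <;> decide
  | succ j ih =>
    have h1 : trZ l b n (j + 1 + 1) = trZ l b n (j + 1) -
      5 * (5 ^ j * (trS l b (j + 1) * eps (trM l b n (j + 1)))) := by
      rw [trZ, pow_succ]
      ring
    rw [h1]
    omega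

theorem tr_even {l : ℕ} {n : ℤ} (h : (M l : ℤ) ∣ n) : n % 2 = 0 := by
  have h1 : (2 : ℤ) ∣ (M l : ℤ) := by
    rw [M_eq]
    exact ⟨256 * w l, by push_cast; ring⟩
  have := h1.trans h
  omega

theorem tr_dd_lt_M (l : ℕ) : dd l < M l := by
  have := w_pos l
  rw [M_eq, dd]
  omega

theorem gq_isC (l : ℕ) (b : Bool) {n : ℤ} (hn : isC l b n) : gq l b (dd l) n = call l n := by
  have hev := tr_even (isC_dvd hn)
  have key : ∀ j : ℕ, j ≤ dd l → trM l b n j = n + eps n * j ∧
      4 * trZ l b n j = - eps n * (5 ^ j - 1) := by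
    intro j
    induction j with
    | zero =>
      intro _
      simp [trM, trZ]
    | succ j ih =>
      intro hj
      obtain ⟨h1, h2⟩ := ih (by omega)
      have hs : trS l b j * eps (trM l b n j) = eps n := by
        rcases Nat.eq_zero_or_pos j with rfl | hj0
        · simp [trS, trM]
        · have hjM : |(j : ℤ)| < M l := by
            have := tr_dd_lt_M l
            rw [abs_of_nonneg (by positivity)]
            exact_mod_cast (by omega : j < M l)
          have hj0' : (j : ℤ) ≠ 0 := by exact_mod_cast hj0.ne'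
          have h3 : trS l b j = eps (n + j) := by
            rw [trS, if_neg hj0.ne', ← eps_class hn hj0' hjM]
          rw [h3, h1]
          rcases eps_cases n with h | h
          · rw [h, one_mul, eps_mul_self]
          · rw [h, neg_one_mul, ← sub_eq_add_neg, eps_class_neg (isC_dvd hn) hj0' hjM, mul_neg,
              eps_mul_self]
      refine ⟨?_, ?_⟩
      · rw [trM, hs, h1]
        push_cast
        ring
      · rw [trZ, hs, mul_sub, h2, pow_succ]
        ring
  obtain ⟨h1, h2⟩ := key (dd l) le_rfl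
  rw [(tr_main l b hev (dd l)).1, h1, call]
  have h3 : (4 : ℚ) * (trZ l b n (dd l) : ℚ) = - (eps n : ℚ) * (5 ^ dd l - 1) := by
    exact_mod_cast h2
  have h4 : (trZ l b n (dd l) : ℚ) = - (eps n : ℚ) * (5 ^ dd l - 1) / 4 := by linarith
  rw [h4]
  have h5 : (5 : ℚ) ^ dd l ≠ 0 := by positivity
  push_cast
  rw [one_div, inv_pow]
  field_simp
  ring

theorem call_dist (l : ℕ) (n : ℤ) :
    (dd l : ℚ) - 1 / 4 ≤ |call l n - n| ∧ |call l n - n| ≤ dd l := by
  have h0 : (0 : ℚ) < (1 / 5) ^ dd l := by positivity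
  have h1 : ((1 : ℚ) / 5) ^ dd l ≤ 1 := pow_le_one₀ (by norm_num) (by norm_num)
  have hw : (1 : ℚ) ≤ dd l := by
    have := w_pos l
    exact_mod_cast (by rw [dd]; omega : 1 ≤ dd l)
  have h2 : call l n - n = eps n * ((dd l : ℚ) - (1 - (1 / 5) ^ (dd l)) / 4) := by
    rw [call]
    ring
  have h3 : |call l n - n| = (dd l : ℚ) - (1 - (1 / 5) ^ (dd l)) / 4 := by
    rw [h2, abs_mul]
    have h4 : |(eps n : ℚ)| = 1 := by
      rcases eps_cases n with h | h <;> rw [h] <;> simp
    rw [h4, one_mul, abs_of_nonneg (by linarith)]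
  rw [h3]
  constructor <;> linarith

theorem tr_dd_inj {l l' : ℕ} (h : dd l = dd l') : l = l' := by
  unfold dd w at h
  have h1 : 2 ^ (10 * l + 1) = 2 ^ (10 * l' + 1) := by omega
  have h2 := Nat.pow_right_injective (le_refl 2) h1
  omega

theorem call_inj {l l' : ℕ} {n : ℤ} (h : call l n = call l' n) : l = l' := by
  apply tr_dd_inj
  obtain ⟨h1, h2⟩ := call_dist l n
  obtain ⟨h3, h4⟩ := call_dist l' n
  rw [h] at h1 h2
  have h5 : (dd l : ℚ) < dd l' + 1 := by linarith
  have h6 : (dd l' : ℚ) < dd l + 1 := by linarith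
  have h5' : dd l < dd l' + 1 := by exact_mod_cast h5
  have h6' : dd l' < dd l + 1 := by exact_mod_cast h6
  omega

theorem call_tau (l : ℕ) {a n0 n : ℤ} (he : eps (n0 + a * n) = a * eps n) (ha : a = 1 ∨ a = -1) :
    call l (n0 + a * n) = n0 + a * call l n := by
  rw [call, call, he]
  push_cast
  ring

/-- the label of the class `b` and of the other class agree at distances `< M / 2` -/
theorem tr_ctr_eq (l : ℕ) (b : Bool) {j : ℤ} (h0 : 0 < j) (hj : j < 256 * w l) :
    eps (ctr l b + j) = eps (ctr l (!b) + j) := by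
  have hM : (M l : ℤ) = 2 ^ (10 * l + 9 + 1) := by
    rw [M]
    push_cast
    ring
  have hw : (2 : ℤ) ^ (10 * l + 9) = 256 * w l := by
    rw [w]
    push_cast
    ring
  have hnd : ¬ ((2 : ℤ) ^ (10 * l + 9)) ∣ j := by
    intro h
    have := Int.le_of_dvd h0 h
    omega
  cases b with
  | true =>
    refine eps_congr (10 * l + 9) ?_ ?_
    · simp only [ctr, if_true, Bool.not_true, Bool.false_eq_true, if_false, ← hM]
      exact ⟨-1, by ring⟩
    · simpa [ctr] using hnd
  | false =>
    symm
    refine eps_congr (10 * l + 9) ?_ ?_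
    · simp only [ctr, if_true, Bool.not_false, Bool.false_eq_true, if_false, ← hM]
      exact ⟨-1, by ring⟩
    · simpa [ctr] using hnd

theorem tr_ctr_ne (l : ℕ) (b : Bool) :
    eps (ctr l b + 256 * w l) = - eps (ctr l (!b) + 256 * w l) := by
  have h1 : eps (256 * (w l : ℤ)) = 1 := by
    have h2 : (256 * (w l : ℤ)) = 2 ^ (10 * l + 9) * 1 := by
      rw [w]
      push_cast
      ring
    rw [h2, eps_pow_mul, eps_of_mod_one (by norm_num)]
  have h3 : eps ((M l : ℤ) + 256 * (w l : ℤ)) = -1 := by
    have h2 : ((M l : ℤ) + 256 * (w l : ℤ)) = 2 ^ (10 * l + 9) * 3 := by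
      rw [M_eq, w]
      push_cast
      ring
    rw [h2, eps_pow_mul, eps_of_mod_three (by norm_num)]
  cases b with
  | true => simp [ctr, h1, h3]
  | false => simp [ctr, h1, h3]

theorem gq_not (l : ℕ) (b : Bool) {n : ℤ} (hn : ¬ isC l b n) (l' : ℕ) (hl' : (M l' : ℤ) ∣ n) :
    gq l b (dd l) n ≠ call l' n := by
  intro heq
  have hev := tr_even hl'
  obtain ⟨h1, -, h3⟩ := tr_main l b hev (dd l)
  rw [h1, call] at heq
  have hdd : 1 ≤ dd l := by
    have := w_pos l
    rw [dd]; omega
  have hdd' : 1 ≤ dd l' := by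
    have := w_pos l'
    rw [dd]; omega
  set m := trM l b n (dd l) with hm
  set z := trZ l b n (dd l) with hz
  have hzmod : z % 5 ≠ 0 := by
    have := trZ_mod l b n (dd l - 1)
    rw [Nat.sub_add_cancel hdd] at this
    exact this
  have h5 : (0 : ℚ) < 5 ^ dd l := by positivity
  have h5' : (0 : ℚ) < 5 ^ dd l' := by positivity
  have hx : |(z : ℚ) / 5 ^ dd l| ≤ 1 / 4 := by
    rw [abs_div, abs_of_pos h5, div_le_iff₀ h5]
    have h3' : (4 : ℚ) * |(z : ℚ)| ≤ 5 ^ dd l := by exact_mod_cast h3
    linarith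
  have hq0 : (0 : ℚ) < (1 / 5) ^ dd l' := by positivity
  have hq1 : ((1 : ℚ) / 5) ^ dd l' ≤ 1 := pow_le_one₀ (by norm_num) (by norm_num)
  have habs : |(eps n : ℚ) * ((1 - (1 / 5) ^ dd l') / 4)| ≤ 1 / 4 := by
    rw [abs_mul]
    have h4 : |(eps n : ℚ)| = 1 := by
      rcases eps_cases n with h | h <;> rw [h] <;> simp
    rw [h4, one_mul, abs_of_nonneg (by linarith)]
    linarith
  -- the integer parts agree
  have hmeq : m = n + eps n * dd l' := by
    have h6 : |((m - (n + eps n * dd l') : ℤ) : ℚ)| < 1 := by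
      have h7 : ((m - (n + eps n * dd l') : ℤ) : ℚ) =
          - ((z : ℚ) / 5 ^ dd l) - (eps n : ℚ) * ((1 - (1 / 5) ^ dd l') / 4) := by
        push_cast
        linarith
      rw [h7]
      calc |- ((z : ℚ) / 5 ^ dd l) - (eps n : ℚ) * ((1 - (1 / 5) ^ dd l') / 4)|
          ≤ |- ((z : ℚ) / 5 ^ dd l)| + |(eps n : ℚ) * ((1 - (1 / 5) ^ dd l') / 4)| := abs_sub _ _
        _ ≤ 1 / 4 + 1 / 4 := by
            rw [abs_neg]
            exact add_le_add hx habs
        _ < 1 := by norm_num
    have h8 : |m - (n + eps n * dd l')| < 1 := by exact_mod_cast h6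
    rw [Int.abs_lt_one_iff] at h8
    omega
  -- compare denominators
  have hzeq : (z : ℚ) / 5 ^ dd l = - (eps n : ℚ) * ((5 ^ dd l' - 1) / 4) / 5 ^ dd l' := by
    have h9 : (z : ℚ) / 5 ^ dd l = - (eps n : ℚ) * ((1 - (1 / 5) ^ dd l') / 4) := by
      rw [hmeq] at heq
      push_cast at heq
      linarith
    rw [h9, one_div, inv_pow]
    field_simp
  have hint : 4 * z * 5 ^ dd l' = - eps n * (5 ^ dd l' - 1) * 5 ^ dd l := by
    have h10 : (4 * z * 5 ^ dd l' : ℚ) = - eps n * (5 ^ dd l' - 1) * 5 ^ dd l := by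
      rw [div_eq_div_iff h5.ne' h5'.ne'] at hzeq
      linarith
    exact_mod_cast h10
  have hlt : ∀ a c : ℕ, ∀ p q : ℤ, p % 5 ≠ 0 → p * 5 ^ a = q * 5 ^ c → c ≤ a := by
    intro a c p q hp hpq
    by_contra hlt
    push Not at hlt
    obtain ⟨k, rfl⟩ := Nat.exists_eq_add_of_lt hlt
    have : p = q * 5 ^ k * 5 := by
      have h11 : (5 : ℤ) ^ a ≠ 0 := by positivity
      apply mul_right_cancel₀ h11
      rw [hpq]
      ring
    omega
  have hdeq : dd l = dd l' := by
    apply le_antisymm
    · refine hlt (dd l') (dd l) (4 * z) (- eps n * (5 ^ dd l' - 1)) (by omega) hint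
    · have h12 : (5 : ℤ) ^ dd l' = 5 * 5 ^ (dd l' - 1) := by
        rw [← pow_succ']
        congr 1
        omega
      refine hlt (dd l) (dd l') (- eps n * (5 ^ dd l' - 1)) (4 * z) ?_ hint.symm
      rw [h12]
      rcases eps_cases n with h | h <;> rw [h] <;> omega
  have hll := tr_dd_inj hdeq
  subst hll
  -- the other class
  have hn' : isC l (!b) n := by
    have h13 := isC_decide hl'
    rcases hd : decide ((2 * (M l : ℤ)) ∣ n) with _ | _
    · rw [hd] at h13
      cases b with
      | true => exact h13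
      | false => exact absurd h13 hn
    · rw [hd] at h13
      cases b with
      | true => exact absurd h13 hn
      | false => exact h13
  have hwpos := w_pos l
  have key : ∀ j : ℕ, j ≤ 256 * w l → trM l b n j = n + eps n * j := by
    intro j
    induction j with
    | zero =>
      intro _
      simp [trM]
    | succ j ih =>
      intro hj
      have h1 := ih (by omega)
      have hs : trS l b j * eps (trM l b n j) = eps n := by
        rcases Nat.eq_zero_or_pos j with rfl | hj0
        · simp [trS, trM]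
        · have hjM : |(j : ℤ)| < M l := by
            have := tr_dd_lt_M l
            have h14 : j < M l := by rw [M_eq]; omega
            rw [abs_of_nonneg (by positivity)]
            exact_mod_cast h14
          have hj0' : (j : ℤ) ≠ 0 := by exact_mod_cast hj0.ne'
          have h3 : trS l b j = eps (n + j) := by
            rw [trS, if_neg hj0.ne', tr_ctr_eq l b (by exact_mod_cast hj0) (by omega),
              ← eps_class hn' hj0' hjM]
          rw [h3, h1]
          rcases eps_cases n with h | h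
          · rw [h, one_mul, eps_mul_self]
          · rw [h, neg_one_mul, ← sub_eq_add_neg, eps_class_neg hl' hj0' hjM, mul_neg,
              eps_mul_self]
      rw [trM, hs, h1]
      push_cast
      ring
  have hback : trM l b n (256 * w l + 1) = n + eps n * (256 * w l : ℕ) - eps n := by
    have h1 := key (256 * w l) le_rfl
    have hj0' : ((256 * w l : ℕ) : ℤ) ≠ 0 := by
      push_cast
      omega
    have hjM : |((256 * w l : ℕ) : ℤ)| < M l := by
      have h14 : 256 * w l < M l := by rw [M_eq]; omega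
      rw [abs_of_nonneg (by positivity)]
      exact_mod_cast h14
    have hs : trS l b (256 * w l) * eps (trM l b n (256 * w l)) = - eps n := by
      have h3 : trS l b (256 * w l) = - eps (n + (256 * w l : ℕ)) := by
        rw [trS, if_neg (by omega), eps_class hn' hj0' hjM]
        push_cast
        exact tr_ctr_ne l b
      rw [h3, h1]
      rcases eps_cases n with h | h
      · rw [h, one_mul, neg_mul, eps_mul_self]
      · rw [h, neg_one_mul, ← sub_eq_add_neg, eps_class_neg hl' hj0' hjM, mul_neg, neg_mul,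
          neg_neg, neg_neg, eps_mul_self]
    rw [trM, hs, h1]
    ring
  have hbound : ∀ i : ℕ, eps n * (trM l b n (256 * w l + 1 + i) - n) ≤ 256 * w l - 1 + i := by
    intro i
    induction i with
    | zero =>
      rw [add_zero, hback]
      have h15 := eps_mul_self n
      push_cast
      have h16 : eps n * (n + eps n * (256 * w l) - eps n - n) =
        (eps n * eps n) * (256 * w l) - eps n * eps n := by ring
      rw [h16, h15]
      omega
    | succ i ih =>
      rw [← add_assoc, trM]
      have h17 := tr_mul_cases (eps_cases n) (trStep_cases l b n (256 * w l + 1 + i))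
      unfold trStep at h17
      have h18 : eps n * (trM l b n (256 * w l + 1 + i) + trS l b (256 * w l + 1 + i) *
          eps (trM l b n (256 * w l + 1 + i)) - n) = eps n * (trM l b n (256 * w l + 1 + i) - n) +
          eps n * (trS l b (256 * w l + 1 + i) * eps (trM l b n (256 * w l + 1 + i))) := by ring
      rw [h18]
      push_cast
      rcases h17 with h | h <;> rw [h] <;> omega
  have hfin := hbound (dd l - (256 * w l + 1))
  have h19 : 256 * w l + 1 + (dd l - (256 * w l + 1)) = dd l := by
    rw [dd]; omega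
  rw [h19, ← hm, hmeq] at hfin
  have h20 : eps n * (n + eps n * (dd l : ℤ) - n) = (eps n * eps n) * dd l := by ring
  rw [h20, eps_mul_self] at hfin
  have h21 : ((dd l - (256 * w l + 1) : ℕ) : ℤ) = dd l - (256 * w l + 1) := by
    rw [Nat.cast_sub (by rw [dd]; omega)]
    push_cast
    ring
  rw [h21] at hfin
  omega

end Pool.Agent.LO
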