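import Pool.Agent.LO.RelV
import Pool.Agent.LO.RelC
import Pool.Agent.LO.Words

set_option autoImplicit false

namespace Pool.Agent.LO

/-! Package LO-I3: the power `W^k` of the level-`l` word is a short word -/

/-- letter for `s_j` -/
def rsl (j : ℕ) : Fin 5 := if j % 2 = 1 then 0 else 1

theorem lett_rsl (t : X ≃o X) (j : ℕ) (e : ℤ) (he : e = 1 ∨ e = -1) :
    lett t (rsl j, decide (e = 1)) = mv (sq j ^ e) := by
  have h0 : gens t (rsl j) = mv (sq j) := by
    unfold rsl sq
    split_ifs <;> rfl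
  rcases he with rfl | rfl
  · simp [lett, h0]
  · have h1 : decide ((-1 : ℤ) = 1) = false := by decide
    rw [h1]
    simp only [lett, Bool.false_eq_true, if_false]
    rw [h0, mv_zpow]
    simp

/-- word for `fq` -/
def rfw (l : ℕ) (b : Bool) : ℕ → List (Fin 5 × Bool)
  | 0 => []
  | j + 1 => rfw l b j ++ [(rsl (j + 1), decide (- eps (ctr l b + ((j : ℤ) + 1)) = 1))]

theorem rfw_length (l : ℕ) (b : Bool) (j : ℕ) : (rfw l b j).length = j := by
  induction j with
  | zero => rfl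
  | succ j ih => simp [rfw, ih]

theorem ev_rfw (t : X ≃o X) (l : ℕ) (b : Bool) (j : ℕ) : ev t (rfw l b j) = mv (fq l b j) := by
  induction j with
  | zero => rw [rfw, ev_nil, fq, mv_one]
  | succ j ih =>
    rw [rfw, ev_append, ih, fq, mv_mul, ev_cons, ev_nil, mul_one, lett_rsl]
    rcases eps_cases (ctr l b + ((j : ℤ) + 1)) with h | h
    · rw [h]; right; rfl
    · rw [h]; left; rfl

/-- word for `gq` -/
def rgw (l : ℕ) (b : Bool) : ℕ → List (Fin 5 × Bool)
  | 0 => []
  | j + 1 => (rsl j, decide ((if j = 0 then (1 : ℤ) else eps (ctr l b + (j : ℤ))) = 1)) ::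
      rgw l b j

theorem rgw_length (l : ℕ) (b : Bool) (j : ℕ) : (rgw l b j).length = j := by
  induction j with
  | zero => rfl
  | succ j ih => simp [rgw, ih]

theorem ev_rgw (t : X ≃o X) (l : ℕ) (b : Bool) (j : ℕ) : ev t (rgw l b j) = mv (gq l b j) := by
  induction j with
  | zero => rw [rgw, ev_nil, gq, mv_one]
  | succ j ih =>
    rw [rgw, ev_cons, ih, gq, mv_mul, lett_rsl]
    split_ifs
    · left; rfl
    · exact eps_cases _

/-- a short word for `hh t l b` -/
theorem exists_hh {t : X ≃o X} (ht : Psi t = t) (l : ℕ) (b : Bool) :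
    ∃ v : List (Fin 5 × Bool), v.length = 2464 * w l + 10 ∧ ev t v = hh t l b := by
  have hc := comm_eq ht l b (g := mv (gq l b (dd l))) rfl
  obtain ⟨F, hFe, hFl⟩ : ∃ F, ev t F = mv (fq l b (JJ l)) ∧ F.length = JJ l :=
    ⟨_, ev_rfw t l b _, rfw_length l b _⟩
  obtain ⟨G, hGe, hGl⟩ : ∃ G, ev t G = mv (gq l b (dd l)) ∧ G.length = dd l :=
    ⟨_, ev_rgw t l b _, rgw_length l b _⟩
  -- the conjugate of `t`
  obtain ⟨A, hAe, hAl⟩ : ∃ A, ev t A = (mv (gq l b (dd l)))⁻¹ * t * mv (gq l b (dd l)) ∧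
      A.length = 2 * dd l + 1 := by
    refine ⟨iw G ++ ([(4, true)] ++ G), ?_, ?_⟩
    · rw [ev_append, ev_append, ev_iw, hGe, ev_cons, ev_nil, mul_one, mul_assoc]
      congr 1
    · rw [List.length_append, List.length_append, iw_length, hGl]
      simp
      ring
  obtain ⟨B, hBe, hBl⟩ : ∃ B, ev t B = gam * mv dq * gam⁻¹ ∧ B.length = 3 := by
    refine ⟨[(2, true), (3, true), (2, false)], ?_, rfl⟩
    rw [ev_cons, ev_cons, ev_cons, ev_nil, mul_one, mul_assoc]
    rfl
  refine ⟨iw F ++ ([(2, false)] ++ (A ++ (B ++ (iw A ++ (iw B ++ ([(2, true)] ++ F)))))), ?_, ?_⟩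
  · simp only [List.length_append, iw_length, hFl, hAl, hBl, List.length_cons, List.length_nil]
    unfold JJ dd
    ring
  · rw [ev_append, ev_append, ev_append, ev_append, ev_append, ev_append, ev_append, ev_iw,
      ev_iw, ev_iw, hFe, hAe, hBe, ev_cons, ev_nil, mul_one, ev_cons, ev_nil, mul_one]
    have h2 : lett t (2, false) = gam⁻¹ := rfl
    have h3 : lett t (2, true) = gam := rfl
    rw [h2, h3]
    have h4 : hh t l b = (mv (fq l b (JJ l)))⁻¹ * E t l b * mv (fq l b (JJ l)) := by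
      unfold E
      group
    rw [h4]
    have h5 : E t l b = gam⁻¹ * (gam * E t l b * gam⁻¹) * gam := by group
    rw [h5, ← hc]
    simp only [mul_assoc]

theorem exists_short {t : X ≃o X} (hP : HP t) (hT : Trp t) (ht : Psi t = t) (l : ℕ) :
    ∃ v : List (Fin 5 × Bool), v.length ≤ cost l ∧ ev t v = (ev t (wd l)) ^ (kk l) := by
  obtain ⟨v1, hl1, he1⟩ := exists_hh ht l true
  obtain ⟨v2, hl2, he2⟩ := exists_hh ht l false
  refine ⟨v1 ++ v2, ?_, ?_⟩
  · rw [List.length_append, hl1, hl2]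
    unfold cost
    omega
  · rw [ev_append, he1, he2, ← V_eq hP hT l]
    rfl

end Pool.Agent.LO
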