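import Pool.Agent.LO.PsiT

set_option autoImplicit false

namespace Pool.Agent.LO

/-! Package LO-I1: decomposition of the power `W^k` -/

theorem V_eq {t : X ≃o X} (hP : HP t) (hT : Trp t) (l : ℕ) :
    V t l = hh t l true * hh t l false := by
  refine RelIso.ext fun x => ?_
  change V t l x = hA t l (hB t l x)
  have hw : (0 : ℚ) < w l := by exact_mod_cast w_pos l
  have hd8 : |(V t l x).hd - x.hd| ≤ 8 * w l := by
    have h := hT l x (kk l)
    rw [zpow_natCast] at h
    exact h
  have hinv : (hA t l)⁻¹ = cl (mv (psi l true)) (V t l)⁻¹ :=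
    cl_inv (le_mv (le_psi l true)) _
  set y := (hA t l)⁻¹ (V t l x) with hy
  have hVy : hA t l y = V t l x := by
    rw [hy]
    exact RelIso.apply_inv_self _ _
  have hVinv : (V t l)⁻¹ (V t l x) = x := RelIso.inv_apply_self _ _
  have hbt := cl_between (le_mv (le_psi l true)) (V t l)⁻¹ (V t l x)
  rw [← hinv, hVinv, ← hy] at hbt
  suffices hB t l x = y by rw [this, hVy]
  have hBdef : hB t l = cl (mv (psi l false)) ((hA t l)⁻¹ * V t l) := rfl
  have hmul : ((hA t l)⁻¹ * V t l) x = y := rfl
  obtain ⟨n, b, hn, hr⟩ := exists_isC l x.hd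
  rw [abs_le] at hd8 hr
  rw [hBdef, ← hmul]
  cases b with
  | true =>
    have hr2 : |(V t l x).hd - n| ≤ 296 * w l := by
      rw [abs_le]
      constructor <;> linarith [hd8.1, hd8.2, hr.1, hr.2]
    obtain ⟨h1, h2⟩ := psi_eq l true hn hr2
    have hyx : y = x := by
      rw [hy, hinv, cl_eq, hVinv]
      · rw [hVinv]
        refine le_of_lt (X.lt_of_hd_lt ?_)
        rw [mv_inv_apply, X.hd_setHd, h2]
        linarith [hd8.1, hd8.2]
      · rw [hVinv]
        refine le_of_lt (X.lt_of_hd_lt ?_)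
        rw [mv_apply, X.hd_setHd, h1]
        linarith [hd8.1, hd8.2]
    refine cl_eq ?_ ?_
    · rw [hmul, hyx]
      have h3 := le_mv (le_psi l false) ((mv (psi l false))⁻¹ x)
      have h4 : mv (psi l false) ((mv (psi l false))⁻¹ x) = x := RelIso.apply_inv_self _ _
      rw [h4] at h3
      exact h3
    · rw [hmul, hyx]
      exact le_mv (le_psi l false) x
  | false =>
    obtain ⟨h1, h2⟩ := psi_eq l false hn (r := x.hd) (by
      rw [abs_le]
      constructor <;> linarith [hr.1, hr.2])
    have hyd : x.hd - 8 * w l ≤ y.hd ∧ y.hd ≤ x.hd + 8 * w l := by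
      rcases hbt with ⟨h3, h4⟩ | ⟨h3, h4⟩
      · have h5 := X.hd_le_of_le h3
        have h6 := X.hd_le_of_le h4
        constructor <;> linarith [hd8.1, hd8.2]
      · have h5 := X.hd_le_of_le h3
        have h6 := X.hd_le_of_le h4
        constructor <;> linarith [hd8.1, hd8.2]
    refine cl_eq ?_ ?_
    · rw [hmul]
      refine le_of_lt (X.lt_of_hd_lt ?_)
      rw [mv_inv_apply, X.hd_setHd, h2]
      linarith [hyd.1]
    · rw [hmul]
      refine le_of_lt (X.lt_of_hd_lt ?_)
      rw [mv_apply, X.hd_setHd, h1]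
      linarith [hyd.2]

end Pool.Agent.LO
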