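import Pool.Agent.LO.Lattice
import Pool.Agent.LO.Eps

set_option autoImplicit false

namespace Pool.Agent.LO

/-! Package LO-C1: the linear order on `X`, moving heads -/

theorem kF_lt_kF {r s : ℚ} {n m : ℤ} :
    kF r n < kF s m ↔ r < s ∨ (r = s ∧ (eps n < eps m ∨ (eps n = eps m ∧ n < m))) := by
  unfold kF
  rw [Prod.Lex.toLex_lt_toLex, Prod.Lex.toLex_lt_toLex]

theorem kT_lt_kT {r s : ℚ} : kT r < kT s ↔ r < s := by
  unfold kT
  rw [Prod.Lex.toLex_lt_toLex]
  simp

theorem kT_lt_kF {r s : ℚ} {m : ℤ} : kT r < kF s m ↔ r < s ∨ (r = s ∧ eps m = 1) := by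
  unfold kT kF
  rw [Prod.Lex.toLex_lt_toLex, Prod.Lex.toLex_lt_toLex]
  rcases eps_cases m with h | h
  · simp [h]
  · simp [h]

theorem kF_lt_kT {r s : ℚ} {n : ℤ} : kF r n < kT s ↔ r < s ∨ (r = s ∧ eps n = -1) := by
  unfold kT kF
  rw [Prod.Lex.toLex_lt_toLex, Prod.Lex.toLex_lt_toLex]
  rcases eps_cases n with h | h
  · simp [h]
  · simp [h]

theorem stacks_key_fst_le {a b : Key} (h : a ≤ b) : (ofLex a).1 ≤ (ofLex b).1 := by
  rcases Prod.Lex.le_iff.1 h with h | h
  · exact h.le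
  · exact h.1.le

theorem stacks_key_lt_of_fst {a b : Key} (h : (ofLex a).1 < (ofLex b).1) : a < b :=
  Prod.Lex.lt_iff.2 (Or.inl h)

namespace X

theorem fst_key (x : X) : (ofLex x.key).1 = x.hd := by
  refine X.ind (motive := fun x => (ofLex x.key).1 = x.hd) ?_ ?_ x
  · intro r
    rfl
  · intro r n y h _
    rfl

theorem stacks_lt_def {x y : X} : x < y ↔ x.1.toList < y.1.toList := Iff.rfl

theorem stacks_toList (x : X) : ∃ l, x.1.toList = x.key :: l := by
  refine X.ind (motive := fun x => ∃ l, x.1.toList = x.key :: l) ?_ ?_ x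
  · intro r
    exact ⟨[], rfl⟩
  · intro r n y h _
    exact ⟨y.1.toList, rfl⟩

theorem lt_of_key_lt {x y : X} (h : x.key < y.key) : x < y := by
  obtain ⟨l, hl⟩ := stacks_toList x
  obtain ⟨l', hl'⟩ := stacks_toList y
  rw [stacks_lt_def, hl, hl', List.cons_lt_cons_iff]
  exact Or.inl h

theorem key_le_of_le {x y : X} (h : x ≤ y) : x.key ≤ y.key := by
  rcases le_or_gt x.key y.key with h1 | h1
  · exact h1
  · exact absurd h (not_le.2 (lt_of_key_lt h1))

theorem F_lt_F_iff {r : ℚ} {n : ℤ} {y z : X} {hy hz} : F r n y hy < F r n z hz ↔ y < z := by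
  rw [stacks_lt_def, stacks_lt_def]
  show (kF r n :: y.1.toList) < (kF r n :: z.1.toList) ↔ _
  rw [List.cons_lt_cons_iff]
  constructor
  · rintro (h | h)
    · exact absurd h (lt_irrefl _)
    · exact h.2
  · intro h
    exact Or.inr ⟨rfl, h⟩

theorem T_lt_T_iff {r s : ℚ} : T r < T s ↔ r < s := by
  rw [stacks_lt_def]
  show [kT r] < [kT s] ↔ _
  rw [List.cons_lt_cons_iff, ← kT_lt_kT]
  constructor
  · rintro (h | h)
    · exact h
    · exact absurd h.2 (lt_irrefl _)
  · intro h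
    exact Or.inl h

theorem eq_F_of_key {x : X} {r : ℚ} {n : ℤ} (h : x.key = kF r n) :
    ∃ y hy, x = F r n y hy := by
  revert h
  refine X.ind (motive := fun x => x.key = kF r n → ∃ y hy, x = F r n y hy) ?_ ?_ x
  · intro s h
    exact absurd h (kT_ne_kF _ _ _)
  · intro s m y hy _ h
    obtain ⟨rfl, rfl⟩ := kF_inj h
    exact ⟨y, hy, rfl⟩

theorem stacks_eq_T_of_key {x : X} {r : ℚ} (h : x.key = kT r) : x = T r := by
  revert h
  refine X.ind (motive := fun x => x.key = kT r → x = T r) ?_ ?_ x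
  · intro s h
    rw [kT_inj h]
  · intro s m y hy _ h
    exact absurd h.symm (kT_ne_kF _ _ _)

theorem lt_cases {x y : X} (h : x < y) : x.key < y.key ∨
    ∃ r n a b ha hb, x = F r n a ha ∧ y = F r n b hb ∧ a < b := by
  rcases lt_or_eq_of_le (key_le_of_le h.le) with h1 | h1
  · exact Or.inl h1
  · right
    revert h h1
    refine X.ind (motive := fun x => x < y → x.key = y.key →
      ∃ r n a b ha hb, x = F r n a ha ∧ y = F r n b hb ∧ a < b) ?_ ?_ x
    · intro s h h1
      have h2 := stacks_eq_T_of_key h1.symm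
      rw [h2] at h
      exact absurd h (lt_irrefl _)
    · intro s m z hz _ h h1
      obtain ⟨b, hb, rfl⟩ := eq_F_of_key h1.symm
      exact ⟨s, m, z, b, hz, hb, rfl, rfl, F_lt_F_iff.1 h⟩

theorem hd_le_of_le {x y : X} (h : x ≤ y) : x.hd ≤ y.hd := by
  rw [← fst_key x, ← fst_key y]
  exact stacks_key_fst_le (key_le_of_le h)

theorem lt_of_hd_lt {x y : X} (h : x.hd < y.hd) : x < y := by
  rw [← fst_key x, ← fst_key y] at h
  exact lt_of_key_lt (stacks_key_lt_of_fst h)

theorem hd_near_of_core {x : X} {n : ℤ} (h : x.key ∈ core n) : |x.hd - n| ≤ 3 / 8 := by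
  have h1 : (n : ℚ) - 3 / 8 ≤ (ofLex x.key).1 := stacks_key_fst_le h.1
  have h2 : (ofLex x.key).1 ≤ (n : ℚ) + 3 / 8 := stacks_key_fst_le h.2
  rw [fst_key] at h1 h2
  rw [abs_le]
  constructor <;> linarith

theorem core_of_near {x : X} {n : ℤ} (h : |x.hd - n| < 3 / 8) : x.key ∈ core n := by
  rw [abs_lt, ← fst_key] at h
  constructor
  · apply le_of_lt
    apply stacks_key_lt_of_fst
    show (n : ℚ) - 3 / 8 < _
    linarith [h.1]
  · apply le_of_lt
    apply stacks_key_lt_of_fst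
    show _ < (n : ℚ) + 3 / 8
    linarith [h.2]

theorem setHd_hd (x : X) : x.setHd x.hd = x := by
  refine X.ind (motive := fun x => x.setHd x.hd = x) ?_ ?_ x
  · intro r
    rfl
  · intro r n y h _
    rfl

theorem hd_setHd (x : X) (r : ℚ) : (x.setHd r).hd = r := by
  refine X.ind (motive := fun x => (x.setHd r).hd = r) ?_ ?_ x
  · intro s
    rfl
  · intro s n y h _
    rfl

theorem setHd_setHd (x : X) (r s : ℚ) : (x.setHd r).setHd s = x.setHd s := by
  refine X.ind (motive := fun x => (x.setHd r).setHd s = x.setHd s) ?_ ?_ x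
  · intro t
    rfl
  · intro t n y h _
    rfl

theorem setHd_lt_setHd {x y : X} {r s : ℚ} (h : r < s) : x.setHd r < y.setHd s := by
  apply lt_of_hd_lt
  rw [hd_setHd, hd_setHd]
  exact h

theorem stacks_setHd_lt {x y : X} (h : x < y) (he : x.hd = y.hd) (r : ℚ) :
    x.setHd r < y.setHd r := by
  rcases X.lt_cases h with h1 | ⟨s, n, a, b, ha, hb, h1, h2, h3⟩
  · apply X.lt_of_key_lt
    revert h1 he
    refine X.ind (motive := fun x => x.hd = y.hd → x.key < y.key →
      (x.setHd r).key < (y.setHd r).key) ?_ ?_ x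
    · intro s
      refine X.ind (motive := fun y => (X.T s).hd = y.hd → (X.T s).key < y.key →
        ((X.T s).setHd r).key < (y.setHd r).key) ?_ ?_ y
      · intro s' he h1
        rw [X.hd_T, X.hd_T] at he
        rw [X.key_T, X.key_T, kT_lt_kT] at h1
        exact absurd he h1.ne
      · intro s' m' y' hy' _ he h1
        rw [X.hd_T, X.hd_F] at he
        rw [X.key_T, X.key_F, kT_lt_kF] at h1
        rw [X.setHd_T, X.setHd_F, X.key_T, X.key_F, kT_lt_kF]
        rcases h1 with h1 | h1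
        · exact absurd he h1.ne
        · exact Or.inr ⟨rfl, h1.2⟩
    · intro s m z hz _
      refine X.ind (motive := fun y => (X.F s m z hz).hd = y.hd → (X.F s m z hz).key < y.key →
        ((X.F s m z hz).setHd r).key < (y.setHd r).key) ?_ ?_ y
      · intro s' he h1
        rw [X.hd_F, X.hd_T] at he
        rw [X.key_T, X.key_F, kF_lt_kT] at h1
        rw [X.setHd_T, X.setHd_F, X.key_T, X.key_F, kF_lt_kT]
        rcases h1 with h1 | h1
        · exact absurd he h1.ne
        · exact Or.inr ⟨rfl, h1.2⟩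
      · intro s' m' y' hy' _ he h1
        rw [X.hd_F, X.hd_F] at he
        rw [X.key_F, X.key_F, kF_lt_kF] at h1
        rw [X.setHd_F, X.setHd_F, X.key_F, X.key_F, kF_lt_kF]
        rcases h1 with h1 | h1
        · exact absurd he h1.ne
        · exact Or.inr ⟨rfl, h1.2⟩
  · subst h1 h2
    rw [X.setHd_F, X.setHd_F]
    exact X.F_lt_F_iff.2 h3

instance : Countable X := by
  have h1 : Countable Key := inferInstanceAs (Countable (ℚ × (ℤ × ℤ)))
  have h2 : Countable (List Key) := inferInstance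
  exact Function.Injective.countable (f := fun x : X => x.1.toList)
    (fun _ _ h => Subtype.ext (Stk.toList_inj h))

end X

theorem mv_apply (φ : ℚ ≃o ℚ) (x : X) : mv φ x = x.setHd (φ x.hd) := by
  unfold mv
  rw [mkIso_apply]
  · intro x y h
    show x.setHd (φ x.hd) < y.setHd (φ y.hd)
    rcases eq_or_lt_of_le (X.hd_le_of_le h.le) with h1 | h1
    · rw [h1]
      exact X.stacks_setHd_lt h h1 _
    · exact X.setHd_lt_setHd (φ.strictMono h1)
  · intro y
    refine ⟨y.setHd (φ.symm y.hd), ?_⟩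
    show (y.setHd (φ.symm y.hd)).setHd (φ (y.setHd (φ.symm y.hd)).hd) = y
    rw [X.setHd_setHd, X.hd_setHd, φ.apply_symm_apply, X.setHd_hd]

theorem mv_one : mv 1 = 1 := by
  ext x
  rw [mv_apply]
  show x.setHd x.hd = x
  rw [X.setHd_hd]

theorem mv_mul (φ ψ : ℚ ≃o ℚ) : mv (φ * ψ) = mv φ * mv ψ := by
  ext x
  rw [mv_apply]
  show _ = mv φ (mv ψ x)
  rw [mv_apply, mv_apply, X.setHd_setHd, X.hd_setHd]
  rfl

/-- `mv` as a group homomorphism -/
noncomputable def stacksMvHom : (ℚ ≃o ℚ) →* (X ≃o X) where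
  toFun := mv
  map_one' := mv_one
  map_mul' := mv_mul

theorem mv_inv (φ : ℚ ≃o ℚ) : mv φ⁻¹ = (mv φ)⁻¹ := map_inv stacksMvHom φ

theorem mv_pow (φ : ℚ ≃o ℚ) (k : ℕ) : mv (φ ^ k) = (mv φ) ^ k := map_pow stacksMvHom φ k

theorem mv_zpow (φ : ℚ ≃o ℚ) (k : ℤ) : mv (φ ^ k) = (mv φ) ^ k := map_zpow stacksMvHom φ k

theorem mv_inv_apply (φ : ℚ ≃o ℚ) (x : X) : (mv φ)⁻¹ x = x.setHd (φ⁻¹ x.hd) := by
  rw [← mv_inv, mv_apply]

theorem le_mv {φ : ℚ ≃o ℚ} (h : ∀ r, r ≤ φ r) (x : X) : x ≤ mv φ x := by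
  rw [mv_apply]
  rcases eq_or_lt_of_le (h x.hd) with h1 | h1
  · rw [← h1, X.setHd_hd]
  · apply le_of_lt
    apply X.lt_of_hd_lt
    rw [X.hd_setHd]
    exact h1

end Pool.Agent.LO
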